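import Pool.Agent.H40.RG.Sep3b

/-!
# 3-separations of r-graphs: alignment of the two colourings
-/

namespace Pool.Agent.H40.RG

open Finset

variable {V : Type*} [DecidableEq V]

/-- equality of all fibre sizes but one is enough -/
theorem exists_perm' {r : ℕ} {W : Type*} [DecidableEq W] (f g : Fin r → W) (v : W)
    (h : ∀ w, w ≠ v → (univ.filter fun i => f i = w).card = (univ.filter fun i => g i = w).card) :
    ∃ σ : Equiv.Perm (Fin r), ∀ i, g (σ i) = f i := by
  apply exists_perm
  intro w
  by_cases hw : w = v
  · subst hw
    set U : Finset W := insert w (univ.image f ∪ univ.image g) with hU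
    have h1 : ∀ k : Fin r → W, (∀ i, k i ∈ U) →
        ∑ x ∈ U, (univ.filter fun i => k i = x).card = r := by
      intro k hk
      rw [← card_eq_sum_card_fiberwise (s := univ) (f := k) (t := U) (fun i _ => hk i)]
      simp
    have h2 := h1 f (fun i => by rw [hU]; simp)
    have h3 := h1 g (fun i => by rw [hU]; simp)
    have hwU : w ∈ U := mem_insert_self _ _
    rw [← add_sum_erase _ _ hwU] at h2 h3
    rw [sum_congr rfl fun x hx => h x (ne_of_mem_erase hx)] at h2
    omega
  · exact h w hw

theorem ne_of_count {r : ℕ} {S : Finset V} {m : V → V → ℕ} {p : Fin r → V → V}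
    (hc : ∀ x ∈ S, ∀ y ∈ S, (univ.filter fun i => p i x = y).card = m x y) {x y : V} (hx : x ∈ S)
    (hy : y ∈ S) (h : m x y = 0) (i : Fin r) : p i x ≠ y := by
  intro he
  have h1 := hc x hx y hy
  rw [h, card_eq_zero] at h1
  have : i ∈ (∅ : Finset (Fin r)) := by rw [← h1]; simpa using he
  simp at this

theorem card_perm {r : ℕ} (σ : Equiv.Perm (Fin r)) (P : Fin r → Prop) [DecidablePred P] :
    (univ.filter fun i => P (σ i)).card = (univ.filter fun i => P i).card := by
  refine card_bij (fun i _ => σ i) ?_ ?_ ?_
  · intro i hi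
    simpa using hi
  · intro i _ j _ hij
    exact σ.injective hij
  · intro j hj
    exact ⟨σ.symm j, by simpa using hj, by simp⟩

theorem mem_S {A B : Finset V} {a b c x : V} : x ∈ insert a (insert b (insert c (A ∪ B))) ↔
    x = a ∨ x = b ∨ x = c ∨ x ∈ A ∨ x ∈ B := by
  simp only [mem_insert, mem_union]

theorem mem_S1 {A : Finset V} {a b c x : V} : x ∈ insert a (insert b (insert c A)) ↔
    x = a ∨ x = b ∨ x = c ∨ x ∈ A := by
  simp only [mem_insert]

theorem mem_S2 {B : Finset V} {a b c v x : V} : x ∈ insert v (insert a (insert b (insert c B))) ↔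
    x = v ∨ x = a ∨ x = b ∨ x = c ∨ x ∈ B := by
  simp only [mem_insert]

/-- aligned colourings of the two parts -/
structure Aligned (r : ℕ) (m : V → V → ℕ) (A B : Finset V) (a b c v : V) (α β γ τ : ℕ)
    (p q : Fin r → V → V) (k : Fin r → V) (J : Finset (Fin r)) : Prop where
  hp : ∀ i, ∀ x ∈ insert a (insert b (insert c A)), p i x ∈ insert a (insert b (insert c A)) ∧
    p i (p i x) = x
  hpc : ∀ x ∈ insert a (insert b (insert c A)), ∀ y ∈ insert a (insert b (insert c A)),
    (univ.filter fun i => p i x = y).card = m1 m a b c α β γ x y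
  hq : ∀ i, ∀ x ∈ insert v (insert a (insert b (insert c B))),
    q i x ∈ insert v (insert a (insert b (insert c B))) ∧ q i (q i x) = x
  hqc : ∀ x ∈ insert v (insert a (insert b (insert c B))),
    ∀ y ∈ insert v (insert a (insert b (insert c B))),
    (univ.filter fun i => q i x = y).card = m2 m a b c v α β γ τ x y
  hJ : J ⊆ univ.filter fun i => q i b = c
  hJc : J.card = τ
  hk : ∀ i, k i = v ↔ i ∈ J
  hcase : ∀ i, (k i = a ∧ p i b = c ∧ q i v = a) ∨ (k i = b ∧ p i a = c ∧ q i v = b) ∨
      (k i = c ∧ p i a = b ∧ q i v = c) ∨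
      (k i = v ∧ p i b ≠ c ∧ p i a ≠ c ∧ p i a ≠ b ∧ q i v = a ∧ q i b = c)

theorem Sep.align {r : ℕ} {m : V → V → ℕ} {A B : Finset V} {a b c : V} {α β γ τ : ℕ}
    (h : Sep r m A B a b c α β γ τ) {v : V} (hv : v ∈ A)
    (h1 : Col r (insert a (insert b (insert c A))) (m1 m a b c α β γ))
    (h2 : Col r (insert v (insert a (insert b (insert c B)))) (m2 m a b c v α β γ τ)) :
    ∃ p q k J, Aligned r m A B a b c v α β γ τ p q k J := by
  classical
  obtain ⟨rg, ab, ac, bc, aA, bA, cA, aB, bB, cB, disj, no, ho, ea, eb, ec, er⟩ := h
  obtain ⟨p, hp, hpc⟩ := h1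
  obtain ⟨q, hq, hqc⟩ := h2
  have vB : v ∉ B := disjoint_left.1 disj hv
  have va : v ≠ a := fun h => aA (h ▸ hv)
  have vb : v ≠ b := fun h => bA (h ▸ hv)
  have vc : v ≠ c := fun h => cA (h ▸ hv)
  -- membership facts
  have a1 : a ∈ insert a (insert b (insert c A)) := by simp
  have b1 : b ∈ insert a (insert b (insert c A)) := by simp
  have c1 : c ∈ insert a (insert b (insert c A)) := by simp
  have a2 : a ∈ insert v (insert a (insert b (insert c B))) := by simp
  have b2 : b ∈ insert v (insert a (insert b (insert c B))) := by simp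
  have c2 : c ∈ insert v (insert a (insert b (insert c B))) := by simp
  have v2 : v ∈ insert v (insert a (insert b (insert c B))) := by simp
  have qne : ∀ i, ∀ x ∈ insert v (insert a (insert b (insert c B))), q i x ≠ x := fun i x hx =>
    ne_of_count hqc hx hx (m2_loop rg.loop bc va vb vc x) i
  -- partner of `v`
  have qv : ∀ i, q i v = a ∨ q i v = b ∨ q i v = c := by
    intro i
    have h3 := (hq i v v2).1
    rw [mem_S2] at h3
    rcases h3 with h3 | h3 | h3 | h3 | h3
    · exact absurd h3 (qne i v v2)
    · exact Or.inl h3
    · exact Or.inr (Or.inl h3)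
    · exact Or.inr (Or.inr h3)
    · exfalso
      refine ne_of_count hqc v2 (mem_S2.2 (Or.inr (Or.inr (Or.inr (Or.inr h3))))) (m2_v ?_ ?_ ?_) i rfl
      · intro h; exact aB (h ▸ h3)
      · intro h; exact bB (h ▸ h3)
      · intro h; exact cB (h ▸ h3)
  have qbc : ∀ i, q i b = c → q i v = a := by
    intro i hi
    have h3 := (hq i b b2).2
    rw [hi] at h3
    rcases qv i with h4 | h4 | h4
    · exact h4
    · have h5 := (hq i v v2).2
      rw [h4, hi] at h5
      exact absurd h5.symm vc
    · have h5 := (hq i v v2).2
      rw [h4, h3] at h5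
      exact absurd h5.symm vb
  -- the set of type `T` in the second colouring
  obtain ⟨J, hJ, hJc⟩ := exists_subset_card_eq (s := univ.filter fun i => q i b = c) (n := τ) (by
    rw [hqc b b2 c c2, m2_bc vb vc]; omega)
  have hJbc : ∀ i ∈ J, q i b = c := fun i hi => (mem_filter.1 (hJ hi)).2
  have hJa : ∀ i ∈ J, q i v = a := fun i hi => qbc i (hJbc i hi)
  set k1 : Fin r → V := fun i =>
    if p i b = c then a else if p i a = c then b else if p i a = b then c else v with hk1
  set k2 : Fin r → V := fun i => if i ∈ J then v else q i v with hk2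
  -- characterisation of `k1`
  have k1a : ∀ i, k1 i = a ↔ p i b = c := by
    intro i
    rw [hk1]
    simp only
    split_ifs with h3 h4 h5
    · exact ⟨fun _ => h3, fun _ => rfl⟩
    · exact ⟨fun h => absurd h.symm ab, fun h => absurd h h3⟩
    · exact ⟨fun h => absurd h.symm ac, fun h => absurd h h3⟩
    · exact ⟨fun h => absurd h va, fun h => absurd h h3⟩
  have k1b : ∀ i, k1 i = b ↔ p i a = c := by
    intro i
    rw [hk1]
    simp only
    split_ifs with h3 h4 h5
    · constructor
      · intro h; exact absurd h ab
      · intro h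
        have h6 := (hp i a a1).2
        have h7 := (hp i b b1).2
        rw [h] at h6; rw [h3] at h7
        exact h6.symm.trans h7
    · exact ⟨fun _ => h4, fun _ => rfl⟩
    · exact ⟨fun h => absurd h.symm bc, fun h => absurd h h4⟩
    · exact ⟨fun h => absurd h vb, fun h => absurd h h4⟩
  have k1c : ∀ i, k1 i = c ↔ p i a = b := by
    intro i
    rw [hk1]
    simp only
    split_ifs with h3 h4 h5
    · constructor
      · intro h; exact absurd h ac
      · intro h
        have h6 := (hp i a a1).2
        rw [h, h3] at h6
        exact h6.symm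
    · constructor
      · intro h; exact absurd h bc
      · intro h; rw [h4] at h; exact h.symm
    · exact ⟨fun _ => h5, fun _ => rfl⟩
    · exact ⟨fun h => absurd h vc, fun h => absurd h h5⟩
  have k1v : ∀ i, k1 i = a ∨ k1 i = b ∨ k1 i = c ∨ k1 i = v := by
    intro i
    rw [hk1]
    simp only
    split_ifs
    · exact Or.inl rfl
    · exact Or.inr (Or.inl rfl)
    · exact Or.inr (Or.inr (Or.inl rfl))
    · exact Or.inr (Or.inr (Or.inr rfl))
  -- characterisation of `k2`
  have k2J : ∀ i, k2 i = v ↔ i ∈ J := by
    intro i
    rw [hk2]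
    simp only
    split_ifs with h3
    · exact ⟨fun _ => h3, fun _ => rfl⟩
    · exact ⟨fun h => absurd h (qne i v v2), fun h => absurd h h3⟩
  have k2n : ∀ i, k2 i ≠ v → k2 i = q i v := by
    intro i hi
    have h3 : i ∉ J := fun h => hi ((k2J i).2 h)
    rw [hk2]
    simp only
    rw [if_neg h3]
  obtain ⟨σ, hσ⟩ := exists_perm' k2 k1 v (by
    intro w hw
    by_cases hwa : w = a
    · subst hwa
      rw [filter_congr fun i _ => k1a i, hpc b b1 c c1, m1_bc]
      have h3 : (univ.filter fun i => k2 i = w) = (univ.filter fun i => q i v = w) \ J := by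
        ext i
        simp only [mem_filter, mem_univ, true_and, mem_sdiff]
        constructor
        · intro h
          have h4 : k2 i ≠ v := by rw [h]; exact hw
          refine ⟨by rw [← k2n i h4]; exact h, fun h5 => h4 ((k2J i).2 h5)⟩
        · rintro ⟨h4, h5⟩
          rw [k2n i (fun h => h5 ((k2J i).1 h)), h4]
      rw [h3, card_sdiff_of_subset, hJc, hqc v v2 w a2, m2_va]
      · omega
      · intro i hi
        simpa using hJa i hi
    · by_cases hwb : w = b
      · subst hwb
        rw [filter_congr fun i _ => k1b i, hpc a a1 c c1, m1_ac ab ac]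
        have h3 : (univ.filter fun i => k2 i = w) = (univ.filter fun i => q i v = w) := by
          ext i
          simp only [mem_filter, mem_univ, true_and]
          constructor
          · intro h
            have h4 : k2 i ≠ v := by rw [h]; exact hw
            rw [← k2n i h4]; exact h
          · intro h4
            rw [k2n i, h4]
            intro h5
            have h6 := hJa i ((k2J i).1 h5)
            rw [h4] at h6
            exact hwa h6
        rw [h3, hqc v v2 w b2, m2_vb ab]
      · by_cases hwc : w = c
        · subst hwc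
          rw [filter_congr fun i _ => k1c i, hpc a a1 b b1, m1_ab ab ac bc]
          have h3 : (univ.filter fun i => k2 i = w) = (univ.filter fun i => q i v = w) := by
            ext i
            simp only [mem_filter, mem_univ, true_and]
            constructor
            · intro h
              have h4 : k2 i ≠ v := by rw [h]; exact hw
              rw [← k2n i h4]; exact h
            · intro h4
              rw [k2n i, h4]
              intro h5
              have h6 := hJa i ((k2J i).1 h5)
              rw [h4] at h6
              exact hwa h6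
          rw [h3, hqc v v2 w c2, m2_vc ac bc]
        · rw [filter_false_of_mem, filter_false_of_mem]
          · intro i _ h
            rcases k1v i with h3 | h3 | h3 | h3 <;> rw [h3] at h
            · exact hwa h.symm
            · exact hwb h.symm
            · exact hwc h.symm
            · exact hw h.symm
          · intro i _ h
            have h4 : k2 i ≠ v := by rw [h]; exact hw
            rw [k2n i h4] at h
            rcases qv i with h3 | h3 | h3 <;> rw [h3] at h
            · exact hwa h.symm
            · exact hwb h.symm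
            · exact hwc h.symm)
  refine ⟨fun i => p (σ i), q, k2, J, fun i => hp (σ i), ?_, hq, hqc, hJ, hJc, k2J, ?_⟩
  · intro x hx y hy
    rw [← hpc x hx y hy]
    exact card_perm σ (fun i => p i x = y)
  · intro i
    have h3 := hσ i
    rcases k1v (σ i) with h4 | h4 | h4 | h4
    · left
      rw [h3] at h4
      refine ⟨h4, (k1a _).1 (h3.trans h4), ?_⟩
      rw [← k2n i (by rw [h4]; exact va.symm), h4]
    · right; left
      rw [h3] at h4
      refine ⟨h4, (k1b _).1 (h3.trans h4), ?_⟩
      rw [← k2n i (by rw [h4]; exact vb.symm), h4]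
    · right; right; left
      rw [h3] at h4
      refine ⟨h4, (k1c _).1 (h3.trans h4), ?_⟩
      rw [← k2n i (by rw [h4]; exact vc.symm), h4]
    · right; right; right
      rw [h3] at h4
      have h5 : k1 (σ i) = v := h3.trans h4
      refine ⟨h4, ?_, ?_, ?_, hJa i ((k2J i).1 h4), hJbc i ((k2J i).1 h4)⟩
      · intro h6; rw [(k1a _).2 h6] at h5; exact va h5.symm
      · intro h6; rw [(k1b _).2 h6] at h5; exact vb h5.symm
      · intro h6; rw [(k1c _).2 h6] at h5; exact vc h5.symm

end Pool.Agent.H40.RG
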