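import Mathlib

/-!
# r-graphs: basic facts

A multigraph on a finite set `S` is given by its multiplicities `m x y`.  It is an `r`-graph if it
is `r`-regular and every odd set `X` of vertices satisfies `2 e(X) + r ≤ r |X|`, that is, at least
`r` edges leave `X`.
-/

namespace Pool.Agent.H40.RG

open Finset

variable {V : Type*} [DecidableEq V]

/-- number of ordered edges from `X` to `Y` -/
def cc (m : V → V → ℕ) (X Y : Finset V) : ℕ := ∑ x ∈ X, ∑ y ∈ Y, m x y

/-- `r`-graphs on the vertex set `S` -/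
structure IsRG (r : ℕ) (S : Finset V) (m : V → V → ℕ) : Prop where
  symm : ∀ x y, m x y = m y x
  loop : ∀ x, m x x = 0
  reg : ∀ x ∈ S, ∑ y ∈ S, m x y = r
  odd : ∀ X ⊆ S, Odd X.card → cc m X X + r ≤ r * X.card

/-- edge colourings with `r` colours of an `r`-regular multigraph, as lists of perfect matchings -/
def Col (r : ℕ) (S : Finset V) (m : V → V → ℕ) : Prop :=
  ∃ p : Fin r → V → V, (∀ i, ∀ x ∈ S, p i x ∈ S ∧ p i (p i x) = x) ∧
    ∀ x ∈ S, ∀ y ∈ S, (univ.filter fun i => p i x = y).card = m x y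

section cc

variable {m : V → V → ℕ} {S X Y Z X' : Finset V}

theorem cc_union_left (h : Disjoint X X') : cc m (X ∪ X') Y = cc m X Y + cc m X' Y := by
  unfold cc
  rw [sum_union h]

theorem cc_union_right (h : Disjoint Y Z) : cc m X (Y ∪ Z) = cc m X Y + cc m X Z := by
  unfold cc
  rw [← sum_add_distrib]
  exact sum_congr rfl fun x _ => sum_union h

omit [DecidableEq V] in
theorem cc_comm (hs : ∀ x y, m x y = m y x) : cc m X Y = cc m Y X := by
  unfold cc
  rw [sum_comm]
  exact sum_congr rfl fun x _ => sum_congr rfl fun y _ => hs y x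

omit [DecidableEq V] in
theorem cc_singleton_left (x : V) : cc m {x} Y = ∑ y ∈ Y, m x y := by
  unfold cc
  rw [sum_singleton]

omit [DecidableEq V] in
theorem cc_singleton_right (y : V) : cc m X {y} = ∑ x ∈ X, m x y := by
  unfold cc
  exact sum_congr rfl fun x _ => sum_singleton _ _

theorem cc_even (hs : ∀ x y, m x y = m y x) (hl : ∀ x, m x x = 0) : Even (cc m X X) := by
  induction X using Finset.induction_on with
  | empty => simp [cc]
  | insert a X ha ih =>
    have h1 : insert a X = {a} ∪ X := by rw [insert_eq]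
    have hd : Disjoint ({a} : Finset V) X := by simpa using ha
    rw [h1, cc_union_left hd, cc_union_right hd, cc_union_right hd, cc_comm hs (X := X) (Y := {a})]
    have h2 : cc m {a} {a} = 0 := by rw [cc_singleton_left, sum_singleton, hl]
    rw [h2]
    obtain ⟨k, hk⟩ := ih
    exact ⟨cc m {a} X + k, by omega⟩

omit [DecidableEq V] in
theorem cc_congr {m' : V → V → ℕ} (h : ∀ x ∈ X, ∀ y ∈ Y, m x y = m' x y) : cc m X Y = cc m' X Y := by
  unfold cc
  exact sum_congr rfl fun x hx => sum_congr rfl fun y hy => h x hx y hy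

omit [DecidableEq V] in
theorem cc_mono {Y' : Finset V} (h1 : X ⊆ X') (h2 : Y ⊆ Y') : cc m X Y ≤ cc m X' Y' := by
  unfold cc
  refine (sum_le_sum_of_subset h1).trans (sum_le_sum fun x _ => sum_le_sum_of_subset h2)

end cc

section reg

variable {r : ℕ} {m : V → V → ℕ} {S X : Finset V}

theorem cut_eq (reg : ∀ x ∈ S, ∑ y ∈ S, m x y = r) (hX : X ⊆ S) :
    cc m X X + cc m X (S \ X) = r * X.card := by
  rw [← cc_union_right (disjoint_sdiff), union_sdiff_of_subset hX]
  unfold cc
  rw [sum_congr rfl fun x hx => reg x (hX hx)]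
  rw [sum_const, smul_eq_mul, mul_comm]

theorem cut_compl (symm : ∀ x y, m x y = m y x) (reg : ∀ x ∈ S, ∑ y ∈ S, m x y = r)
    (hX : X ⊆ S) :
    cc m (S \ X) (S \ X) + cc m X (S \ X) = r * (S \ X).card := by
  have h := cut_eq reg (sdiff_subset (s := S) (t := X))
  rw [Finset.sdiff_sdiff_eq_self hX, cc_comm symm (X := S \ X) (Y := X)] at h
  exact h

/-- it is enough to check the odd set condition for one of `X`, `S \ X` -/
theorem isRG_of_half (symm : ∀ x y, m x y = m y x) (loop : ∀ x, m x x = 0)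
    (reg : ∀ x ∈ S, ∑ y ∈ S, m x y = r)
    (h : ∀ X ⊆ S, Odd X.card → cc m X X + r ≤ r * X.card ∨
      cc m (S \ X) (S \ X) + r ≤ r * (S \ X).card) : IsRG r S m := by
  refine ⟨symm, loop, reg, ?_⟩
  intro X hX ho
  rcases h X hX ho with h1 | h1
  · exact h1
  · have h2 := cut_eq reg hX
    have h3 := cut_compl symm reg hX
    omega

/-- it is enough to check the odd set condition for sets avoiding a vertex -/
theorem isRG_of_avoid (symm : ∀ x y, m x y = m y x) (loop : ∀ x, m x x = 0)
    (reg : ∀ x ∈ S, ∑ y ∈ S, m x y = r) (hev : Even S.card) (v : V)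
    (h : ∀ X ⊆ S, Odd X.card → v ∉ X → cc m X X + r ≤ r * X.card) : IsRG r S m := by
  apply isRG_of_half symm loop reg
  intro X hX ho
  by_cases hv : v ∈ X
  · right
    apply h _ sdiff_subset
    · rw [card_sdiff_of_subset hX]
      exact Nat.Even.sub_odd (card_le_card hX) hev ho
    · simp [hv]
  · left
    exact h X hX ho hv

end reg

namespace IsRG

variable {r : ℕ} {m : V → V → ℕ} {S X : Finset V}

theorem cut (h : IsRG r S m) (hX : X ⊆ S) : cc m X X + cc m X (S \ X) = r * X.card :=
  cut_eq h.reg hX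

theorem cut_ge (h : IsRG r S m) (hX : X ⊆ S) (ho : Odd X.card) : r ≤ cc m X (S \ X) := by
  have h1 := h.cut hX
  have h2 := h.odd X hX ho
  omega

theorem even_card (h : IsRG r S m) (hr : 0 < r) : Even S.card := by
  by_contra hn
  rw [Nat.not_even_iff_odd] at hn
  have h1 := h.cut_ge (subset_refl S) hn
  rw [sdiff_self] at h1
  simp [cc] at h1
  omega

/-- parity of cuts -/
theorem cut_parity (h : IsRG r S m) (hX : X ⊆ S) (ho : Odd X.card) :
    ∃ t, cc m X (S \ X) = r + 2 * t := by
  have h1 := h.cut hX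
  have h2 := h.odd X hX ho
  obtain ⟨k, hk⟩ := cc_even (X := X) h.symm h.loop
  obtain ⟨l, hl⟩ := ho
  rw [hl] at h1 h2
  refine ⟨r * l - k, ?_⟩
  have h3 : r * (2 * l + 1) = 2 * (r * l) + r := by ring
  rw [h3] at h1 h2
  omega

end IsRG

theorem col_zero {m : V → V → ℕ} {S : Finset V} (h : IsRG 0 S m) : Col 0 S m := by
  refine ⟨fun i => i.elim0, fun i => i.elim0, ?_⟩
  intro x hx y hy
  have h1 := h.reg x hx
  rw [sum_eq_zero_iff] at h1
  rw [h1 y hy]
  rfl

/-- two colourings of `Fin r` with the same fibre sizes agree up to a permutation -/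
theorem exists_perm {r : ℕ} {W : Type*} [DecidableEq W] (f g : Fin r → W)
    (h : ∀ w, (univ.filter fun i => f i = w).card = (univ.filter fun i => g i = w).card) :
    ∃ σ : Equiv.Perm (Fin r), ∀ i, g (σ i) = f i := by
  have h1 : ∀ w, Nonempty ({i // f i = w} ≃ {i // g i = w}) := by
    intro w
    apply Fintype.card_eq.1
    rw [Fintype.card_subtype, Fintype.card_subtype]
    exact h w
  refine ⟨Equiv.ofFiberEquiv (f := f) (g := g) (fun w => (h1 w).some), ?_⟩
  intro i
  exact Equiv.ofFiberEquiv_map _ i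

end Pool.Agent.H40.RG
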