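import Mathlib

/-!
# Capacitated bipartite degree-constrained subgraphs (from Hall's theorem)
-/

namespace Pool.Agent.H40.RG

open Finset

/-- supply and demand in a bipartite graph with capacities -/
theorem exists_flow {α β : Type*} [Fintype α] [Fintype β] [DecidableEq α] [DecidableEq β]
    (c : α → β → ℕ) (f : α → ℕ) (g : β → ℕ) (hsum : ∑ x, f x = ∑ y, g y)
    (h : ∀ (P : Finset α) (R : Finset β),
      ∑ x ∈ P, f x ≤ ∑ y ∈ R, g y + ∑ x ∈ P, ∑ y ∈ Rᶜ, c x y) :
    ∃ F : α → β → ℕ, (∀ x y, F x y ≤ c x y) ∧ (∀ x, ∑ y, F x y = f x) ∧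
      ∀ y, ∑ x, F x y = g y := by
  classical
  have hf : ∀ x, f x ≤ ∑ y, c x y := by
    intro x
    have h1 := h {x} ∅
    simpa using h1
  let ι := Σ x : α, Σ y : β, Fin (c x y)
  let σ := (Σ x : α, Fin (∑ y, c x y - f x)) ⊕ (Σ y : β, Fin (g y))
  let t : ι → Finset σ := fun e => univ.filter fun s =>
    Sum.elim (fun a => a.1 = e.1) (fun b => b.1 = e.2.1) s
  have hall : ∀ s : Finset ι, s.card ≤ (s.biUnion t).card := by
    intro s
    let P : Finset α := s.image fun e => e.1
    let R : Finset β := s.image fun e => e.2.1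
    have hs : s.card ≤ ∑ x ∈ P, ∑ y ∈ R, c x y := by
      have h1 : s ⊆ P.sigma fun x => R.sigma fun y => (univ : Finset (Fin (c x y))) := by
        intro e he
        rw [mem_sigma, mem_sigma]
        exact ⟨mem_image_of_mem _ he, mem_image_of_mem (fun e : ι => e.2.1) he, mem_univ _⟩
      refine (card_le_card h1).trans (le_of_eq ?_)
      rw [card_sigma]
      refine sum_congr rfl fun x _ => ?_
      rw [card_sigma]
      refine sum_congr rfl fun y _ => ?_
      rw [card_univ, Fintype.card_fin]
    have hN : ∑ x ∈ P, (∑ y, c x y - f x) + ∑ y ∈ R, g y ≤ (s.biUnion t).card := by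
      have h1 : (P.sigma fun x => (univ : Finset (Fin (∑ y, c x y - f x)))).disjSum
          (R.sigma fun y => (univ : Finset (Fin (g y)))) ⊆ s.biUnion t := by
        intro z hz
        rw [mem_disjSum] at hz
        rw [mem_biUnion]
        rcases hz with ⟨a, ha, rfl⟩ | ⟨b, hb, rfl⟩
        · rw [mem_sigma] at ha
          obtain ⟨e, he, hea⟩ := mem_image.1 ha.1
          refine ⟨e, he, mem_filter.2 ⟨mem_univ _, ?_⟩⟩
          exact hea.symm
        · rw [mem_sigma] at hb
          obtain ⟨e, he, heb⟩ := mem_image.1 hb.1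
          refine ⟨e, he, mem_filter.2 ⟨mem_univ _, ?_⟩⟩
          exact heb.symm
      refine le_trans (le_of_eq ?_) (card_le_card h1)
      rw [card_disjSum, card_sigma, card_sigma]
      simp
    have h3 := h P R
    have h4 : ∑ x ∈ P, (∑ y, c x y - f x) + ∑ x ∈ P, f x
        = ∑ x ∈ P, ∑ y ∈ R, c x y + ∑ x ∈ P, ∑ y ∈ Rᶜ, c x y := by
      rw [← sum_add_distrib, ← sum_add_distrib]
      refine sum_congr rfl fun x _ => ?_
      rw [sum_add_sum_compl]
      exact Nat.sub_add_cancel (hf x)
    omega
  obtain ⟨φ, hinj, hφ⟩ := (Finset.all_card_le_biUnion_card_iff_exists_injective t).1 hall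
  have hcard : Fintype.card ι = Fintype.card σ := by
    simp only [ι, σ, Fintype.card_sum, Fintype.card_sigma, Fintype.card_fin]
    have h1 : ∑ x, (∑ y, c x y - f x) + ∑ x, f x = ∑ x, ∑ y, c x y := by
      rw [← sum_add_distrib]
      exact sum_congr rfl fun x _ => Nat.sub_add_cancel (hf x)
    rw [← hsum, h1]
  have hbij : Function.Bijective φ := (Fintype.bijective_iff_injective_and_card φ).2 ⟨hinj, hcard⟩
  let e : ι ≃ σ := Equiv.ofBijective φ hbij
  have hl : ∀ (i : ι) a, φ i = Sum.inl a → a.1 = i.1 := by
    intro i a hia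
    have h1 := hφ i
    rw [hia, mem_filter] at h1
    exact h1.2
  have hr : ∀ (i : ι) b, φ i = Sum.inr b → b.1 = i.2.1 := by
    intro i b hib
    have h1 := hφ i
    rw [hib, mem_filter] at h1
    exact h1.2
  let ρ : σ → ℕ := Sum.elim (fun _ => 0) (fun _ => 1)
  let F : α → β → ℕ := fun x y => ∑ i : Fin (c x y), ρ (φ ⟨x, y, i⟩)
  refine ⟨F, ?_, ?_, ?_⟩
  · intro x y
    have h1 : ∀ s : σ, ρ s ≤ 1 := by
      rintro (a | b)
      · exact Nat.zero_le _
      · exact le_refl _
    calc F x y ≤ ∑ _i : Fin (c x y), 1 := sum_le_sum fun i _ => h1 _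
      _ = c x y := by simp
  · intro x
    have h1 : ∑ y, F x y + (∑ y, c x y - f x) = ∑ y, c x y := by
      have h2 : ∑ y, c x y = ∑ i : ι, if i.1 = x then 1 else 0 := by
        simp only [ι, Fintype.sum_sigma]
        rw [sum_eq_single x]
        · simp
        · intro b _ hb
          simp [hb]
        · intro hx
          exact absurd (mem_univ x) hx
      have h3 : ∑ y, F x y = ∑ i : ι, if i.1 = x then ρ (φ i) else 0 := by
        simp only [ι, Fintype.sum_sigma]
        rw [sum_eq_single x]
        · simp [F]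
        · intro b _ hb
          simp [hb]
        · intro hx
          exact absurd (mem_univ x) hx
      have h4 : ∑ y, c x y - f x = ∑ i : ι, if i.1 = x then 1 - ρ (φ i) else 0 := by
        have h5 : ∀ i : ι, (if i.1 = x then 1 - ρ (φ i) else 0)
            = Sum.elim (fun a : (Σ x : α, Fin (∑ y, c x y - f x)) => if a.1 = x then 1 else 0)
              (fun _ => 0) (e i) := by
          intro i
          have h6 : e i = φ i := rfl
          rw [h6]
          rcases h7 : φ i with a | b
          · have := hl i a h7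
            simp [ρ, this]
          · simp [ρ]
        rw [sum_congr rfl fun i _ => h5 i]
        rw [Equiv.sum_comp e (Sum.elim (fun a : (Σ x : α, Fin (∑ y, c x y - f x)) =>
          if a.1 = x then 1 else 0) (fun _ => 0))]
        simp only [σ, Fintype.sum_sum_type, Sum.elim_inl, Sum.elim_inr, Fintype.sum_sigma]
        rw [sum_eq_single x]
        · simp
        · intro b _ hb
          simp [hb]
        · intro hx
          exact absurd (mem_univ x) hx
      rw [h3, h4, h2, ← sum_add_distrib]
      refine sum_congr rfl fun i _ => ?_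
      by_cases hi : i.1 = x
      · rw [if_pos hi, if_pos hi, if_pos hi]
        rcases φ i with a | b
        · rfl
        · rfl
      · rw [if_neg hi, if_neg hi, if_neg hi]
    have h2 := hf x
    omega
  · intro y
    have h3 : ∑ x, F x y = ∑ i : ι, if i.2.1 = y then ρ (φ i) else 0 := by
      simp only [ι, Fintype.sum_sigma]
      refine sum_congr rfl fun x _ => ?_
      rw [sum_eq_single y]
      · simp [F]
      · intro b _ hb
        simp [hb]
      · intro hx
        exact absurd (mem_univ y) hx
    have h5 : ∀ i : ι, (if i.2.1 = y then ρ (φ i) else 0)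
        = Sum.elim (fun _ => 0) (fun b : (Σ y : β, Fin (g y)) => if b.1 = y then 1 else 0)
          (e i) := by
      intro i
      have h6 : e i = φ i := rfl
      rw [h6]
      rcases h7 : φ i with a | b
      · simp [ρ]
      · have := hr i b h7
        simp [ρ, this]
    rw [h3, sum_congr rfl fun i _ => h5 i]
    rw [Equiv.sum_comp e (Sum.elim (fun _ => 0) (fun b : (Σ y : β, Fin (g y)) =>
      if b.1 = y then 1 else 0))]
    simp only [σ, Fintype.sum_sum_type, Sum.elim_inl, Sum.elim_inr, Fintype.sum_sigma]
    rw [sum_eq_single y (f := fun x => ∑ _j : Fin (g x), if x = y then 1 else 0)]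
    · simp
    · intro b _ hb
      simp [hb]
    · intro hx
      exact absurd (mem_univ y) hx

end Pool.Agent.H40.RG
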