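import Pool.Agent.H40.RG.Align

/-!
# 3-separations of r-graphs: gluing of colourings
-/

namespace Pool.Agent.H40.RG

open Finset

variable {V : Type*} [DecidableEq V]

/-- the vertices whose partner is taken from the first colouring -/
def sA {r : ℕ} (A B : Finset V) (v : V) (k : Fin r → V) (i : Fin r) (x : V) : Prop :=
  x ∈ A ∨ k i = x ∨ (k i = v ∧ x ∉ B)

section

variable {r : ℕ} {m : V → V → ℕ} {A B : Finset V} {a b c v : V} {α β γ τ : ℕ}
  {p q : Fin r → V → V} {k : Fin r → V} {J : Finset (Fin r)}

theorem F1 (h : Sep r m A B a b c α β γ τ) (hv : v ∈ A)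
    (g : Aligned r m A B a b c v α β γ τ p q k J) (i : Fin r) {x : V}
    (hx : x ∈ insert a (insert b (insert c (A ∪ B)))) (hs : sA A B v k i x) :
    x ∈ insert a (insert b (insert c A)) ∧ p i x ∈ insert a (insert b (insert c (A ∪ B))) ∧
      sA A B v k i (p i x) := by
  obtain ⟨rg, ab, ac, bc, aA, bA, cA, aB, bB, cB, disj, no, ho, ea, eb, ec, er⟩ := h
  have va : v ≠ a := fun h => aA (h ▸ hv)
  have vb : v ≠ b := fun h => bA (h ▸ hv)
  have vc : v ≠ c := fun h => cA (h ▸ hv)
  have a1 : a ∈ insert a (insert b (insert c A)) := by simp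
  have b1 : b ∈ insert a (insert b (insert c A)) := by simp
  have c1 : c ∈ insert a (insert b (insert c A)) := by simp
  have hx1 : x ∈ insert a (insert b (insert c A)) := by
    rcases hs with h3 | h3 | ⟨h3, h4⟩
    · exact mem_S1.2 (Or.inr (Or.inr (Or.inr h3)))
    · rcases g.hcase i with h5 | h5 | h5 | h5
      · rw [← h3, h5.1]; exact a1
      · rw [← h3, h5.1]; exact b1
      · rw [← h3, h5.1]; exact c1
      · rw [← h3, h5.1]; exact mem_S1.2 (Or.inr (Or.inr (Or.inr hv)))
    · rw [mem_S] at hx
      rw [mem_S1]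
      rcases hx with hx | hx | hx | hx | hx
      · exact Or.inl hx
      · exact Or.inr (Or.inl hx)
      · exact Or.inr (Or.inr (Or.inl hx))
      · exact Or.inr (Or.inr (Or.inr hx))
      · exact absurd hx h4
  have h3 := (g.hp i x hx1).1
  have h4 := (g.hp i x hx1).2
  rw [mem_S1] at h3
  refine ⟨hx1, ?_, ?_⟩
  · rw [mem_S]
    rcases h3 with h3 | h3 | h3 | h3
    · exact Or.inl h3
    · exact Or.inr (Or.inl h3)
    · exact Or.inr (Or.inr (Or.inl h3))
    · exact Or.inr (Or.inr (Or.inr (Or.inl h3)))
  · have hpa := (g.hp i a a1).2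
    have hpb := (g.hp i b b1).2
    rcases g.hcase i with ⟨h5, h6, _⟩ | ⟨h5, h6, _⟩ | ⟨h5, h6, _⟩ | ⟨h5, _⟩
    · -- type `a`
      have hxA : x ∈ A ∨ x = a := by
        rcases hs with h7 | h7 | ⟨h7, _⟩
        · exact Or.inl h7
        · exact Or.inr (by rw [← h7, h5])
        · rw [h5] at h7; exact absurd h7.symm va
      rw [h6] at hpb
      rcases h3 with h3 | h3 | h3 | h3
      · right; left; rw [h5, h3]
      · exfalso
        rw [h3, h6] at h4
        rcases hxA with h7 | h7
        · exact cA (h4 ▸ h7)
        · exact ac (h7.symm.trans h4.symm)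
      · exfalso
        rw [h3, hpb] at h4
        rcases hxA with h7 | h7
        · exact bA (h4 ▸ h7)
        · exact ab (h7.symm.trans h4.symm)
      · left; exact h3
    · -- type `b`
      have hxA : x ∈ A ∨ x = b := by
        rcases hs with h7 | h7 | ⟨h7, _⟩
        · exact Or.inl h7
        · exact Or.inr (by rw [← h7, h5])
        · rw [h5] at h7; exact absurd h7.symm vb
      rw [h6] at hpa
      rcases h3 with h3 | h3 | h3 | h3
      · exfalso
        rw [h3, h6] at h4
        rcases hxA with h7 | h7
        · exact cA (h4 ▸ h7)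
        · exact bc (h7.symm.trans h4.symm)
      · right; left; rw [h5, h3]
      · exfalso
        rw [h3, hpa] at h4
        rcases hxA with h7 | h7
        · exact aA (h4 ▸ h7)
        · exact ab (h4.trans h7)
      · left; exact h3
    · -- type `c`
      have hxA : x ∈ A ∨ x = c := by
        rcases hs with h7 | h7 | ⟨h7, _⟩
        · exact Or.inl h7
        · exact Or.inr (by rw [← h7, h5])
        · rw [h5] at h7; exact absurd h7.symm vc
      rw [h6] at hpa
      rcases h3 with h3 | h3 | h3 | h3
      · exfalso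
        rw [h3, h6] at h4
        rcases hxA with h7 | h7
        · exact bA (h4 ▸ h7)
        · exact bc (h4.trans h7)
      · exfalso
        rw [h3, hpa] at h4
        rcases hxA with h7 | h7
        · exact aA (h4 ▸ h7)
        · exact ac (h4.trans h7)
      · right; left; rw [h5, h3]
      · left; exact h3
    · -- type `T`
      rcases h3 with h3 | h3 | h3 | h3
      · right; right; refine ⟨h5, ?_⟩; rw [h3]; exact aB
      · right; right; refine ⟨h5, ?_⟩; rw [h3]; exact bB
      · right; right; refine ⟨h5, ?_⟩; rw [h3]; exact cB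
      · left; exact h3

theorem F2 (h : Sep r m A B a b c α β γ τ) (hv : v ∈ A)
    (g : Aligned r m A B a b c v α β γ τ p q k J) (i : Fin r) {x : V}
    (hx : x ∈ insert a (insert b (insert c (A ∪ B)))) (hs : ¬ sA A B v k i x) :
    x ∈ insert v (insert a (insert b (insert c B))) ∧
      q i x ∈ insert a (insert b (insert c (A ∪ B))) ∧ ¬ sA A B v k i (q i x) := by
  obtain ⟨rg, ab, ac, bc, aA, bA, cA, aB, bB, cB, disj, no, ho, ea, eb, ec, er⟩ := h
  have va : v ≠ a := fun h => aA (h ▸ hv)
  have vb : v ≠ b := fun h => bA (h ▸ hv)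
  have vc : v ≠ c := fun h => cA (h ▸ hv)
  have b2 : b ∈ insert v (insert a (insert b (insert c B))) := by simp
  have v2 : v ∈ insert v (insert a (insert b (insert c B))) := by simp
  have hxA : x ∉ A := fun h => hs (Or.inl h)
  have hx2 : x ∈ insert v (insert a (insert b (insert c B))) := by
    rw [mem_S] at hx
    rw [mem_S2]
    rcases hx with hx | hx | hx | hx | hx
    · exact Or.inr (Or.inl hx)
    · exact Or.inr (Or.inr (Or.inl hx))
    · exact Or.inr (Or.inr (Or.inr (Or.inl hx)))
    · exact absurd hx hxA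
    · exact Or.inr (Or.inr (Or.inr (Or.inr hx)))
  have hxv : x ≠ v := fun h => hxA (h ▸ hv)
  have h3 := (g.hq i x hx2).1
  have h4 := (g.hq i x hx2).2
  have hqv := (g.hq i v v2).2
  have hqb := (g.hq i b b2).2
  rw [mem_S2] at h3
  have hk : k i ≠ x := fun h => hs (Or.inr (Or.inl h))
  have hqxv : q i x ≠ v := by
    intro h5
    rw [h5] at h4
    rcases g.hcase i with ⟨h6, _, h7⟩ | ⟨h6, _, h7⟩ | ⟨h6, _, h7⟩ | ⟨h6, _, _, _, h7, _⟩
    · rw [h7] at h4; exact hk (h6.trans h4)
    · rw [h7] at h4; exact hk (h6.trans h4)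
    · rw [h7] at h4; exact hk (h6.trans h4)
    · rw [h7] at h4
      apply hs
      right; right
      refine ⟨h6, ?_⟩
      rw [← h4]; exact aB
  refine ⟨hx2, ?_, ?_⟩
  · rw [mem_S]
    rcases h3 with h3 | h3 | h3 | h3 | h3
    · exact absurd h3 hqxv
    · exact Or.inl h3
    · exact Or.inr (Or.inl h3)
    · exact Or.inr (Or.inr (Or.inl h3))
    · exact Or.inr (Or.inr (Or.inr (Or.inr h3)))
  · rintro (h5 | h5 | ⟨h5, h6⟩)
    · -- q i x in A
      rcases h3 with h3 | h3 | h3 | h3 | h3
      · exact hqxv h3
      · exact aA (h3 ▸ h5)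
      · exact bA (h3 ▸ h5)
      · exact cA (h3 ▸ h5)
      · exact disjoint_left.1 disj h5 h3
    · -- k i = q i x
      rcases g.hcase i with ⟨h6, _, h7⟩ | ⟨h6, _, h7⟩ | ⟨h6, _, h7⟩ | ⟨h6, _⟩
      · rw [h6] at h5; rw [← h5] at h4; rw [h7, h4] at hqv; exact hxv hqv
      · rw [h6] at h5; rw [← h5] at h4; rw [h7, h4] at hqv; exact hxv hqv
      · rw [h6] at h5; rw [← h5] at h4; rw [h7, h4] at hqv; exact hxv hqv
      · rw [h6] at h5; exact hqxv h5.symm
    · -- type T, q i x not in B
      have hxB : x ∈ B := by
        by_contra h7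
        exact hs (Or.inr (Or.inr ⟨h5, h7⟩))
      rcases g.hcase i with ⟨h8, _⟩ | ⟨h8, _⟩ | ⟨h8, _⟩ | ⟨_, _, _, _, h7, h8⟩
      · rw [h8] at h5; exact va h5.symm
      · rw [h8] at h5; exact vb h5.symm
      · rw [h8] at h5; exact vc h5.symm
      · rcases h3 with h3 | h3 | h3 | h3 | h3
        · exact hqxv h3
        · rw [h3] at h4
          rw [h7, h4] at hqv
          exact hxv hqv
        · rw [h3, h8] at h4
          exact cB (h4 ▸ hxB)
        · rw [h8] at hqb
          rw [h3, hqb] at h4
          exact bB (h4 ▸ hxB)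
        · exact h6 h3

end

open Classical in
/-- the glued matchings -/
noncomputable def gl {r : ℕ} (A B : Finset V) (v : V) (p q : Fin r → V → V) (k : Fin r → V) :
    Fin r → V → V := fun i x => if sA A B v k i x then p i x else q i x

section

variable {r : ℕ} {m : V → V → ℕ} {A B : Finset V} {a b c v : V} {α β γ τ : ℕ}
  {p q : Fin r → V → V} {k : Fin r → V} {J : Finset (Fin r)}

omit [DecidableEq V] in
theorem gl_t {i : Fin r} {x : V} (hx : sA A B v k i x) : gl A B v p q k i x = p i x := by
  unfold gl; rw [if_pos hx]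

omit [DecidableEq V] in
theorem gl_f {i : Fin r} {x : V} (hx : ¬ sA A B v k i x) : gl A B v p q k i x = q i x := by
  unfold gl; rw [if_neg hx]

theorem gl_inv (h : Sep r m A B a b c α β γ τ) (hv : v ∈ A)
    (g : Aligned r m A B a b c v α β γ τ p q k J) (i : Fin r) {x : V}
    (hx : x ∈ insert a (insert b (insert c (A ∪ B)))) :
    gl A B v p q k i x ∈ insert a (insert b (insert c (A ∪ B))) ∧
      gl A B v p q k i (gl A B v p q k i x) = x := by
  by_cases hs : sA A B v k i x
  · obtain ⟨h3, h4, h5⟩ := F1 h hv g i hx hs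
    rw [gl_t hs, gl_t h5]
    exact ⟨h4, (g.hp i x h3).2⟩
  · obtain ⟨h3, h4, h5⟩ := F2 h hv g i hx hs
    rw [gl_f hs, gl_f h5]
    exact ⟨h4, (g.hq i x h3).2⟩

theorem gl_swap (h : Sep r m A B a b c α β γ τ) (hv : v ∈ A)
    (g : Aligned r m A B a b c v α β γ τ p q k J) {x y : V}
    (hx : x ∈ insert a (insert b (insert c (A ∪ B))))
    (hy : y ∈ insert a (insert b (insert c (A ∪ B))))
    (he : (univ.filter fun i => gl A B v p q k i x = y).card = m x y) :
    (univ.filter fun i => gl A B v p q k i y = x).card = m y x := by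
  rw [h.rg.symm y x, ← he]
  congr 1
  ext i
  simp only [mem_filter, mem_univ, true_and]
  constructor
  · intro h3; rw [← h3]; exact (gl_inv h hv g i hy).2
  · intro h3; rw [← h3]; exact (gl_inv h hv g i hx).2

theorem gl_A (h : Sep r m A B a b c α β γ τ)
    (g : Aligned r m A B a b c v α β γ τ p q k J) {x y : V} (hx : x ∈ A)
    (hy : y ∈ insert a (insert b (insert c (A ∪ B)))) :
    (univ.filter fun i => gl A B v p q k i x = y).card = m x y := by
  obtain ⟨rg, ab, ac, bc, aA, bA, cA, aB, bB, cB, disj, no, ho, ea, eb, ec, er⟩ := h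
  have x1 : x ∈ insert a (insert b (insert c A)) := mem_S1.2 (Or.inr (Or.inr (Or.inr hx)))
  have h0 : (univ.filter fun i => gl A B v p q k i x = y) = (univ.filter fun i => p i x = y) :=
    filter_congr fun i _ => by rw [gl_t (Or.inl hx)]
  rw [h0]
  have hxn : ¬ (x = b ∨ x = c ∨ x = a) := by
    rintro (h | h | h)
    · exact bA (h ▸ hx)
    · exact cA (h ▸ hx)
    · exact aA (h ▸ hx)
  have main : y ∈ insert a (insert b (insert c A)) →
      (univ.filter fun i => p i x = y).card = m x y := by
    intro h1
    rw [g.hpc x x1 y h1]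
    exact m1_left hxn
  rw [mem_S] at hy
  rcases hy with hy | hy | hy | hy | hy
  · exact main (mem_S1.2 (Or.inl hy))
  · exact main (mem_S1.2 (Or.inr (Or.inl hy)))
  · exact main (mem_S1.2 (Or.inr (Or.inr (Or.inl hy))))
  · exact main (mem_S1.2 (Or.inr (Or.inr (Or.inr hy))))
  · rw [no x hx y hy, card_eq_zero, filter_eq_empty_iff]
    intro i _ h3
    have h4 := (g.hp i x x1).1
    rw [h3, mem_S1] at h4
    rcases h4 with h4 | h4 | h4 | h4
    · exact aB (h4 ▸ hy)
    · exact bB (h4 ▸ hy)
    · exact cB (h4 ▸ hy)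
    · exact disjoint_left.1 disj h4 hy

theorem gl_B (h : Sep r m A B a b c α β γ τ) (hv : v ∈ A)
    (g : Aligned r m A B a b c v α β γ τ p q k J) {x y : V} (hx : x ∈ B)
    (hy : y ∈ insert a (insert b (insert c (A ∪ B)))) :
    (univ.filter fun i => gl A B v p q k i x = y).card = m x y := by
  have h' := h
  obtain ⟨rg, ab, ac, bc, aA, bA, cA, aB, bB, cB, disj, no, ho, ea, eb, ec, er⟩ := h
  have x2 : x ∈ insert v (insert a (insert b (insert c B))) :=
    mem_S2.2 (Or.inr (Or.inr (Or.inr (Or.inr hx))))
  have xS : x ∈ insert a (insert b (insert c (A ∪ B))) :=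
    mem_S.2 (Or.inr (Or.inr (Or.inr (Or.inr hx))))
  have hxA : x ∉ A := disjoint_right.1 disj hx
  have hxv : x ≠ v := fun h => hxA (h ▸ hv)
  have hxa : x ≠ a := fun h => aB (h ▸ hx)
  have hxb : x ≠ b := fun h => bB (h ▸ hx)
  have hxc : x ≠ c := fun h => cB (h ▸ hx)
  have hns : ∀ i, ¬ sA A B v k i x := by
    rintro i (h3 | h3 | ⟨_, h3⟩)
    · exact hxA h3
    · rcases g.hcase i with h4 | h4 | h4 | h4 <;> rw [h4.1] at h3
      · exact hxa h3.symm
      · exact hxb h3.symm
      · exact hxc h3.symm
      · exact hxv h3.symm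
    · exact h3 hx
  have h0 : (univ.filter fun i => gl A B v p q k i x = y) = (univ.filter fun i => q i x = y) :=
    filter_congr fun i _ => by rw [gl_f (hns i)]
  rw [h0]
  have main : y ≠ v → y ∈ insert v (insert a (insert b (insert c B))) →
      (univ.filter fun i => q i x = y).card = m x y := by
    intro hyv h1
    rw [g.hqc x x2 y h1]
    apply m2_of hxv hyv
    rintro (⟨h, _⟩ | ⟨h, _⟩)
    · exact hxb h
    · exact hxc h
  rw [mem_S] at hy
  rcases hy with hy | hy | hy | hy | hy
  · exact main (fun h => aA (by rw [← hy, h]; exact hv)) (mem_S2.2 (Or.inr (Or.inl hy)))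
  · exact main (fun h => bA (by rw [← hy, h]; exact hv)) (mem_S2.2 (Or.inr (Or.inr (Or.inl hy))))
  · exact main (fun h => cA (by rw [← hy, h]; exact hv))
      (mem_S2.2 (Or.inr (Or.inr (Or.inr (Or.inl hy)))))
  · rw [rg.symm x y, no y hy x hx, card_eq_zero, filter_eq_empty_iff]
    intro i _ h3
    have h4 := (F2 h' hv g i xS (hns i)).2.2
    rw [h3] at h4
    exact h4 (Or.inl hy)
  · exact main (fun h => disjoint_left.1 disj (h ▸ hv) hy)
      (mem_S2.2 (Or.inr (Or.inr (Or.inr (Or.inr hy)))))

theorem gl_bc (h : Sep r m A B a b c α β γ τ) (hv : v ∈ A)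
    (g : Aligned r m A B a b c v α β γ τ p q k J) :
    (univ.filter fun i => gl A B v p q k i b = c).card = m b c := by
  obtain ⟨rg, ab, ac, bc, aA, bA, cA, aB, bB, cB, disj, no, ho, ea, eb, ec, er⟩ := h
  have va : v ≠ a := fun h => aA (h ▸ hv)
  have vb : v ≠ b := fun h => bA (h ▸ hv)
  have vc : v ≠ c := fun h => cA (h ▸ hv)
  have b1 : b ∈ insert a (insert b (insert c A)) := by simp
  have a1 : a ∈ insert a (insert b (insert c A)) := by simp
  have b2 : b ∈ insert v (insert a (insert b (insert c B))) := by simp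
  have c2 : c ∈ insert v (insert a (insert b (insert c B))) := by simp
  have v2 : v ∈ insert v (insert a (insert b (insert c B))) := by simp
  have h3 : (univ.filter fun i => gl A B v p q k i b = c) = (univ.filter fun i => q i b = c) \ J := by
    ext i
    simp only [mem_filter, mem_univ, true_and, mem_sdiff]
    constructor
    · intro h4
      by_cases hs : sA A B v k i b
      · exfalso
        rw [gl_t hs] at h4
        have h5 : k i = a := by
          rcases g.hcase i with h6 | h6 | h6 | h6
          · exact h6.1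
          · exfalso
            have h7 := (g.hp i a a1).2
            have h8 := (g.hp i b b1).2
            rw [h4] at h8; rw [h6.2.1, h8] at h7
            exact ab h7.symm
          · exfalso
            have h7 := (g.hp i a a1).2
            rw [h6.2.1, h4] at h7
            exact ac h7.symm
          · exact absurd h4 h6.2.1
        rcases hs with h6 | h6 | ⟨h6, _⟩
        · exact bA h6
        · exact ab (h5.symm.trans h6)
        · exact va (h6.symm.trans h5)
      · rw [gl_f hs] at h4
        refine ⟨h4, ?_⟩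
        intro h5
        exact hs (Or.inr (Or.inr ⟨(g.hk i).2 h5, bB⟩))
    · rintro ⟨h4, h5⟩
      have h6 : k i ≠ v := fun h => h5 ((g.hk i).1 h)
      have h7 : k i = a := by
        rcases g.hcase i with h7 | h7 | h7 | h7
        · exact h7.1
        · exfalso
          have h8 := (g.hq i v v2).2
          rw [h7.2.2, h4] at h8
          exact vc h8.symm
        · exfalso
          have h8 := (g.hq i v v2).2
          have h9 := (g.hq i b b2).2
          rw [h4] at h9
          rw [h7.2.2, h9] at h8
          exact vb h8.symm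
        · exact absurd h7.1 h6
      rw [gl_f]
      · exact h4
      · rintro (h8 | h8 | ⟨h8, _⟩)
        · exact bA h8
        · exact ab (h7.symm.trans h8)
        · exact h6 h8
  rw [h3, card_sdiff_of_subset g.hJ, g.hJc, g.hqc b b2 c c2, m2_bc vb vc]
  omega

theorem gl_ab (h : Sep r m A B a b c α β γ τ) (hv : v ∈ A)
    (g : Aligned r m A B a b c v α β γ τ p q k J) :
    (univ.filter fun i => gl A B v p q k i a = b).card = m a b := by
  obtain ⟨rg, ab, ac, bc, aA, bA, cA, aB, bB, cB, disj, no, ho, ea, eb, ec, er⟩ := h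
  have va : v ≠ a := fun h => aA (h ▸ hv)
  have vb : v ≠ b := fun h => bA (h ▸ hv)
  have vc : v ≠ c := fun h => cA (h ▸ hv)
  have b1 : b ∈ insert a (insert b (insert c A)) := by simp
  have a1 : a ∈ insert a (insert b (insert c A)) := by simp
  have a2 : a ∈ insert v (insert a (insert b (insert c B))) := by simp
  have b2 : b ∈ insert v (insert a (insert b (insert c B))) := by simp
  have v2 : v ∈ insert v (insert a (insert b (insert c B))) := by simp
  have h3 : (univ.filter fun i => gl A B v p q k i a = b) = (univ.filter fun i => q i a = b) := by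
    ext i
    simp only [mem_filter, mem_univ, true_and]
    constructor
    · intro h4
      by_cases hs : sA A B v k i a
      · exfalso
        rw [gl_t hs] at h4
        have h5 : k i = c := by
          rcases g.hcase i with h6 | h6 | h6 | h6
          · exfalso
            have h7 := (g.hp i a a1).2
            rw [h4, h6.2.1] at h7
            exact ac h7.symm
          · exfalso
            rw [h6.2.1] at h4
            exact bc h4.symm
          · exact h6.1
          · exact absurd h4 h6.2.2.2.1
        rcases hs with h6 | h6 | ⟨h6, _⟩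
        · exact aA h6
        · exact ac (h6.symm.trans h5)
        · exact vc (h6.symm.trans h5)
      · rwa [gl_f hs] at h4
    · intro h4
      have h5 := (g.hq i a a2).2
      rw [h4] at h5
      have h6 : k i ≠ v := by
        intro h7
        have h8 := (mem_filter.1 (g.hJ ((g.hk i).1 h7))).2
        rw [h8] at h5
        exact ac h5.symm
      have h7 : k i ≠ a := by
        intro h8
        have h9 := (g.hq i v v2).2
        rcases g.hcase i with h10 | h10 | h10 | h10
        · rw [h10.2.2, h4] at h9; exact vb h9.symm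
        · rw [h10.1] at h8; exact ab h8.symm
        · rw [h10.1] at h8; exact ac h8.symm
        · exact h6 h10.1
      rw [gl_f]
      · exact h4
      · rintro (h8 | h8 | ⟨h8, _⟩)
        · exact aA h8
        · exact h7 h8
        · exact h6 h8
  rw [h3, g.hqc a a2 b b2]
  apply m2_of va.symm vb.symm
  rintro (⟨h4, _⟩ | ⟨h4, _⟩)
  · exact ab h4
  · exact ac h4

theorem gl_ac (h : Sep r m A B a b c α β γ τ) (hv : v ∈ A)
    (g : Aligned r m A B a b c v α β γ τ p q k J) :
    (univ.filter fun i => gl A B v p q k i a = c).card = m a c := by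
  obtain ⟨rg, ab, ac, bc, aA, bA, cA, aB, bB, cB, disj, no, ho, ea, eb, ec, er⟩ := h
  have va : v ≠ a := fun h => aA (h ▸ hv)
  have vb : v ≠ b := fun h => bA (h ▸ hv)
  have vc : v ≠ c := fun h => cA (h ▸ hv)
  have b1 : b ∈ insert a (insert b (insert c A)) := by simp
  have a1 : a ∈ insert a (insert b (insert c A)) := by simp
  have a2 : a ∈ insert v (insert a (insert b (insert c B))) := by simp
  have b2 : b ∈ insert v (insert a (insert b (insert c B))) := by simp
  have c2 : c ∈ insert v (insert a (insert b (insert c B))) := by simp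
  have v2 : v ∈ insert v (insert a (insert b (insert c B))) := by simp
  have h3 : (univ.filter fun i => gl A B v p q k i a = c) = (univ.filter fun i => q i a = c) := by
    ext i
    simp only [mem_filter, mem_univ, true_and]
    constructor
    · intro h4
      by_cases hs : sA A B v k i a
      · exfalso
        rw [gl_t hs] at h4
        have h5 : k i = b := by
          rcases g.hcase i with h6 | h6 | h6 | h6
          · exfalso
            have h7 := (g.hp i a a1).2
            have h8 := (g.hp i b b1).2
            rw [h6.2.1] at h8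
            rw [h4, h8] at h7
            exact ab h7.symm
          · exact h6.1
          · exfalso
            rw [h6.2.1] at h4
            exact bc h4
          · exact absurd h4 h6.2.2.1
        rcases hs with h6 | h6 | ⟨h6, _⟩
        · exact aA h6
        · exact ab (h6.symm.trans h5)
        · exact vb (h6.symm.trans h5)
      · rwa [gl_f hs] at h4
    · intro h4
      have h5 := (g.hq i a a2).2
      rw [h4] at h5
      have h6 : k i ≠ v := by
        intro h7
        have h8 := (mem_filter.1 (g.hJ ((g.hk i).1 h7))).2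
        have h9 := (g.hq i b b2).2
        rw [h8, h5] at h9
        exact ab h9
      have h7 : k i ≠ a := by
        intro h8
        have h9 := (g.hq i v v2).2
        rcases g.hcase i with h10 | h10 | h10 | h10
        · rw [h10.2.2, h4] at h9; exact vc h9.symm
        · rw [h10.1] at h8; exact ab h8.symm
        · rw [h10.1] at h8; exact ac h8.symm
        · exact h6 h10.1
      rw [gl_f]
      · exact h4
      · rintro (h8 | h8 | ⟨h8, _⟩)
        · exact aA h8
        · exact h7 h8
        · exact h6 h8
  rw [h3, g.hqc a a2 c c2]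
  apply m2_of va.symm vc.symm
  rintro (⟨h4, _⟩ | ⟨h4, _⟩)
  · exact ab h4
  · exact ac h4

theorem gl_self (h : Sep r m A B a b c α β γ τ) (hv : v ∈ A)
    (g : Aligned r m A B a b c v α β γ τ p q k J) {x : V}
    (hx : x ∈ insert a (insert b (insert c (A ∪ B)))) :
    (univ.filter fun i => gl A B v p q k i x = x).card = m x x := by
  have va : v ≠ a := fun e => h.aA (e ▸ hv)
  have vb : v ≠ b := fun e => h.bA (e ▸ hv)
  have vc : v ≠ c := fun e => h.cA (e ▸ hv)
  rw [h.rg.loop, card_eq_zero, filter_eq_empty_iff]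
  intro i _ h3
  by_cases hs : sA A B v k i x
  · rw [gl_t hs] at h3
    have x1 := (F1 h hv g i hx hs).1
    exact ne_of_count g.hpc x1 x1 (m1_loop h.rg.loop h.ab h.ac h.bc x) i h3
  · rw [gl_f hs] at h3
    have x2 := (F2 h hv g i hx hs).1
    exact ne_of_count g.hqc x2 x2 (m2_loop h.rg.loop h.bc va vb vc x) i h3

end

theorem Sep.glue {r : ℕ} {m : V → V → ℕ} {A B : Finset V} {a b c : V} {α β γ τ : ℕ}
    (h : Sep r m A B a b c α β γ τ) {v : V} (hv : v ∈ A)
    (h1 : Col r (insert a (insert b (insert c A))) (m1 m a b c α β γ))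
    (h2 : Col r (insert v (insert a (insert b (insert c B)))) (m2 m a b c v α β γ τ)) :
    Col r (insert a (insert b (insert c (A ∪ B)))) m := by
  obtain ⟨p, q, k, J, g⟩ := h.align hv h1 h2
  have aS : a ∈ insert a (insert b (insert c (A ∪ B))) := by simp
  have bS : b ∈ insert a (insert b (insert c (A ∪ B))) := by simp
  have cS : c ∈ insert a (insert b (insert c (A ∪ B))) := by simp
  refine ⟨gl A B v p q k, fun i x hx => gl_inv h hv g i hx, ?_⟩
  intro x hx y hy
  have hx' := mem_S.1 hx
  have hy' := mem_S.1 hy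
  rcases hx' with hxa | hxb | hxc | hxA | hxB
  · rcases hy' with hya | hyb | hyc | hyA | hyB
    · rw [hxa, hya]; exact gl_self h hv g aS
    · rw [hxa, hyb]; exact gl_ab h hv g
    · rw [hxa, hyc]; exact gl_ac h hv g
    · exact gl_swap h hv g hy hx (gl_A h g hyA hx)
    · exact gl_swap h hv g hy hx (gl_B h hv g hyB hx)
  · rcases hy' with hya | hyb | hyc | hyA | hyB
    · rw [hxb, hya]; exact gl_swap h hv g aS bS (gl_ab h hv g)
    · rw [hxb, hyb]; exact gl_self h hv g bS
    · rw [hxb, hyc]; exact gl_bc h hv g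
    · exact gl_swap h hv g hy hx (gl_A h g hyA hx)
    · exact gl_swap h hv g hy hx (gl_B h hv g hyB hx)
  · rcases hy' with hya | hyb | hyc | hyA | hyB
    · rw [hxc, hya]; exact gl_swap h hv g aS cS (gl_ac h hv g)
    · rw [hxc, hyb]; exact gl_swap h hv g bS cS (gl_bc h hv g)
    · rw [hxc, hyc]; exact gl_self h hv g cS
    · exact gl_swap h hv g hy hx (gl_A h g hyA hx)
    · exact gl_swap h hv g hy hx (gl_B h hv g hyB hx)
  · exact gl_A h g hxA hy
  · exact gl_B h hv g hxB hy

end Pool.Agent.H40.RG
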