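import Pool.Agent.H40.RG.Basic

/-!
# Elimination orders of width three and 3-separations
-/

namespace Pool.Agent.H40.RG

open Finset

variable {V : Type*} [DecidableEq V]

/-- `o` is an elimination order of the graph on `S` with the sets `N x` of later neighbours:
they are cliques with at most three vertices -/
structure Elim (S : Finset V) (N : V → Finset V) (o : V → ℕ) : Prop where
  inj : ∀ x ∈ S, ∀ y ∈ S, o x = o y → x = y
  lt : ∀ x ∈ S, ∀ y ∈ N x, y ∈ S ∧ o x < o y
  clique : ∀ x ∈ S, ∀ y ∈ N x, ∀ z ∈ N x, o y < o z → z ∈ N y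
  card : ∀ x ∈ S, (N x).card ≤ 3

/-- later vertices -/
def later (S : Finset V) (o : V → ℕ) (x : V) : Finset V := S.filter fun y => o x < o y

/-- the sets of later neighbours are as large as possible -/
def Exact (S : Finset V) (N : V → Finset V) (o : V → ℕ) : Prop :=
  ∀ x ∈ S, (N x).card = min 3 (later S o x).card

theorem Elim.restrict {S S' : Finset V} {N : V → Finset V} {o : V → ℕ} (h : Elim S N o)
    (hs : S' ⊆ S) : Elim S' (fun x => N x ∩ S') o := by
  refine ⟨fun x hx y hy => h.inj x (hs hx) y (hs hy), ?_, ?_, ?_⟩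
  · intro x hx y hy
    rw [mem_inter] at hy
    exact ⟨hy.2, (h.lt x (hs hx) y hy.1).2⟩
  · intro x hx y hy z hz hyz
    rw [mem_inter] at *
    exact ⟨h.clique x (hs hx) y hy.1 z hz.1 hyz, hz.2⟩
  · intro x hx
    exact (card_le_card inter_subset_left).trans (h.card x (hs hx))

omit [DecidableEq V] in
theorem Elim.subset_later {S : Finset V} {N : V → Finset V} {o : V → ℕ} (h : Elim S N o) {x : V}
    (hx : x ∈ S) : N x ⊆ later S o x := by
  intro y hy
  exact mem_filter.2 (h.lt x hx y hy)

omit [DecidableEq V] in
theorem Exact.eq_later {S : Finset V} {N : V → Finset V} {o : V → ℕ} (h : Elim S N o)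
    (he : Exact S N o) {x : V} (hx : x ∈ S) (hl : (later S o x).card ≤ 3) : N x = later S o x := by
  apply eq_of_subset_of_card_le (h.subset_later hx)
  rw [he x hx]
  omega

/-- the last vertices form a clique -/
theorem exists_upper {S : Finset V} {N : V → Finset V} {o : V → ℕ} (h : Elim S N o)
    (he : Exact S N o) (j : ℕ) (hj : j ≤ 3) (hjS : j ≤ S.card) :
    ∃ U ⊆ S, U.card = j ∧ (∀ y ∈ U, ∀ z ∈ S, o y < o z → z ∈ U) ∧
      (∀ y ∈ U, ∀ z ∈ U, o y < o z → z ∈ N y) := by
  induction j with
  | zero =>
    refine ⟨∅, empty_subset _, rfl, ?_, ?_⟩ <;> simp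
  | succ j ih =>
    obtain ⟨U, hUS, hUc, hUu, hUq⟩ := ih (by omega) (by omega)
    have hne : (S \ U).Nonempty := by
      rw [← card_pos, card_sdiff_of_subset hUS]
      omega
    obtain ⟨w, hw, hmax⟩ := exists_max_image (S \ U) o hne
    rw [mem_sdiff] at hw
    have hlw : later S o w = U := by
      ext z
      rw [later, mem_filter]
      constructor
      · rintro ⟨hz, hwz⟩
        by_contra hzU
        have := hmax z (mem_sdiff.2 ⟨hz, hzU⟩)
        omega
      · intro hz
        refine ⟨hUS hz, ?_⟩
        by_contra hle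
        have hne' : o z ≠ o w := fun e => hw.2 (h.inj z (hUS hz) w hw.1 e ▸ hz)
        exact hw.2 (hUu z hz w hw.1 (by omega))
    have hNw : N w = U := by
      rw [he.eq_later h hw.1 (by rw [hlw]; omega), hlw]
    refine ⟨insert w U, ?_, ?_, ?_, ?_⟩
    · exact insert_subset hw.1 hUS
    · rw [card_insert_of_notMem hw.2, hUc]
    · intro y hy z hz hyz
      rcases mem_insert.1 hy with rfl | hy
      · apply mem_insert_of_mem
        rw [← hlw]
        exact mem_filter.2 ⟨hz, hyz⟩
      · exact mem_insert_of_mem (hUu y hy z hz hyz)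
    · intro y hy z hz hyz
      rcases mem_insert.1 hy with hy1 | hy1
      · rw [hy1, hNw]
        rcases mem_insert.1 hz with hz1 | hz1
        · rw [hy1, hz1] at hyz; omega
        · exact hz1
      · rcases mem_insert.1 hz with hz1 | hz1
        · exact absurd (hUu y hy1 w hw.1 (by rw [← hz1]; exact hyz)) hw.2
        · exact hUq y hy1 z hz1 hyz

/-- cliques extend to triangles -/
theorem exists_triangle {S : Finset V} {N : V → Finset V} {o : V → ℕ} (h : Elim S N o)
    (he : Exact S N o) (hS : 3 ≤ S.card) {K : Finset V} (hK : K ⊆ S) (hKc : K.card ≤ 3)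
    (hKq : ∀ y ∈ K, ∀ z ∈ K, o y < o z → z ∈ N y) :
    ∃ Q ⊆ S, K ⊆ Q ∧ Q.card = 3 ∧ ∀ y ∈ Q, ∀ z ∈ Q, o y < o z → z ∈ N y := by
  obtain ⟨L, hLS, hLc, hLu, hLq⟩ := exists_upper h he 3 le_rfl hS
  rcases K.eq_empty_or_nonempty with rfl | hne
  · exact ⟨L, hLS, empty_subset _, hLc, hLq⟩
  · obtain ⟨x, hx, hmin⟩ := exists_min_image K o hne
    have hsub : K.erase x ⊆ N x := by
      intro z hz
      rw [mem_erase] at hz
      have h1 := hmin z hz.2
      have h2 : o x ≠ o z := fun e => hz.1 (h.inj x (hK hx) z (hK hz.2) e).symm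
      exact hKq x hx z hz.2 (by omega)
    by_cases hl : 3 ≤ (later S o x).card
    · have hN : (N x).card = 3 := by rw [he x (hK hx)]; omega
      have hxN : x ∉ N x := fun hh => lt_irrefl _ (h.lt x (hK hx) x hh).2
      obtain ⟨P, hP1, hP2, hPc⟩ := exists_subsuperset_card_eq hsub
        (show (K.erase x).card ≤ 2 by rw [card_erase_of_mem hx]; omega) (by omega)
      refine ⟨insert x P, ?_, ?_, ?_, ?_⟩
      · apply insert_subset (hK hx)
        intro y hy
        exact (h.lt x (hK hx) y (hP2 hy)).1
      · intro y hy
        by_cases hyx : y = x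
        · rw [hyx]; exact mem_insert_self _ _
        · exact mem_insert_of_mem (hP1 (mem_erase.2 ⟨hyx, hy⟩))
      · rw [card_insert_of_notMem (fun hh => hxN (hP2 hh)), hPc]
      · intro y hy z hz hyz
        rcases mem_insert.1 hy with hy1 | hy1
        · rcases mem_insert.1 hz with hz1 | hz1
          · rw [hy1, hz1] at hyz; omega
          · rw [hy1]; exact hP2 hz1
        · rcases mem_insert.1 hz with hz1 | hz1
          · have := (h.lt x (hK hx) y (hP2 hy1)).2
            rw [hz1] at hyz
            omega
          · exact h.clique x (hK hx) y (hP2 hy1) z (hP2 hz1) hyz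
    · refine ⟨L, hLS, ?_, hLc, hLq⟩
      have hxL : x ∈ L := by
        by_contra hxL
        apply hl
        rw [← hLc]
        apply card_le_card
        intro y hy
        rw [later, mem_filter]
        refine ⟨hLS hy, ?_⟩
        by_contra hle
        have hne' : o y ≠ o x := fun e => hxL (h.inj y (hLS hy) x (hK hx) e ▸ hy)
        exact hxL (hLu y hy x (hK hx) (by omega))
      intro y hy
      by_cases hyx : y = x
      · rw [hyx]; exact hxL
      · have h1 := hmin y hy
        have h2 : o x ≠ o y := fun e => hyx (h.inj x (hK hx) y (hK hy) e).symm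
        exact hLu x hxL y (hK hy) (by omega)

/-- enlarging the sets of later neighbours -/
theorem exactify : ∀ n, ∀ (S : Finset V) (N : V → Finset V) (o : V → ℕ), S.card = n → Elim S N o →
    ∃ N', Elim S N' o ∧ Exact S N' o ∧ ∀ x ∈ S, N x ⊆ N' x := by
  intro n
  induction n with
  | zero =>
    intro S N o hS h
    rw [card_eq_zero] at hS
    subst hS
    refine ⟨N, h, ?_, ?_⟩
    · intro x hx; simp at hx
    · intro x hx; simp at hx
  | succ n ih =>
    intro S N o hS h
    have hne : S.Nonempty := by rw [← card_pos]; omega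
    obtain ⟨w, hw, hmin⟩ := exists_min_image S o hne
    have hmin' : ∀ y ∈ S.erase w, o w < o y := by
      intro y hy
      rw [mem_erase] at hy
      have h1 := hmin y hy.2
      have h2 : o w ≠ o y := fun e => hy.1 (h.inj w hw y hy.2 e).symm
      omega
    have hcard : (S.erase w).card = n := by rw [card_erase_of_mem hw]; omega
    obtain ⟨N1, h1, he1, hsub1⟩ := ih (S.erase w) _ o hcard (h.restrict (erase_subset w S))
    have hNw : N w ⊆ S.erase w := by
      intro y hy
      have := h.lt w hw y hy
      rw [mem_erase]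
      refine ⟨?_, this.1⟩
      rintro rfl
      omega
    have hNN : ∀ x ∈ S.erase w, N x ⊆ N1 x := by
      intro x hx y hy
      apply hsub1 x hx
      rw [mem_inter]
      refine ⟨hy, ?_⟩
      have h2 := h.lt x (mem_of_mem_erase hx) y hy
      rw [mem_erase]
      refine ⟨?_, h2.1⟩
      rintro rfl
      have := hmin x (mem_of_mem_erase hx)
      omega
    have hlw : later S o w = S.erase w := by
      ext y
      rw [later, mem_filter]
      constructor
      · rintro ⟨hy, hwy⟩
        rw [mem_erase]
        refine ⟨?_, hy⟩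
        rintro rfl
        omega
      · intro hy
        exact ⟨mem_of_mem_erase hy, hmin' y hy⟩
    have hlx : ∀ x ∈ S.erase w, later S o x = later (S.erase w) o x := by
      intro x hx
      ext y
      rw [later, later, mem_filter, mem_filter, mem_erase]
      constructor
      · rintro ⟨hy, hxy⟩
        refine ⟨⟨?_, hy⟩, hxy⟩
        rintro rfl
        have := hmin' x hx
        omega
      · rintro ⟨⟨_, hy⟩, hxy⟩
        exact ⟨hy, hxy⟩
    have hQ : ∃ Q ⊆ S.erase w, N w ⊆ Q ∧ Q.card = min 3 (S.erase w).card ∧
        ∀ y ∈ Q, ∀ z ∈ Q, o y < o z → z ∈ N1 y := by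
      by_cases h3 : 3 ≤ (S.erase w).card
      · obtain ⟨Q, hQ1, hQ2, hQ3, hQ4⟩ := exists_triangle h1 he1 h3 hNw (h.card w hw) (by
          intro y hy z hz hyz
          exact hNN y (hNw hy) (h.clique w hw y hy z hz hyz))
        exact ⟨Q, hQ1, hQ2, by rw [hQ3]; omega, hQ4⟩
      · refine ⟨S.erase w, subset_refl _, hNw, by omega, ?_⟩
        intro y hy z hz hyz
        have h4 : (later (S.erase w) o y).card ≤ 3 := by
          have := card_filter_le (S.erase w) fun z => o y < o z
          unfold later
          omega
        rw [he1.eq_later h1 hy h4]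
        exact mem_filter.2 ⟨hz, hyz⟩
    obtain ⟨Q, hQ1, hQ2, hQ3, hQ4⟩ := hQ
    have hupw : Function.update N1 w Q w = Q := Function.update_self _ _ _
    have hupx : ∀ x ∈ S.erase w, Function.update N1 w Q x = N1 x := fun x hx =>
      Function.update_of_ne (ne_of_mem_erase hx) _ _
    have hcases : ∀ x ∈ S, x = w ∨ x ∈ S.erase w := by
      intro x hx
      by_cases hxw : x = w
      · exact Or.inl hxw
      · exact Or.inr (mem_erase.2 ⟨hxw, hx⟩)
    refine ⟨Function.update N1 w Q, ⟨h.inj, ?_, ?_, ?_⟩, ?_, ?_⟩
    · intro x hx y hy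
      rcases hcases x hx with rfl | hx'
      · rw [hupw] at hy
        exact ⟨mem_of_mem_erase (hQ1 hy), hmin' y (hQ1 hy)⟩
      · rw [hupx x hx'] at hy
        have := h1.lt x hx' y hy
        exact ⟨mem_of_mem_erase this.1, this.2⟩
    · intro x hx y hy z hz hyz
      rcases hcases x hx with rfl | hx'
      · rw [hupw] at hy hz
        rw [hupx y (hQ1 hy)]
        exact hQ4 y hy z hz hyz
      · rw [hupx x hx'] at hy hz
        rw [hupx y (h1.lt x hx' y hy).1]
        exact h1.clique x hx' y hy z hz hyz
    · intro x hx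
      rcases hcases x hx with rfl | hx'
      · rw [hupw, hQ3]; omega
      · rw [hupx x hx']; exact h1.card x hx'
    · intro x hx
      rcases hcases x hx with rfl | hx'
      · rw [hupw, hlw, hQ3]
      · rw [hupx x hx', hlx x hx']; exact he1 x hx'
    · intro x hx
      rcases hcases x hx with rfl | hx'
      · rw [hupw]; exact hQ2
      · rw [hupx x hx']; exact hNN x hx'

/-- a 3-separation given by a triangle -/
def SepT (S : Finset V) (N : V → Finset V) (o : V → ℕ) : Prop :=
  ∃ T A B : Finset V, T.card = 3 ∧ (∀ y ∈ T, ∀ z ∈ T, o y < o z → z ∈ N y) ∧ Disjoint T A ∧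
    Disjoint T B ∧ Disjoint A B ∧ S = T ∪ (A ∪ B) ∧ 2 ≤ A.card ∧ 2 ≤ B.card ∧
    ∀ x ∈ A, ∀ y ∈ B, y ∉ N x ∧ x ∉ N y

theorem sepT_of {S : Finset V} {N : V → Finset V} {o : V → ℕ}
    {T A : Finset V} (hT : T ⊆ S) (hA : A ⊆ S) (hTc : T.card = 3)
    (hTq : ∀ y ∈ T, ∀ z ∈ T, o y < o z → z ∈ N y) (hTA : Disjoint T A) (hA2 : 2 ≤ A.card)
    (hc : A.card + 5 ≤ S.card) (h1 : ∀ x ∈ A, N x ⊆ A ∪ T)
    (h2 : ∀ x ∈ A, ∀ y ∈ S, x ∈ N y → y ∈ A ∪ T) : SepT S N o := by
  refine ⟨T, A, S \ (T ∪ A), hTc, hTq, hTA, ?_, ?_, ?_, hA2, ?_, ?_⟩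
  · exact disjoint_sdiff.mono_left subset_union_left
  · exact disjoint_sdiff.mono_left subset_union_right
  · rw [← union_assoc, union_sdiff_of_subset (union_subset hT hA)]
  · rw [card_sdiff_of_subset (union_subset hT hA), card_union_of_disjoint hTA, hTc]
    omega
  · intro x hx y hy
    rw [mem_sdiff, mem_union, not_or] at hy
    constructor
    · intro hyN
      rcases mem_union.1 (h1 x hx hyN) with h | h
      · exact hy.2.2 h
      · exact hy.2.1 h
    · intro hxN
      rcases mem_union.1 (h2 x hx y hy.1 hxN) with h | h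
      · exact hy.2.2 h
      · exact hy.2.1 h

/-- two simplicial vertices on the same triangle -/
theorem sepT_twins {S : Finset V} {N : V → Finset V} {o : V → ℕ} (h : Elim S N o) {y y' : V}
    (hy : y ∈ S) (hy' : y' ∈ S) (hne : y ≠ y') (hN : N y = N y') (hc : (N y).card = 3)
    (hE : ∀ z ∈ S, y ∉ N z) (hE' : ∀ z ∈ S, y' ∉ N z) (hS : 9 ≤ S.card) : SepT S N o := by
  have hyN : y ∉ N y := hE y hy
  have hyN' : y' ∉ N y := hE' y hy
  refine sepT_of (T := N y) (A := {y, y'}) (fun z hz => (h.lt y hy z hz).1) ?_ hc
    (fun a ha b hb hab => h.clique y hy a ha b hb hab) ?_ ?_ ?_ ?_ ?_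
  · intro z hz
    rcases mem_insert.1 hz with rfl | hz
    · exact hy
    · rw [mem_singleton.1 hz]; exact hy'
  · rw [disjoint_left]
    intro z hz hz'
    rcases mem_insert.1 hz' with rfl | hz'
    · exact hyN hz
    · rw [mem_singleton.1 hz'] at hz; exact hyN' hz
  · rw [card_pair hne]
  · rw [card_pair hne]; omega
  · intro x hx
    rcases mem_insert.1 hx with rfl | hx
    · exact subset_union_right
    · rw [mem_singleton.1 hx, ← hN]; exact subset_union_right
  · intro x hx z hz hxz
    exfalso
    rcases mem_insert.1 hx with rfl | hx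
    · exact hE z hz hxz
    · rw [mem_singleton.1 hx] at hxz; exact hE' z hz hxz

/-- the separation lemma -/
theorem exists_sepT {S : Finset V} {N : V → Finset V} {o : V → ℕ} (h : Elim S N o)
    (he : Exact S N o) (hS : 9 ≤ S.card) : SepT S N o := by
  classical
  -- the first vertex and a vertex with an earlier neighbour
  have hne : S.Nonempty := by rw [← card_pos]; omega
  obtain ⟨w, hw, hmin⟩ := exists_min_image S o hne
  have hlaterw : (later S o w).card = S.card - 1 := by
    have : later S o w = S.erase w := by
      ext y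
      rw [later, mem_filter, mem_erase]
      constructor
      · rintro ⟨hy, hwy⟩
        refine ⟨?_, hy⟩
        rintro rfl
        omega
      · rintro ⟨hyw, hy⟩
        have h1 := hmin y hy
        have h2 : o w ≠ o y := fun e => hyw (h.inj w hw y hy e).symm
        exact ⟨hy, by omega⟩
    rw [this, card_erase_of_mem hw]
  have hNw : (N w).card = 3 := by rw [he w hw, hlaterw]; omega
  obtain ⟨t, ht⟩ := card_pos.1 (show 0 < (N w).card by omega)
  -- vertices with an earlier neighbour
  set F : Finset V := S.filter fun x => ∃ y ∈ S, x ∈ N y with hF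
  have hFne : F.Nonempty := ⟨t, mem_filter.2 ⟨(h.lt w hw t ht).1, w, hw, ht⟩⟩
  obtain ⟨x, hx, hxmin⟩ := exists_min_image F o hFne
  rw [hF, mem_filter] at hx
  obtain ⟨hxS, y0, hy0, hxy0⟩ := hx
  have hleaf : ∀ y ∈ S, o y < o x → ∀ z ∈ S, y ∉ N z := by
    intro y hy hyx z hz hyz
    have := hxmin y (mem_filter.2 ⟨hy, z, hz, hyz⟩)
    omega
  have hge : ∀ y ∈ S, ∀ z ∈ N y, o x ≤ o z := by
    intro y hy z hz
    exact hxmin z (mem_filter.2 ⟨(h.lt y hy z hz).1, y, hy, hz⟩)
  by_cases hl : 3 ≤ (later S o x).card
  · have hNx : (N x).card = 3 := by rw [he x hxS]; omega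
    set E : Finset V := S.filter fun y => x ∈ N y with hE
    have hEo : ∀ y ∈ E, o y < o x := fun y hy =>
      (h.lt y (mem_filter.1 hy).1 x (mem_filter.1 hy).2).2
    have hEN : ∀ y ∈ E, N y ⊆ insert x (N x) := by
      intro y hy z hz
      rw [hE, mem_filter] at hy
      by_cases hzx : z = x
      · rw [hzx]; exact mem_insert_self _ _
      · apply mem_insert_of_mem
        have h1 := hge y hy.1 z hz
        have h2 : o x ≠ o z := fun e => hzx (h.inj x hxS z (h.lt y hy.1 z hz).1 e).symm
        exact h.clique y hy.1 x hy.2 z hz (by omega)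
    have hxE : x ∉ E := fun hh => lt_irrefl _ (hEo x hh)
    by_cases hbig : (insert x E).card + 5 ≤ S.card
    · refine sepT_of (T := N x) (A := insert x E) (fun z hz => (h.lt x hxS z hz).1) ?_ hNx
        (fun a ha b hb hab => h.clique x hxS a ha b hb hab) ?_ ?_ hbig ?_ ?_
      · exact insert_subset hxS (filter_subset _ _)
      · rw [disjoint_left]
        intro z hz hz'
        have h1 := (h.lt x hxS z hz).2
        rcases mem_insert.1 hz' with rfl | hz'
        · omega
        · have := hEo z hz'
          omega
      · rw [card_insert_of_notMem hxE]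
        have : 0 < E.card := card_pos.2 ⟨y0, mem_filter.2 ⟨hy0, hxy0⟩⟩
        omega
      · intro y hy
        rcases mem_insert.1 hy with rfl | hy
        · exact subset_union_right
        · intro z hz
          rcases mem_insert.1 (hEN y hy hz) with rfl | hz'
          · exact mem_union_left _ (mem_insert_self _ _)
          · exact mem_union_right _ hz'
      · intro y hy z hz hyz
        rcases mem_insert.1 hy with rfl | hy
        · exact mem_union_left _ (mem_insert_of_mem (mem_filter.2 ⟨hz, hyz⟩))
        · exact absurd hyz (hleaf y (mem_filter.1 hy).1 (hEo y hy) z hz)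
    · -- at least four leaves: two of them have the same neighbourhood
      have hEc : 4 ≤ E.card := by
        rw [card_insert_of_notMem hxE] at hbig
        omega
      have hNy : ∀ y ∈ E, (N y).card = 3 := by
        intro y hy
        have hyS := (mem_filter.1 hy).1
        rw [he y hyS]
        have : (later S o x).card ≤ (later S o y).card := by
          apply card_le_card
          intro z hz
          rw [later, mem_filter] at hz ⊢
          have := hEo y hy
          exact ⟨hz.1, by omega⟩
        omega
      have hmaps : Set.MapsTo (fun y => (N y).erase x) (E : Set V) ((N x).powersetCard 2 : Set (Finset V)) := by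
        intro y hy
        rw [mem_coe] at hy
        rw [mem_coe, mem_powersetCard]
        constructor
        · intro z hz
          rw [mem_erase] at hz
          rcases mem_insert.1 (hEN y hy hz.2) with h1 | h1
          · exact absurd h1 hz.1
          · exact h1
        · rw [card_erase_of_mem (mem_filter.1 hy).2, hNy y hy]
      have hcard : ((N x).powersetCard 2).card < E.card := by
        rw [card_powersetCard, hNx]
        have : Nat.choose 3 2 = 3 := rfl
        omega
      obtain ⟨y, hy, y', hy', hyy, hN⟩ := exists_ne_map_eq_of_card_lt_of_maps_to hcard hmaps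
      have hyS := (mem_filter.1 hy).1
      have hyS' := (mem_filter.1 hy').1
      refine sepT_twins h hyS hyS' hyy ?_ (hNy y hy) (hleaf y hyS (hEo y hy))
        (hleaf y' hyS' (hEo y' hy')) hS
      have h1 : insert x ((N y).erase x) = insert x ((N y').erase x) := by
        rw [show (N y).erase x = (N y').erase x from hN]
      rwa [insert_erase (mem_filter.1 hy).2, insert_erase (mem_filter.1 hy').2] at h1
  · -- all vertices before `x` are leaves on the same triangle
    have hup : ∀ y ∈ S, (N y).card = 3 → N y = insert x (later S o x) := by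
      intro y hy hc
      apply eq_of_subset_of_card_le
      · intro z hz
        by_cases hzx : z = x
        · rw [hzx]; exact mem_insert_self _ _
        · apply mem_insert_of_mem
          have h1 := hge y hy z hz
          have h2 : o x ≠ o z := fun e => hzx (h.inj x hxS z (h.lt y hy z hz).1 e).symm
          exact mem_filter.2 ⟨(h.lt y hy z hz).1, by omega⟩
      · rw [hc]
        refine (card_insert_le _ _).trans ?_
        omega
    -- the second vertex
    have hne2 : (S.erase w).Nonempty := by
      rw [← card_pos, card_erase_of_mem hw]; omega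
    obtain ⟨w', hw', hmin'⟩ := exists_min_image (S.erase w) o hne2
    have hwS' := mem_of_mem_erase hw'
    have hlaterw' : S.card - 2 ≤ (later S o w').card := by
      have : (S.erase w).erase w' ⊆ later S o w' := by
        intro z hz
        rw [mem_erase] at hz
        have h1 := hmin' z hz.2
        have h2 : o w' ≠ o z := fun e => hz.1 (h.inj w' hwS' z (mem_of_mem_erase hz.2) e).symm
        exact mem_filter.2 ⟨mem_of_mem_erase hz.2, by omega⟩
      have h1 := card_le_card this
      rw [card_erase_of_mem hw', card_erase_of_mem hw] at h1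
      omega
    have hNw' : (N w').card = 3 := by rw [he w' hwS']; omega
    have hlt : ∀ y ∈ S, 3 ≤ (later S o y).card → o y < o x := by
      intro y hy hc
      by_contra hle
      have : (later S o y).card ≤ (later S o x).card := by
        apply card_le_card
        intro z hz
        rw [later, mem_filter] at *
        exact ⟨hz.1, by omega⟩
      omega
    refine sepT_twins h hw hwS' (ne_of_mem_erase hw').symm ?_ hNw
      (hleaf w hw (hlt w hw (by omega))) (hleaf w' hwS' (hlt w' hwS' (by omega))) hS
    rw [hup w hw hNw, hup w' hwS' hNw']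

end Pool.Agent.H40.RG
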