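import Pool.Agent.H40.RG.Small
import Pool.Agent.H40.RG.Glue3
import Pool.Agent.H40.RG.Order

/-!
# r-graphs of treewidth at most three are r-edge-colourable
-/

namespace Pool.Agent.H40.RG

open Finset

variable {V : Type*} [DecidableEq V]

/-- the induction step at a 3-separation -/
theorem step {r : ℕ} {m : V → V → ℕ} {N : V → Finset V} {o : V → ℕ} {A B : Finset V} {a b c : V}
    (rg : IsRG r (insert a (insert b (insert c (A ∪ B)))) m)
    (el : Elim (insert a (insert b (insert c (A ∪ B)))) N o)
    (cov : ∀ x ∈ insert a (insert b (insert c (A ∪ B))),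
      ∀ y ∈ insert a (insert b (insert c (A ∪ B))), m x y ≠ 0 → y ∈ N x ∨ x ∈ N y)
    (ab : a ≠ b) (ac : a ≠ c) (bc : b ≠ c) (aA : a ∉ A) (bA : b ∉ A) (cA : c ∉ A)
    (aB : a ∉ B) (bB : b ∉ B) (cB : c ∉ B) (disj : Disjoint A B)
    (no : ∀ x ∈ A, ∀ y ∈ B, m x y = 0) (hA : Odd A.card) (hB : Even B.card)
    (tri : ∀ y z, (y = a ∨ y = b ∨ y = c) → (z = a ∨ z = b ∨ z = c) → o y < o z → z ∈ N y)
    (hA2 : 2 ≤ A.card) (hB2 : 2 ≤ B.card)
    (ih : ∀ (S' : Finset V) (m' : V → V → ℕ) (N' : V → Finset V) (o' : V → ℕ),
      S'.card < (insert a (insert b (insert c (A ∪ B)))).card → IsRG r S' m' → Elim S' N' o' →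
      (∀ x ∈ S', ∀ y ∈ S', m' x y ≠ 0 → y ∈ N' x ∨ x ∈ N' y) → Col r S' m') :
    Col r (insert a (insert b (insert c (A ∪ B)))) m := by
  obtain ⟨α, β, γ, τ, h⟩ := exists_sep rg ab ac bc aA bA cA aB bB cB disj no hA
  obtain ⟨v, hv⟩ := card_pos.1 (show 0 < A.card by omega)
  have vB : v ∉ B := disjoint_left.1 disj hv
  have va : v ≠ a := fun h => aA (h ▸ hv)
  have vb : v ≠ b := fun h => bA (h ▸ hv)
  have vc : v ≠ c := fun h => cA (h ▸ hv)
  have hcard : (insert a (insert b (insert c (A ∪ B)))).card = A.card + B.card + 3 := by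
    rw [card_insert_of_notMem, card_insert_of_notMem, card_insert_of_notMem,
      card_union_of_disjoint disj]
    · simp [cA, cB]
    · simp [bc, bA, bB]
    · simp [ab, ac, aA, aB]
  have hcard1 : (insert a (insert b (insert c A))).card = A.card + 3 := by
    rw [card_insert_of_notMem, card_insert_of_notMem, card_insert_of_notMem cA]
    · simp [bc, bA]
    · simp [ab, ac, aA]
  have hcard2 : (insert v (insert a (insert b (insert c B)))).card = B.card + 4 := by
    rw [card_insert_of_notMem, card_insert_of_notMem, card_insert_of_notMem,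
      card_insert_of_notMem cB]
    · simp [bc, bB]
    · simp [ab, ac, aB]
    · simp [va, vb, vc, vB]
  have sub1 : insert a (insert b (insert c A)) ⊆ insert a (insert b (insert c (A ∪ B))) := by
    intro x hx
    rw [mem_S1] at hx
    rw [mem_S]
    tauto
  have sub2 : insert a (insert b (insert c B)) ⊆ insert a (insert b (insert c (A ∪ B))) := by
    intro x hx
    rw [mem_S1] at hx
    rw [mem_S]
    tauto
  have aS : a ∈ insert a (insert b (insert c (A ∪ B))) := by simp
  have bS : b ∈ insert a (insert b (insert c (A ∪ B))) := by simp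
  have cS : c ∈ insert a (insert b (insert c (A ∪ B))) := by simp
  have tadj : ∀ y z, (y = a ∨ y = b ∨ y = c) → (z = a ∨ z = b ∨ z = c) → y ≠ z →
      z ∈ N y ∨ y ∈ N z := by
    intro y z hy hz hyz
    have hyS : y ∈ insert a (insert b (insert c (A ∪ B))) := by rw [mem_S]; tauto
    have hzS : z ∈ insert a (insert b (insert c (A ∪ B))) := by rw [mem_S]; tauto
    have hne : o y ≠ o z := fun e => hyz (el.inj y hyS z hzS e)
    rcases lt_or_gt_of_ne hne with h1 | h1
    · exact Or.inl (tri y z hy hz h1)
    · exact Or.inr (tri z y hz hy h1)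
  apply h.glue hv
  · refine ih _ _ (fun x => N x ∩ insert a (insert b (insert c A))) o (by omega) h.rg1
      (el.restrict sub1) ?_
    intro x hx y hy hm
    simp only [mem_inter]
    have main : y ∈ N x ∨ x ∈ N y := by
      unfold m1 at hm
      split_ifs at hm with h1 h2 h3
      · rcases h1 with ⟨h1, h1'⟩ | ⟨h1, h1'⟩
        · exact tadj x y (by tauto) (by tauto) (by rw [h1, h1']; exact bc)
        · exact tadj x y (by tauto) (by tauto) (by rw [h1, h1']; exact bc.symm)
      · rcases h2 with ⟨h1, h1'⟩ | ⟨h1, h1'⟩
        · exact tadj x y (by tauto) (by tauto) (by rw [h1, h1']; exact ac)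
        · exact tadj x y (by tauto) (by tauto) (by rw [h1, h1']; exact ac.symm)
      · rcases h3 with ⟨h1, h1'⟩ | ⟨h1, h1'⟩
        · exact tadj x y (by tauto) (by tauto) (by rw [h1, h1']; exact ab)
        · exact tadj x y (by tauto) (by tauto) (by rw [h1, h1']; exact ab.symm)
      · exact cov x (sub1 hx) y (sub1 hy) hm
    rcases main with h1 | h1
    · exact Or.inl ⟨h1, hy⟩
    · exact Or.inr ⟨h1, hx⟩
  · have hN2v : (fun x => if x = v then ({a, b, c} : Finset V) else
        N x ∩ insert a (insert b (insert c B))) v = {a, b, c} := if_pos rfl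
    have hN2 : ∀ x, x ≠ v → (fun x => if x = v then ({a, b, c} : Finset V) else
        N x ∩ insert a (insert b (insert c B))) x = N x ∩ insert a (insert b (insert c B)) :=
      fun x hx => if_neg hx
    set N2 : V → Finset V := fun x => if x = v then ({a, b, c} : Finset V) else
        N x ∩ insert a (insert b (insert c B)) with hN2def
    have ho2v : (fun x => if x = v then 0 else o x + 1) v = 0 := if_pos rfl
    have ho2 : ∀ x, x ≠ v → (fun x => if x = v then 0 else o x + 1) x = o x + 1 :=
      fun x hx => if_neg hx
    set o2 : V → ℕ := fun x => if x = v then 0 else o x + 1 with ho2def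
    have hT : ∀ y, y ∈ ({a, b, c} : Finset V) ↔ (y = a ∨ y = b ∨ y = c) := by
      intro y; simp
    have hTv : ∀ y, (y = a ∨ y = b ∨ y = c) → y ≠ v := by
      rintro y (rfl | rfl | rfl)
      · exact va.symm
      · exact vb.symm
      · exact vc.symm
    have hB' : ∀ x ∈ insert v (insert a (insert b (insert c B))), x ≠ v →
        x ∈ insert a (insert b (insert c B)) := by
      intro x hx hxv
      exact (mem_insert.1 hx).resolve_left hxv
    have hnv : ∀ x ∈ insert a (insert b (insert c B)), x ≠ v := by
      intro x hx
      rw [mem_S1] at hx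
      rcases hx with rfl | rfl | rfl | hx
      · exact va.symm
      · exact vb.symm
      · exact vc.symm
      · intro hxv; exact vB (hxv ▸ hx)
    refine ih _ _ N2 o2 (by omega) (h.rg2 hB hv) ⟨?_, ?_, ?_, ?_⟩ ?_
    · intro x hx y hy hxy
      by_cases hxv : x = v <;> by_cases hyv : y = v
      · rw [hxv, hyv]
      · rw [hxv, ho2v, ho2 y hyv] at hxy; omega
      · rw [hyv, ho2v, ho2 x hxv] at hxy; omega
      · rw [ho2 x hxv, ho2 y hyv] at hxy
        exact el.inj x (sub2 (hB' x hx hxv)) y (sub2 (hB' y hy hyv)) (by omega)
    · intro x hx y hy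
      by_cases hxv : x = v
      · rw [hxv, hN2v, hT] at hy
        refine ⟨?_, ?_⟩
        · rw [mem_S2]; tauto
        · rw [hxv, ho2v, ho2 y (hTv y hy)]; omega
      · rw [hN2 x hxv, mem_inter] at hy
        have h1 := el.lt x (sub2 (hB' x hx hxv)) y hy.1
        refine ⟨mem_insert_of_mem hy.2, ?_⟩
        rw [ho2 x hxv, ho2 y (hnv y hy.2)]
        omega
    · intro x hx y hy z hz hyz
      by_cases hxv : x = v
      · rw [hxv, hN2v, hT] at hy hz
        rw [ho2 y (hTv y hy), ho2 z (hTv z hz)] at hyz
        rw [hN2 y (hTv y hy), mem_inter]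
        refine ⟨tri y z hy hz (by omega), ?_⟩
        rw [mem_S1]; tauto
      · rw [hN2 x hxv, mem_inter] at hy hz
        rw [ho2 y (hnv y hy.2), ho2 z (hnv z hz.2)] at hyz
        rw [hN2 y (hnv y hy.2), mem_inter]
        exact ⟨el.clique x (sub2 (hB' x hx hxv)) y hy.1 z hz.1 (by omega), hz.2⟩
    · intro x hx
      by_cases hxv : x = v
      · rw [hxv, hN2v]
        exact card_le_three
      · rw [hN2 x hxv]
        exact (card_le_card inter_subset_left).trans (el.card x (sub2 (hB' x hx hxv)))
    · intro x hx y hy hm
      by_cases hxv : x = v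
      · left
        rw [hxv, hN2v, hT]
        by_contra hn
        rw [not_or, not_or] at hn
        apply hm
        rw [hxv]
        exact m2_v hn.1 hn.2.1 hn.2.2
      · by_cases hyv : y = v
        · right
          rw [hyv, hN2v, hT]
          by_contra hn
          rw [not_or, not_or] at hn
          apply hm
          rw [hyv, m2_symm rg.symm]
          exact m2_v hn.1 hn.2.1 hn.2.2
        · rw [hN2 x hxv, hN2 y hyv, mem_inter, mem_inter]
          have main : y ∈ N x ∨ x ∈ N y := by
            by_cases h1 : (x = b ∧ y = c) ∨ (x = c ∧ y = b)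
            · rcases h1 with ⟨h1, h1'⟩ | ⟨h1, h1'⟩
              · exact tadj x y (by tauto) (by tauto) (by rw [h1, h1']; exact bc)
              · exact tadj x y (by tauto) (by tauto) (by rw [h1, h1']; exact bc.symm)
            · rw [m2_of hxv hyv h1] at hm
              exact cov x (sub2 (hB' x hx hxv)) y (sub2 (hB' y hy hyv)) hm
          rcases main with h1 | h1
          · exact Or.inl ⟨h1, hB' y hy hyv⟩
          · exact Or.inr ⟨h1, hB' x hx hxv⟩

/-- **Theorem A.** An `r`-graph whose underlying graph has an elimination order of width at most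
three is `r`-edge-colourable. -/
theorem col_of_elim : ∀ (n r : ℕ) (S : Finset V) (m : V → V → ℕ) (N : V → Finset V) (o : V → ℕ),
    S.card = n → IsRG r S m → Elim S N o →
    (∀ x ∈ S, ∀ y ∈ S, m x y ≠ 0 → y ∈ N x ∨ x ∈ N y) → Col r S m := by
  intro n
  induction n using Nat.strong_induction_on with
  | _ n ih =>
    intro r S m N o hS rg el cov
    by_cases hn : n ≤ 8
    · exact col_small n hn r S m hS rg
    · rcases Nat.eq_zero_or_pos r with rfl | hr
      · exact col_zero rg
      · obtain ⟨N', el', ex, hsub⟩ := exactify n S N o hS el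
        have cov' : ∀ x ∈ S, ∀ y ∈ S, m x y ≠ 0 → y ∈ N' x ∨ x ∈ N' y := by
          intro x hx y hy hm
          rcases cov x hx y hy hm with h | h
          · exact Or.inl (hsub x hx h)
          · exact Or.inr (hsub y hy h)
        obtain ⟨T, A, B, hT3, hTq, hTA, hTB, hAB, hSU, hA2, hB2, hno⟩ :=
          exists_sepT el' ex (by omega)
        have hAS : A ⊆ S := by
          rw [hSU]; exact subset_union_left.trans subset_union_right
        have hBS : B ⊆ S := by
          rw [hSU]; exact subset_union_right.trans subset_union_right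
        have hno' : ∀ x ∈ A, ∀ y ∈ B, m x y = 0 := by
          intro x hx y hy
          by_contra hm
          rcases cov' x (hAS hx) y (hBS hy) hm with h | h
          · exact (hno x hx y hy).1 h
          · exact (hno x hx y hy).2 h
        obtain ⟨a, b, c, ab, ac, bc, rfl⟩ := card_eq_three.1 hT3
        have hev := rg.even_card hr
        have hcS : S.card = 3 + (A.card + B.card) := by
          rw [hSU, card_union_of_disjoint, hT3, card_union_of_disjoint hAB]
          rw [disjoint_union_right]
          exact ⟨hTA, hTB⟩
        have hmemT : ∀ y, (y = a ∨ y = b ∨ y = c) → y ∈ ({a, b, c} : Finset V) := by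
          intro y hy; simpa using hy
        have tri : ∀ y z, (y = a ∨ y = b ∨ y = c) → (z = a ∨ z = b ∨ z = c) → o y < o z →
            z ∈ N' y := fun y z hy hz => hTq y (hmemT y hy) z (hmemT z hz)
        have aA : a ∉ A := disjoint_left.1 hTA (by simp)
        have bA : b ∉ A := disjoint_left.1 hTA (by simp)
        have cA : c ∉ A := disjoint_left.1 hTA (by simp)
        have aB : a ∉ B := disjoint_left.1 hTB (by simp)
        have bB : b ∉ B := disjoint_left.1 hTB (by simp)
        have cB : c ∉ B := disjoint_left.1 hTB (by simp)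
        have ih' : ∀ (S' : Finset V) (m' : V → V → ℕ) (N' : V → Finset V) (o' : V → ℕ),
            S'.card < S.card → IsRG r S' m' → Elim S' N' o' →
            (∀ x ∈ S', ∀ y ∈ S', m' x y ≠ 0 → y ∈ N' x ∨ x ∈ N' y) → Col r S' m' := by
          intro S' m' N'' o' hc h1 h2 h3
          exact ih S'.card (by omega) r S' m' N'' o' rfl h1 h2 h3
        rcases Nat.even_or_odd A.card with hA | hA
        · have hB : Odd B.card := by
            rcases Nat.even_or_odd B.card with hB | hB
            · exfalso
              rw [hcS] at hev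
              have : Odd (3 + (A.card + B.card)) := Odd.add_even (by decide) (hA.add hB)
              exact (Nat.not_even_iff_odd.2 this) hev
            · exact hB
          have e : S = insert a (insert b (insert c (B ∪ A))) := by
            rw [hSU]; ext x; simp only [mem_union, mem_insert, mem_singleton]; tauto
          rw [e] at rg el' cov' ih' ⊢
          exact step rg el' cov' ab ac bc aB bB cB aA bA cA hAB.symm
            (fun x hx y hy => by rw [rg.symm]; exact hno' y hy x hx) hB hA tri hB2 hA2 ih'
        · have hB : Even B.card := by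
            rcases Nat.even_or_odd B.card with hB | hB
            · exact hB
            · exfalso
              rw [hcS] at hev
              have : Odd (3 + (A.card + B.card)) := Odd.add_even (by decide) (hA.add_odd hB)
              exact (Nat.not_even_iff_odd.2 this) hev
          have e : S = insert a (insert b (insert c (A ∪ B))) := by
            rw [hSU]; ext x; simp only [mem_union, mem_insert, mem_singleton]; tauto
          rw [e] at rg el' cov' ih' ⊢
          exact step rg el' cov' ab ac bc aA bA cA aB bB cB hAB hno' hA hB tri hA2 hB2 ih'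

end Pool.Agent.H40.RG
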