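import Pool.Agent.H40.RG.Basic

/-!
# Perfect matchings in r-graphs (Tutte)
-/

namespace Pool.Agent.H40.RG

open Finset

variable {V : Type*} [DecidableEq V]

/-- the underlying simple graph -/
def und {r : ℕ} {S : Finset V} {m : V → V → ℕ} (h : IsRG r S m) : SimpleGraph S where
  Adj x y := m x y ≠ 0
  symm := ⟨by
    intro x y hxy
    rw [h.symm y x]
    exact hxy⟩
  loopless := ⟨by
    intro x hx
    exact hx (h.loop x)⟩

theorem no_violator {r : ℕ} {S : Finset V} {m : V → V → ℕ} (h : IsRG r S m) (hr : 0 < r)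
    (u : Set S) : ¬ (und h).IsTutteViolator u := by
  classical
  intro hu
  unfold SimpleGraph.IsTutteViolator at hu
  set H := ((⊤ : (und h).Subgraph).deleteVerts u).coe with hH
  let φ : ↥((⊤ : (und h).Subgraph).deleteVerts u).verts → V := fun v => v.1.1
  have hφ : Function.Injective φ := fun a b hab => Subtype.ext (Subtype.ext hab)
  let X : H.ConnectedComponent → Finset V := fun c => c.supp.toFinset.image φ
  have hXS : ∀ c, X c ⊆ S := by
    intro c x hx
    obtain ⟨v, _, rfl⟩ := mem_image.1 hx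
    exact v.1.2
  have hXdisj : ∀ c c', c ≠ c' → Disjoint (X c) (X c') := by
    intro c c' hcc
    rw [disjoint_left]
    intro x hx hx'
    obtain ⟨v, hv, hvx⟩ := mem_image.1 hx
    obtain ⟨v', hv', hvx'⟩ := mem_image.1 hx'
    have : v = v' := hφ (hvx.trans hvx'.symm)
    subst this
    rw [Set.mem_toFinset, SimpleGraph.ConnectedComponent.mem_supp_iff] at hv hv'
    exact hcc (hv.symm.trans hv')
  have hXcard : ∀ c, (X c).card = c.supp.ncard := by
    intro c
    rw [card_image_of_injective _ hφ, Set.ncard_eq_toFinset_card']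
  let U : Finset V := u.toFinset.image fun v => v.1
  have hUcard : U.card = u.ncard := by
    rw [card_image_of_injective _ Subtype.val_injective, Set.ncard_eq_toFinset_card']
  have hUS : U ⊆ S := by
    intro x hx
    obtain ⟨v, _, rfl⟩ := mem_image.1 hx
    exact v.2
  have hedge : ∀ c, ∀ x ∈ X c, ∀ y ∈ S, y ∉ X c → y ∉ U → m x y = 0 := by
    intro c x hx y hy hyX hyU
    by_contra hne
    obtain ⟨v, hv, hvx⟩ := mem_image.1 hx
    apply hyX
    have hyu : (⟨y, hy⟩ : S) ∉ u := by
      intro hyu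
      exact hyU (mem_image.2 ⟨⟨y, hy⟩, Set.mem_toFinset.2 hyu, rfl⟩)
    have hyv : (⟨y, hy⟩ : S) ∈ ((⊤ : (und h).Subgraph).deleteVerts u).verts := by
      rw [SimpleGraph.Subgraph.deleteVerts_verts]
      exact ⟨trivial, hyu⟩
    refine mem_image.2 ⟨⟨⟨y, hy⟩, hyv⟩, ?_, rfl⟩
    rw [Set.mem_toFinset, SimpleGraph.ConnectedComponent.mem_supp_iff] at *
    rw [← hv]
    apply SimpleGraph.ConnectedComponent.connectedComponentMk_eq_of_adj
    rw [hH, SimpleGraph.Subgraph.coe_adj, SimpleGraph.Subgraph.deleteVerts_adj]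
    have hv2 : v.1 ∉ u := v.2.2
    refine ⟨trivial, hyu, trivial, hv2, ?_⟩
    rw [SimpleGraph.Subgraph.top_adj]
    change m y v.1.1 ≠ 0
    rw [h.symm, show (v.1.1 : V) = x from hvx]
    exact hne
  -- counting
  set C := H.oddComponents.toFinset with hC
  have hCcard : C.card = H.oddComponents.ncard := by
    rw [Set.ncard_eq_toFinset_card']
  have h1 : ∀ c ∈ C, r ≤ cc m (X c) U := by
    intro c hc
    rw [hC, Set.mem_toFinset] at hc
    have h2 := h.cut_ge (hXS c) (by rw [hXcard]; exact hc)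
    refine h2.trans ?_
    unfold cc
    refine sum_le_sum fun x hx => ?_
    calc ∑ y ∈ S \ X c, m x y ≤ ∑ y ∈ (S \ X c) ∪ U, m x y := sum_le_sum_of_subset subset_union_left
      _ = ∑ y ∈ U, m x y := by
        symm
        apply sum_subset subset_union_right
        intro y hy hyU
        rcases mem_union.1 hy with hy | hy
        · exact hedge c x hx y (mem_sdiff.1 hy).1 (mem_sdiff.1 hy).2 hyU
        · exact absurd hy hyU
  have h2 : ∑ c ∈ C, cc m (X c) U ≤ r * U.card := by
    have h3 : ∑ c ∈ C, cc m (X c) U = cc m (C.biUnion X) U := by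
      unfold cc
      rw [sum_biUnion]
      intro c _ c' _ hne
      exact hXdisj c c' hne
    rw [h3]
    calc cc m (C.biUnion X) U ≤ cc m S U := by
          apply cc_mono _ (subset_refl U)
          rw [biUnion_subset]
          intro c _
          exact hXS c
      _ = cc m U S := cc_comm h.symm
      _ = r * U.card := by
        unfold cc
        rw [sum_congr rfl fun x hx => h.reg x (hUS hx), sum_const, smul_eq_mul, mul_comm]
  have h3 : C.card * r ≤ r * U.card := by
    refine le_trans ?_ h2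
    rw [← smul_eq_mul]
    exact card_nsmul_le_sum _ _ _ h1
  have h4 : C.card ≤ U.card := by
    rw [mul_comm] at h3
    exact Nat.le_of_mul_le_mul_left h3 hr
  rw [hCcard, hUcard] at h4
  omega

/-- an `r`-graph with `r > 0` has a perfect matching -/
theorem exists_pm {r : ℕ} {S : Finset V} {m : V → V → ℕ} (h : IsRG r S m) (hr : 0 < r) :
    ∃ p : V → V, ∀ x ∈ S, p x ∈ S ∧ p (p x) = x ∧ m x (p x) ≠ 0 := by
  classical
  obtain ⟨M, hM⟩ := (SimpleGraph.tutte (G := und h)).2 (no_violator h hr)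
  rw [SimpleGraph.Subgraph.isPerfectMatching_iff] at hM
  choose f hf hf' using hM
  refine ⟨fun x => if hx : x ∈ S then (f ⟨x, hx⟩ : V) else x, ?_⟩
  intro x hx
  have h1 : (if hx : x ∈ S then (f ⟨x, hx⟩ : V) else x) = f ⟨x, hx⟩ := by rw [dif_pos hx]
  beta_reduce
  rw [h1]
  refine ⟨(f ⟨x, hx⟩).2, ?_, ?_⟩
  · rw [dif_pos (f ⟨x, hx⟩).2]
    have h2 := hf' (f ⟨x, hx⟩) ⟨x, hx⟩ (hf ⟨x, hx⟩).symm
    change ((f (f ⟨x, hx⟩) : S) : V) = x
    rw [← h2]
  · exact M.adj_sub (hf ⟨x, hx⟩)

end Pool.Agent.H40.RG
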