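import Pool.Agent.H40.RG.Basic

/-!
# 3-separations of r-graphs: the two parts
-/

namespace Pool.Agent.H40.RG

open Finset

variable {V : Type*} [DecidableEq V]

/-- the multiplicities on `A ∪ {a, b, c}` -/
def m1 (m : V → V → ℕ) (a b c : V) (α β γ : ℕ) : V → V → ℕ := fun x y =>
  if (x = b ∧ y = c) ∨ (x = c ∧ y = b) then α
  else if (x = a ∧ y = c) ∨ (x = c ∧ y = a) then β
  else if (x = a ∧ y = b) ∨ (x = b ∧ y = a) then γ
  else m x y

/-- the multiplicities on `{v} ∪ {a, b, c} ∪ B` -/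
def m2 (m : V → V → ℕ) (a b c v : V) (α β γ τ : ℕ) : V → V → ℕ := fun x y =>
  if x = v then (if y = a then α + τ else if y = b then β else if y = c then γ else 0)
  else if y = v then (if x = a then α + τ else if x = b then β else if x = c then γ else 0)
  else if (x = b ∧ y = c) ∨ (x = c ∧ y = b) then m x y + τ
  else m x y

/-- a 3-separation `A | {a, b, c} | B` of an `r`-graph with `|A|` odd, and its parameters -/
structure Sep (r : ℕ) (m : V → V → ℕ) (A B : Finset V) (a b c : V) (α β γ τ : ℕ) : Prop where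
  rg : IsRG r (insert a (insert b (insert c (A ∪ B)))) m
  ab : a ≠ b
  ac : a ≠ c
  bc : b ≠ c
  aA : a ∉ A
  bA : b ∉ A
  cA : c ∉ A
  aB : a ∉ B
  bB : b ∉ B
  cB : c ∉ B
  disj : Disjoint A B
  no : ∀ x ∈ A, ∀ y ∈ B, m x y = 0
  oddA : Odd A.card
  ea : ∑ x ∈ A, m x a = α + τ
  eb : ∑ x ∈ A, m x b = β + τ
  ec : ∑ x ∈ A, m x c = γ + τ
  er : α + β + γ + τ = r

theorem sum_S {M : Type*} [AddCommMonoid M] {A B : Finset V} {a b c : V} (ab : a ≠ b) (ac : a ≠ c)
    (bc : b ≠ c) (aA : a ∉ A) (bA : b ∉ A) (cA : c ∉ A) (aB : a ∉ B) (bB : b ∉ B) (cB : c ∉ B)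
    (disj : Disjoint A B) (f : V → M) :
    ∑ y ∈ insert a (insert b (insert c (A ∪ B))), f y =
      f a + (f b + (f c + (∑ y ∈ A, f y + ∑ y ∈ B, f y))) := by
  rw [sum_insert, sum_insert, sum_insert, sum_union disj]
  · simp [cA, cB]
  · simp [bc, bA, bB]
  · simp [ab, ac, aA, aB]

/-- cut of the side `A` -/
theorem cut_A {r : ℕ} {m : V → V → ℕ} {A B : Finset V} {a b c : V}
    (rg : IsRG r (insert a (insert b (insert c (A ∪ B)))) m)
    (ab : a ≠ b) (ac : a ≠ c)
    (bc : b ≠ c) (aA : a ∉ A) (bA : b ∉ A) (cA : c ∉ A) (aB : a ∉ B) (bB : b ∉ B) (cB : c ∉ B)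
    (disj : Disjoint A B) (no : ∀ x ∈ A, ∀ y ∈ B, m x y = 0) :
    cc m A A + (∑ x ∈ A, m x a + (∑ x ∈ A, m x b + ∑ x ∈ A, m x c)) = r * A.card := by
  have h1 : ∀ x ∈ A, m x a + (m x b + (m x c + ∑ y ∈ A, m x y)) = r := by
    intro x hx
    have h2 := rg.reg x (by simp [hx])
    rw [sum_S ab ac bc aA bA cA aB bB cB disj] at h2
    rw [← h2, sum_eq_zero (s := B) (fun y hy => no x hx y hy), add_zero]
  have h2 := sum_congr (rfl : A = A) h1
  rw [sum_const, smul_eq_mul, sum_add_distrib, sum_add_distrib, sum_add_distrib] at h2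
  unfold cc
  rw [mul_comm r]
  omega

theorem two_le {r : ℕ} {m : V → V → ℕ} {A B : Finset V} {a b c : V}
    (rg : IsRG r (insert a (insert b (insert c (A ∪ B)))) m)
    (ab : a ≠ b) (ac : a ≠ c)
    (bc : b ≠ c) (aA : a ∉ A) (bA : b ∉ A) (cA : c ∉ A) (aB : a ∉ B) (bB : b ∉ B) (cB : c ∉ B)
    (disj : Disjoint A B) (no : ∀ x ∈ A, ∀ y ∈ B, m x y = 0) (ho : Odd A.card) :
    ∑ x ∈ A, m x b + ∑ x ∈ A, m x c ≤ ∑ x ∈ A, m x a + r := by
  have hcut := cut_A rg ab ac bc aA bA cA aB bB cB disj no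
  have hsub : insert b (insert c A) ⊆ insert a (insert b (insert c (A ∪ B))) := by
    intro x hx
    simp only [mem_insert, mem_union] at *
    tauto
  have hcard : (insert b (insert c A)).card = A.card + 2 := by
    rw [card_insert_of_notMem, card_insert_of_notMem cA]
    simp [bc, bA]
  have h1 := rg.odd _ hsub (by rw [hcard]; exact ho.add_even (by decide))
  rw [hcard] at h1
  have h2 : cc m A A + 2 * (∑ x ∈ A, m x b + ∑ x ∈ A, m x c) ≤
      cc m (insert b (insert c A)) (insert b (insert c A)) := by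
    have e : insert b (insert c A) = {b, c} ∪ A := by
      ext x; simp
    have hd : Disjoint ({b, c} : Finset V) A := by
      rw [disjoint_left]; intro x hx; simp only [mem_insert, mem_singleton] at hx
      rcases hx with rfl | rfl <;> assumption
    rw [e, cc_union_left hd, cc_union_right hd, cc_union_right hd,
      cc_comm rg.symm (X := {b, c}) (Y := A)]
    have e2 : cc m A {b, c} = ∑ x ∈ A, m x b + ∑ x ∈ A, m x c := by
      unfold cc
      rw [← sum_add_distrib]
      refine sum_congr rfl fun x _ => ?_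
      rw [sum_pair bc]
    rw [e2]
    omega
  have h3 : r * (A.card + 2) = r * A.card + 2 * r := by ring
  omega

/-- existence of the parameters -/
theorem exists_sep {r : ℕ} {m : V → V → ℕ} {A B : Finset V} {a b c : V}
    (rg : IsRG r (insert a (insert b (insert c (A ∪ B)))) m)
    (ab : a ≠ b) (ac : a ≠ c)
    (bc : b ≠ c) (aA : a ∉ A) (bA : b ∉ A) (cA : c ∉ A) (aB : a ∉ B) (bB : b ∉ B) (cB : c ∉ B)
    (disj : Disjoint A B) (no : ∀ x ∈ A, ∀ y ∈ B, m x y = 0) (ho : Odd A.card) :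
    ∃ α β γ τ, Sep r m A B a b c α β γ τ := by
  have hcut := cut_A rg ab ac bc aA bA cA aB bB cB disj no
  have h1 := two_le rg ab ac bc aA bA cA aB bB cB disj no ho
  have e1 : insert b (insert a (insert c (A ∪ B))) = insert a (insert b (insert c (A ∪ B))) := by
    rw [insert_comm]
  have e2 : insert c (insert b (insert a (A ∪ B))) = insert a (insert b (insert c (A ∪ B))) := by
    ext x; simp only [mem_insert]; tauto
  have h2 := two_le (a := b) (b := a) (c := c) (by rw [e1]; exact rg) ab.symm bc ac bA aA cA bB aB cB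
    disj no ho
  have h3 := two_le (a := c) (b := b) (c := a) (by rw [e2]; exact rg) bc.symm ac.symm ab.symm
    cA bA aA cB bB aB disj no ho
  have h4 := rg.odd A (by intro x hx; simp [hx]) ho
  obtain ⟨k, hk⟩ := cc_even (X := A) rg.symm rg.loop
  obtain ⟨l, hl⟩ := ho
  have h5 : r * (2 * l + 1) = 2 * (r * l) + r := by ring
  rw [hl, h5] at hcut h4
  set x := ∑ x ∈ A, m x a
  set y := ∑ x ∈ A, m x b
  set z := ∑ x ∈ A, m x c
  set w := r * l
  refine ⟨x - (w - k), y - (w - k), z - (w - k), w - k, ?_⟩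
  refine ⟨rg, ab, ac, bc, aA, bA, cA, aB, bB, cB, disj, no, ⟨l, hl⟩, ?_, ?_, ?_, ?_⟩ <;> omega

section m1

variable {m : V → V → ℕ} {a b c : V} {α β γ : ℕ}

theorem m1_symm (hs : ∀ x y, m x y = m y x) (x y : V) : m1 m a b c α β γ x y = m1 m a b c α β γ y x := by
  unfold m1
  have e1 : ((x = b ∧ y = c) ∨ (x = c ∧ y = b)) ↔ ((y = b ∧ x = c) ∨ (y = c ∧ x = b)) := by tauto
  have e2 : ((x = a ∧ y = c) ∨ (x = c ∧ y = a)) ↔ ((y = a ∧ x = c) ∨ (y = c ∧ x = a)) := by tauto
  have e3 : ((x = a ∧ y = b) ∨ (x = b ∧ y = a)) ↔ ((y = a ∧ x = b) ∨ (y = b ∧ x = a)) := by tauto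
  simp only [e1, e2, e3, hs x y]

theorem m1_left {x y : V} (hb : ¬ (x = b ∨ x = c ∨ x = a)) : m1 m a b c α β γ x y = m x y := by
  unfold m1
  rw [if_neg (by tauto), if_neg (by tauto), if_neg (by tauto)]

theorem m1_loop (hl : ∀ x, m x x = 0) (ab : a ≠ b) (ac : a ≠ c) (bc : b ≠ c) (x : V) :
    m1 m a b c α β γ x x = 0 := by
  unfold m1
  rw [if_neg, if_neg, if_neg, hl]
  · rintro (⟨rfl, h⟩ | ⟨rfl, h⟩)
    · exact ab h
    · exact ab h.symm
  · rintro (⟨rfl, h⟩ | ⟨rfl, h⟩)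
    · exact ac h
    · exact ac h.symm
  · rintro (⟨rfl, h⟩ | ⟨rfl, h⟩)
    · exact bc h
    · exact bc h.symm

theorem m1_bc : m1 m a b c α β γ b c = α := by
  unfold m1; simp

theorem m1_ac (ab : a ≠ b) (ac : a ≠ c) : m1 m a b c α β γ a c = β := by
  unfold m1; simp [ab, ac]

theorem m1_ab (ab : a ≠ b) (ac : a ≠ c) (bc : b ≠ c) : m1 m a b c α β γ a b = γ := by
  unfold m1; simp [ab, ac, bc]

end m1

theorem Sep.rg1 {r : ℕ} {m : V → V → ℕ} {A B : Finset V} {a b c : V} {α β γ τ : ℕ}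
    (h : Sep r m A B a b c α β γ τ) :
    IsRG r (insert a (insert b (insert c A))) (m1 m a b c α β γ) := by
  obtain ⟨rg, ab, ac, bc, aA, bA, cA, aB, bB, cB, disj, no, ho, ea, eb, ec, er⟩ := h
  have hsum : ∀ f : V → ℕ, ∑ y ∈ insert a (insert b (insert c A)), f y =
      f a + (f b + (f c + ∑ y ∈ A, f y)) := by
    intro f
    rw [sum_insert, sum_insert, sum_insert cA]
    · simp [bc, bA]
    · simp [ab, ac, aA]
  have hA : ∀ x ∈ A, ¬ (x = b ∨ x = c ∨ x = a) := by
    rintro x hx (rfl | rfl | rfl)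
    · exact bA hx
    · exact cA hx
    · exact aA hx
  have hsub : insert a (insert b (insert c A)) ⊆ insert a (insert b (insert c (A ∪ B))) := by
    intro x hx
    simp only [mem_insert, mem_union] at *
    tauto
  have hodd : ∀ X ⊆ insert a (insert b (insert c A)), Odd X.card → ¬ (b ∈ X ∧ c ∈ X) →
      ¬ (a ∈ X ∧ c ∈ X) → ¬ (a ∈ X ∧ b ∈ X) →
      cc (m1 m a b c α β γ) X X + r ≤ r * X.card := by
    intro X hX hXo h1 h2 h3
    rw [cc_congr (m' := m)]
    · exact rg.odd X (hX.trans hsub) hXo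
    · intro x hx y hy
      unfold m1
      rw [if_neg, if_neg, if_neg]
      · rintro (⟨rfl, rfl⟩ | ⟨rfl, rfl⟩)
        · exact h3 ⟨hx, hy⟩
        · exact h3 ⟨hy, hx⟩
      · rintro (⟨rfl, rfl⟩ | ⟨rfl, rfl⟩)
        · exact h2 ⟨hx, hy⟩
        · exact h2 ⟨hy, hx⟩
      · rintro (⟨rfl, rfl⟩ | ⟨rfl, rfl⟩)
        · exact h1 ⟨hx, hy⟩
        · exact h1 ⟨hy, hx⟩
  have hcard : (insert a (insert b (insert c A))).card = A.card + 3 := by
    rw [card_insert_of_notMem, card_insert_of_notMem, card_insert_of_notMem cA]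
    · simp [bc, bA]
    · simp [ab, ac, aA]
  refine isRG_of_half (m1_symm rg.symm) (m1_loop rg.loop ab ac bc) ?_ ?_
  · intro x hx
    rw [hsum]
    simp only [mem_insert] at hx
    rcases hx with rfl | rfl | rfl | hx
    · rw [m1_loop rg.loop ab ac bc, m1_ab ab ac bc, m1_ac ab ac,
        sum_congr rfl fun y hy => (m1_symm rg.symm x y).trans (m1_left (hA y hy)), ea]
      omega
    · rw [m1_loop rg.loop ab ac bc, m1_symm rg.symm x a, m1_ab ab ac bc, m1_bc,
        sum_congr rfl fun y hy => (m1_symm rg.symm x y).trans (m1_left (hA y hy)), eb]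
      omega
    · rw [m1_loop rg.loop ab ac bc, m1_symm rg.symm x a, m1_ac ab ac, m1_symm rg.symm x b, m1_bc,
        sum_congr rfl fun y hy => (m1_symm rg.symm x y).trans (m1_left (hA y hy)), ec]
      omega
    · rw [m1_left (hA x hx), m1_left (hA x hx), m1_left (hA x hx),
        sum_congr rfl fun y _ => m1_left (hA x hx)]
      have h2 := rg.reg x (by simp [hx])
      rw [sum_S ab ac bc aA bA cA aB bB cB disj] at h2
      rw [← h2, sum_eq_zero (s := B) (fun y hy => no x hx y hy), add_zero]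
  · intro X hX hXo
    by_cases h1 : ¬ (b ∈ X ∧ c ∈ X) ∧ ¬ (a ∈ X ∧ c ∈ X) ∧ ¬ (a ∈ X ∧ b ∈ X)
    · left
      exact hodd X hX hXo h1.1 h1.2.1 h1.2.2
    · right
      apply hodd _ sdiff_subset
      · rw [card_sdiff_of_subset hX, hcard]
        have := card_le_card hX
        rw [hcard] at this
        exact Nat.Even.sub_odd this (ho.add_odd (by decide)) hXo
      · simp only [mem_sdiff]; tauto
      · simp only [mem_sdiff]; tauto
      · simp only [mem_sdiff]; tauto

end Pool.Agent.H40.RG
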