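import Pool.Agent.H40.RG.Sep3

/-!
# 3-separations of r-graphs: the part on `{v} ∪ {a, b, c} ∪ B`
-/

namespace Pool.Agent.H40.RG

open Finset

variable {V : Type*} [DecidableEq V]

section m2

variable {m : V → V → ℕ} {a b c v : V} {α β γ τ : ℕ}

theorem m2_symm (hs : ∀ x y, m x y = m y x) (x y : V) :
    m2 m a b c v α β γ τ x y = m2 m a b c v α β γ τ y x := by
  unfold m2
  have e1 : ((x = b ∧ y = c) ∨ (x = c ∧ y = b)) ↔ ((y = b ∧ x = c) ∨ (y = c ∧ x = b)) := by tauto
  by_cases hx : x = v <;> by_cases hy : y = v
  · rw [hx, hy]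
  · rw [if_pos hx, if_neg hy, if_pos hx]
  · rw [if_neg hx, if_pos hy, if_pos hy]
  · rw [if_neg hx, if_neg hy, if_neg hy, if_neg hx]
    simp only [e1, hs x y]

theorem m2_loop (hl : ∀ x, m x x = 0) (bc : b ≠ c) (va : v ≠ a) (vb : v ≠ b) (vc : v ≠ c) (x : V) :
    m2 m a b c v α β γ τ x x = 0 := by
  unfold m2
  by_cases hx : x = v
  · subst hx
    rw [if_pos rfl, if_neg va, if_neg vb, if_neg vc]
  · rw [if_neg hx, if_neg hx, if_neg, hl]
    rintro (⟨rfl, h⟩ | ⟨rfl, h⟩)
    · exact bc h
    · exact bc h.symm

theorem m2_of {x y : V} (hx : x ≠ v) (hy : y ≠ v)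
    (h : ¬ ((x = b ∧ y = c) ∨ (x = c ∧ y = b))) : m2 m a b c v α β γ τ x y = m x y := by
  unfold m2
  rw [if_neg hx, if_neg hy, if_neg h]

theorem m2_bc (vb : v ≠ b) (vc : v ≠ c) : m2 m a b c v α β γ τ b c = m b c + τ := by
  unfold m2
  rw [if_neg vb.symm, if_neg vc.symm, if_pos (Or.inl ⟨rfl, rfl⟩)]

theorem m2_va : m2 m a b c v α β γ τ v a = α + τ := by
  unfold m2
  rw [if_pos rfl, if_pos rfl]

theorem m2_vb (ab : a ≠ b) : m2 m a b c v α β γ τ v b = β := by
  unfold m2
  rw [if_pos rfl, if_neg ab.symm, if_pos rfl]

theorem m2_vc (ac : a ≠ c) (bc : b ≠ c) : m2 m a b c v α β γ τ v c = γ := by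
  unfold m2
  rw [if_pos rfl, if_neg ac.symm, if_neg bc.symm, if_pos rfl]

theorem m2_v {y : V} (h1 : y ≠ a) (h2 : y ≠ b) (h3 : y ≠ c) : m2 m a b c v α β γ τ v y = 0 := by
  unfold m2
  rw [if_pos rfl, if_neg h1, if_neg h2, if_neg h3]

end m2

theorem Sep.rg2 {r : ℕ} {m : V → V → ℕ} {A B : Finset V} {a b c : V} {α β γ τ : ℕ}
    (h : Sep r m A B a b c α β γ τ) (hB : Even B.card) {v : V} (hv : v ∈ A) :
    IsRG r (insert v (insert a (insert b (insert c B)))) (m2 m a b c v α β γ τ) := by
  obtain ⟨rg, ab, ac, bc, aA, bA, cA, aB, bB, cB, disj, no, ho, ea, eb, ec, er⟩ := h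
  have vB : v ∉ B := disjoint_left.1 disj hv
  have va : v ≠ a := fun h => aA (h ▸ hv)
  have vb : v ≠ b := fun h => bA (h ▸ hv)
  have vc : v ≠ c := fun h => cA (h ▸ hv)
  have hvn : v ∉ insert a (insert b (insert c B)) := by
    simp [va, vb, vc, vB]
  have hsum : ∀ f : V → ℕ, ∑ y ∈ insert v (insert a (insert b (insert c B))), f y =
      f v + (f a + (f b + (f c + ∑ y ∈ B, f y))) := by
    intro f
    rw [sum_insert hvn, sum_insert, sum_insert, sum_insert cB]
    · simp [bc, bB]
    · simp [ab, ac, aB]
  have hcard : (insert v (insert a (insert b (insert c B)))).card = B.card + 4 := by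
    rw [card_insert_of_notMem hvn, card_insert_of_notMem, card_insert_of_notMem,
      card_insert_of_notMem cB]
    · simp [bc, bB]
    · simp [ab, ac, aB]
  have hBn : ∀ x ∈ B, x ≠ v ∧ x ≠ a ∧ x ≠ b ∧ x ≠ c := by
    intro x hx
    refine ⟨?_, ?_, ?_, ?_⟩
    · rintro rfl; exact vB hx
    · rintro rfl; exact aB hx
    · rintro rfl; exact bB hx
    · rintro rfl; exact cB hx
  have hSsum := fun x hx => (sum_S ab ac bc aA bA cA aB bB cB disj (fun y => m x y)).symm.trans
    (rg.reg x hx)
  refine isRG_of_avoid (m2_symm rg.symm) (m2_loop rg.loop bc va vb vc) ?_ ?_ v ?_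
  · intro x hx
    rw [hsum]
    simp only [mem_insert] at hx
    rcases hx with rfl | rfl | rfl | rfl | hx
    · rw [m2_loop rg.loop bc va vb vc, m2_va, m2_vb ab, m2_vc ac bc,
        sum_eq_zero fun y hy => m2_v (hBn y hy).2.1 (hBn y hy).2.2.1 (hBn y hy).2.2.2]
      omega
    · -- x = a
      have h1 := hSsum x (by simp)
      rw [m2_symm rg.symm x v, m2_va, m2_loop rg.loop bc va vb vc,
        m2_of va.symm vb.symm (by rintro (⟨h, _⟩ | ⟨h, _⟩) <;> contradiction),
        m2_of va.symm vc.symm (by rintro (⟨h, _⟩ | ⟨h, _⟩) <;> contradiction),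
        sum_congr rfl fun y hy => m2_of va.symm (hBn y hy).1
          (by rintro (⟨h, _⟩ | ⟨h, _⟩) <;> contradiction), ← ea]
      rw [sum_congr rfl fun y (_ : y ∈ A) => rg.symm x y, rg.loop] at h1
      omega
    · -- x = b
      have h1 := hSsum x (by simp)
      rw [m2_symm rg.symm x v, m2_vb ab, m2_loop rg.loop bc va vb vc,
        m2_of vb.symm va.symm (by
          rintro (⟨_, h⟩ | ⟨h, _⟩)
          · exact ac h
          · exact bc h),
        m2_bc vb vc,
        sum_congr rfl fun y hy => m2_of vb.symm (hBn y hy).1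
          (by
            rintro (⟨_, h⟩ | ⟨h, _⟩)
            · exact (hBn y hy).2.2.2 h
            · exact bc h)]
      rw [sum_congr rfl fun y (_ : y ∈ A) => rg.symm x y, rg.loop, eb] at h1
      omega
    · -- x = c
      have h1 := hSsum x (by simp)
      rw [m2_symm rg.symm x v, m2_vc ac bc, m2_loop rg.loop bc va vb vc,
        m2_of vc.symm va.symm (by
          rintro (⟨h, _⟩ | ⟨_, h⟩)
          · exact bc h.symm
          · exact ab h),
        m2_symm rg.symm x b, m2_bc vb vc,
        sum_congr rfl fun y hy => m2_of vc.symm (hBn y hy).1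
          (by
            rintro (⟨h, _⟩ | ⟨_, h⟩)
            · exact bc h.symm
            · exact (hBn y hy).2.2.1 h)]
      rw [sum_congr rfl fun y (_ : y ∈ A) => rg.symm x y, rg.loop, ec, rg.symm x b] at h1
      omega
    · -- x in B
      have h1 := hSsum x (by simp [hx])
      have h0 := hBn x hx
      rw [m2_symm rg.symm x v, m2_v h0.2.1 h0.2.2.1 h0.2.2.2,
        m2_of h0.1 va.symm (by rintro (⟨h, _⟩ | ⟨h, _⟩) <;> tauto),
        m2_of h0.1 vb.symm (by rintro (⟨h, _⟩ | ⟨h, _⟩) <;> tauto),
        m2_of h0.1 vc.symm (by rintro (⟨h, _⟩ | ⟨h, _⟩) <;> tauto),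
        sum_congr rfl fun y hy => m2_of h0.1 (hBn y hy).1
          (by rintro (⟨h, _⟩ | ⟨h, _⟩) <;> tauto)]
      rw [sum_eq_zero (s := A) fun y hy => (rg.symm x y).trans (no y hy x hx)] at h1
      omega
  · rw [hcard]
    exact hB.add (by decide)
  · intro X hX hXo hvX
    have hXS : X ⊆ insert a (insert b (insert c (A ∪ B))) := by
      intro x hx
      have := hX hx
      simp only [mem_insert, mem_union] at *
      rcases this with rfl | h
      · exact absurd hx hvX
      · tauto
    have hXA : Disjoint X A := by
      rw [disjoint_left]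
      intro x hx hxA
      have := hX hx
      simp only [mem_insert] at this
      rcases this with rfl | rfl | rfl | rfl | h
      · exact hvX hx
      · exact aA hxA
      · exact bA hxA
      · exact cA hxA
      · exact disjoint_left.1 disj hxA h
    have hXv : ∀ x ∈ X, x ≠ v := fun x hx h => hvX (h ▸ hx)
    by_cases hbc : b ∈ X ∧ c ∈ X
    · have h1 : cc (m2 m a b c v α β γ τ) X X = cc m X X + 2 * τ := by
        have h2 : ∀ x ∈ X, ∀ y ∈ X, m2 m a b c v α β γ τ x y = m x y +
            ((if x = b then (if y = c then τ else 0) else 0) +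
              (if x = c then (if y = b then τ else 0) else 0)) := by
          intro x hx y hy
          by_cases h3 : (x = b ∧ y = c) ∨ (x = c ∧ y = b)
          · rcases h3 with ⟨rfl, rfl⟩ | ⟨rfl, rfl⟩
            · rw [m2_bc vb vc]; simp [bc]
            · rw [m2_symm rg.symm, m2_bc vb vc, rg.symm]; simp [bc.symm]
          · rw [m2_of (hXv x hx) (hXv y hy) h3]
            have h4 : (if x = b then (if y = c then τ else 0) else 0) = 0 := by
              split_ifs with h5 h6
              · exact absurd (Or.inl ⟨h5, h6⟩) h3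
              · rfl
              · rfl
            have h5 : (if x = c then (if y = b then τ else 0) else 0) = 0 := by
              split_ifs with h5 h6
              · exact absurd (Or.inr ⟨h5, h6⟩) h3
              · rfl
              · rfl
            rw [h4, h5, add_zero, add_zero]
        rw [cc_congr h2]
        unfold cc
        simp only [sum_add_distrib, sum_ite_irrel, sum_ite_eq', hbc.1, hbc.2, if_true, sum_const_zero]
        omega
      rw [h1]
      have hA := cut_A rg ab ac bc aA bA cA aB bB cB disj no
      by_cases ha : a ∈ X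
      · have h2 := rg.cut hXS
        have h3 : cc m X {a} + cc m X {b} = cc m X {a} + cc m X {b} := rfl
        have h4 : ∑ x ∈ A, m x a + (∑ x ∈ A, m x b + ∑ x ∈ A, m x c) ≤
            cc m X (insert a (insert b (insert c (A ∪ B))) \ X) := by
          have h5 : cc m {a, b, c} A ≤ cc m X (insert a (insert b (insert c (A ∪ B))) \ X) := by
            apply cc_mono
            · intro x hx
              simp only [mem_insert, mem_singleton] at hx
              rcases hx with rfl | rfl | rfl
              · exact ha
              · exact hbc.1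
              · exact hbc.2
            · intro x hx
              rw [mem_sdiff]
              exact ⟨by simp [hx], disjoint_right.1 hXA hx⟩
          refine le_trans (le_of_eq ?_) h5
          rw [cc_comm rg.symm]
          unfold cc
          rw [← sum_add_distrib, ← sum_add_distrib]
          refine sum_congr rfl fun x _ => ?_
          rw [sum_insert (by simp [ab, ac]), sum_pair bc]
        rw [ea, eb, ec] at h4
        omega
      · -- use `X ∪ A ∪ {a}`
        have hsub : insert a (X ∪ A) ⊆ insert a (insert b (insert c (A ∪ B))) := by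
          intro x hx
          rcases mem_insert.1 hx with rfl | hx
          · simp
          · rcases mem_union.1 hx with hx | hx
            · exact hXS hx
            · simp [hx]
        have haXA : a ∉ X ∪ A := by simp [ha, aA]
        have hc2 : (insert a (X ∪ A)).card = X.card + A.card + 1 := by
          rw [card_insert_of_notMem haXA, card_union_of_disjoint hXA]
        have h2 := rg.odd _ hsub (by rw [hc2]; exact (hXo.add_odd ho).add_one)
        rw [hc2] at h2
        have h3 : cc m X X + cc m A A + 2 * (∑ x ∈ A, m x a + (∑ x ∈ A, m x b + ∑ x ∈ A, m x c)) ≤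
            cc m (insert a (X ∪ A)) (insert a (X ∪ A)) := by
          have hd : Disjoint ({a} : Finset V) (X ∪ A) := by
            rw [disjoint_singleton_left]; exact haXA
          have e1 : cc m (X ∪ A) (X ∪ A) = cc m X X + cc m X A + (cc m A X + cc m A A) := by
            rw [cc_union_left hXA, cc_union_right hXA, cc_union_right hXA]
          have e2 : cc m {a} (X ∪ A) = cc m {a} X + cc m {a} A := cc_union_right hXA
          have e3 : cc m (X ∪ A) {a} = cc m X {a} + cc m A {a} := cc_union_left hXA
          rw [insert_eq, cc_union_left hd, cc_union_right hd, cc_union_right hd, e1, e2, e3,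
            cc_comm rg.symm (X := A) (Y := X)]
          have h4 : ∑ x ∈ A, m x b + ∑ x ∈ A, m x c ≤ cc m X A := by
            have h5 : cc m {b, c} A ≤ cc m X A := by
              apply cc_mono _ (subset_refl A)
              intro x hx
              simp only [mem_insert, mem_singleton] at hx
              rcases hx with rfl | rfl
              · exact hbc.1
              · exact hbc.2
            refine le_trans (le_of_eq ?_) h5
            rw [cc_comm rg.symm]
            unfold cc
            rw [← sum_add_distrib]
            refine sum_congr rfl fun x _ => ?_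
            rw [sum_pair bc]
          have h5 : ∑ x ∈ A, m x a = cc m A {a} := by rw [cc_singleton_right]
          have h6 : ∑ x ∈ A, m x a = cc m {a} A := by rw [h5, cc_comm rg.symm]
          omega
        rw [ea, eb, ec] at h3 hA
        have h7 : r * (X.card + A.card + 1) = r * X.card + r * A.card + r := by ring
        omega
    · rw [cc_congr (m' := m)]
      · exact rg.odd X hXS hXo
      · intro x hx y hy
        apply m2_of (hXv x hx) (hXv y hy)
        rintro (⟨rfl, rfl⟩ | ⟨rfl, rfl⟩)
        · exact hbc ⟨hx, hy⟩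
        · exact hbc ⟨hy, hx⟩

end Pool.Agent.H40.RG
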