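import Pool.Agent.H40.RG.Tight
import Pool.Agent.H40.RG.Match

/-!
# Removing a perfect matching; r-graphs with at most eight vertices
-/

namespace Pool.Agent.H40.RG

open Finset

variable {V : Type*} [DecidableEq V]

/-- remove a perfect matching -/
def rem (m : V → V → ℕ) (S : Finset V) (p : V → V) : V → V → ℕ := fun x y =>
  if x ∈ S ∧ y ∈ S ∧ p x = y then m x y - 1 else m x y

theorem rem_add {m : V → V → ℕ} {S : Finset V} {p : V → V} (hp : ∀ x ∈ S, m x (p x) ≠ 0)
    {x y : V} (hx : x ∈ S) (hy : y ∈ S) : m x y = rem m S p x y + if p x = y then 1 else 0 := by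
  unfold rem
  by_cases hxy : p x = y
  · subst hxy
    rw [if_pos ⟨hx, hy, rfl⟩, if_pos rfl]
    have := hp x hx
    omega
  · rw [if_neg (fun h => hxy h.2.2), if_neg hxy, add_zero]

theorem isRG_rem {r : ℕ} {m : V → V → ℕ} {S : Finset V} (h : IsRG (r + 1) S m) {p : V → V}
    (hp : ∀ x ∈ S, p x ∈ S ∧ p (p x) = x ∧ m x (p x) ≠ 0)
    (hk : ∀ X ⊆ S, Odd X.card → r + (X.filter fun x => p x ∉ X).card ≤ cc m X (S \ X)) :
    IsRG r S (rem m S p) := by
  have hp' : ∀ x ∈ S, m x (p x) ≠ 0 := fun x hx => (hp x hx).2.2
  refine ⟨?_, ?_, ?_, ?_⟩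
  · intro x y
    unfold rem
    by_cases hxy : x ∈ S ∧ y ∈ S ∧ p x = y
    · have hyx : y ∈ S ∧ x ∈ S ∧ p y = x := by
        refine ⟨hxy.2.1, hxy.1, ?_⟩
        rw [← hxy.2.2]
        exact (hp x hxy.1).2.1
      rw [if_pos hxy, if_pos hyx, h.symm x y]
    · have hyx : ¬ (y ∈ S ∧ x ∈ S ∧ p y = x) := by
        intro hyx
        apply hxy
        refine ⟨hyx.2.1, hyx.1, ?_⟩
        rw [← hyx.2.2]
        exact (hp y hyx.1).2.1
      rw [if_neg hxy, if_neg hyx, h.symm x y]
  · intro x
    unfold rem
    rw [h.loop]
    simp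
  · intro x hx
    have h1 := h.reg x hx
    rw [sum_congr rfl fun y hy => rem_add hp' hx hy, sum_add_distrib, sum_ite_eq,
      if_pos (hp x hx).1] at h1
    omega
  · intro X hX ho
    have h1 := h.cut hX
    have h2 := hk X hX ho
    have h3 : cc m X X = cc (rem m S p) X X + (X.filter fun x => p x ∈ X).card := by
      unfold cc
      rw [card_filter, ← sum_add_distrib]
      refine sum_congr rfl fun x hx => ?_
      rw [sum_congr rfl fun y hy => rem_add hp' (hX hx) (hX hy), sum_add_distrib, sum_ite_eq]
    have h4 : (X.filter fun x => p x ∈ X).card + (X.filter fun x => p x ∉ X).card = X.card :=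
      card_filter_add_card_filter_not _
    have h5 : (r + 1) * X.card = r * X.card + X.card := by ring
    omega

theorem col_rem {r : ℕ} {m : V → V → ℕ} {S : Finset V} {p : V → V}
    (hp : ∀ x ∈ S, p x ∈ S ∧ p (p x) = x ∧ m x (p x) ≠ 0) (h : Col r S (rem m S p)) :
    Col (r + 1) S m := by
  obtain ⟨q, hq, hqc⟩ := h
  refine ⟨Fin.cons p q, ?_, ?_⟩
  · intro i
    refine Fin.cases ?_ ?_ i
    · intro x hx
      exact ⟨(hp x hx).1, (hp x hx).2.1⟩
    · intro j x hx
      exact hq j x hx
  · intro x hx y hy
    rw [Fin.card_filter_univ_succ]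
    rw [rem_add (fun x hx => (hp x hx).2.2) hx hy, ← hqc x hx y hy]
    simp only [Fin.cons_zero, Fin.cons_succ]
    split_ifs <;> omega

theorem col_small : ∀ n, n ≤ 8 → ∀ (r : ℕ) (S : Finset V) (m : V → V → ℕ), S.card = n →
    IsRG r S m → Col r S m := by
  intro n
  induction n using Nat.strong_induction_on with
  | _ n ih =>
    intro hn r
    induction r with
    | zero =>
      intro S m _ h
      exact col_zero h
    | succ r ihr =>
      intro S m hS h
      have hev := h.even_card (Nat.succ_pos r)
      by_cases hT : ∃ X ⊆ S, Odd X.card ∧ 3 ≤ X.card ∧ 3 ≤ (S \ X).card ∧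
          cc m X (S \ X) = r + 1
      · obtain ⟨X, hX, ho, h3, h3', ht⟩ := hT
        obtain ⟨w, hw⟩ := card_pos.1 (show 0 < X.card by omega)
        obtain ⟨u, hu⟩ := card_pos.1 (show 0 < (S \ X).card by omega)
        have hsum : (S \ X).card + X.card = S.card := card_sdiff_add_card_eq_card hX
        have ho' : Odd (S \ X).card := by
          rw [card_sdiff_of_subset hX]
          exact Nat.Even.sub_odd (card_le_card hX) hev ho
        have e : S \ (S \ X) = X := Finset.sdiff_sdiff_eq_self hX
        refine col_tight h hX ht hu hw ?_ ?_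
        · refine ih (insert u X).card ?_ ?_ _ _ _ rfl (isRG_ctr h hX ho ht hu)
          · rw [card_insert_of_notMem (mem_sdiff.1 hu).2]; omega
          · rw [card_insert_of_notMem (mem_sdiff.1 hu).2]; omega
        · have hw' : w ∉ S \ X := fun hw' => (mem_sdiff.1 hw').2 hw
          have h1 := isRG_ctr h (X := S \ X) sdiff_subset ho' (by
            rw [e, cc_comm h.symm]; exact ht) (u := w) (by rw [e]; exact hw)
          rw [e] at h1
          refine ih (insert w (S \ X)).card ?_ ?_ _ _ _ rfl h1
          · rw [card_insert_of_notMem hw']; omega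
          · rw [card_insert_of_notMem hw']; omega
      · obtain ⟨p, hp⟩ := exists_pm h (Nat.succ_pos r)
        refine col_rem hp (ihr S (rem m S p) hS (isRG_rem h hp ?_))
        intro X hX ho
        have hcut := h.cut_ge hX ho
        have hsum : (S \ X).card + X.card = S.card := card_sdiff_add_card_eq_card hX
        have hk1 : (X.filter fun x => p x ∉ X).card ≤ X.card := card_filter_le _ _
        have hk2 : (X.filter fun x => p x ∉ X).card ≤ (S \ X).card := by
          refine card_le_card_of_injOn p ?_ ?_
          · intro x hx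
            rw [mem_coe, mem_filter] at hx
            exact mem_sdiff.2 ⟨(hp x (hX hx.1)).1, hx.2⟩
          · intro x hx y hy hxy
            rw [mem_coe, mem_filter] at hx hy
            rw [← (hp x (hX hx.1)).2.1, ← (hp y (hX hy.1)).2.1, hxy]
        have ho' : Odd (S \ X).card := by
          rw [card_sdiff_of_subset hX]
          exact Nat.Even.sub_odd (card_le_card hX) hev ho
        by_cases hk : (X.filter fun x => p x ∉ X).card ≤ 1
        · omega
        · obtain ⟨t, ht⟩ := h.cut_parity hX ho
          have hne : cc m X (S \ X) ≠ r + 1 := by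
            intro he
            apply hT
            refine ⟨X, hX, ho, ?_, ?_, he⟩
            · obtain ⟨a, ha⟩ := ho; omega
            · obtain ⟨a, ha⟩ := ho'; omega
          have h4 : (X.filter fun x => p x ∉ X).card ≤ 3 := by
            obtain ⟨a, ha⟩ := ho
            obtain ⟨b, hb⟩ := ho'
            omega
          omega

end Pool.Agent.H40.RG
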