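import Pool.Agent.H40.RG.Basic

/-!
# Tight cuts: contraction and gluing of colourings
-/

namespace Pool.Agent.H40.RG

open Finset

variable {V : Type*} [DecidableEq V]

/-- contraction of the set `Z` to the vertex `u` -/
def ctr (m : V → V → ℕ) (Z : Finset V) (u : V) : V → V → ℕ := fun x y =>
  if x = u then (if y = u then 0 else ∑ z ∈ Z, m z y) else if y = u then ∑ z ∈ Z, m x z else m x y

section ctr

variable {m : V → V → ℕ} {Z : Finset V} {u : V}

theorem ctr_of_ne {x y : V} (hx : x ≠ u) (hy : y ≠ u) : ctr m Z u x y = m x y := by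
  simp [ctr, hx, hy]

theorem ctr_right {x : V} (hx : x ≠ u) : ctr m Z u x u = ∑ z ∈ Z, m x z := by
  simp [ctr, hx]

theorem ctr_left {y : V} (hy : y ≠ u) : ctr m Z u u y = ∑ z ∈ Z, m z y := by
  simp [ctr, hy]

theorem ctr_self : ctr m Z u u u = 0 := by
  simp [ctr]

end ctr

theorem isRG_ctr {r : ℕ} {m : V → V → ℕ} {S X : Finset V} (h : IsRG r S m) (hX : X ⊆ S)
    (ho : Odd X.card) (ht : cc m X (S \ X) = r) {u : V} (hu : u ∈ S \ X) :
    IsRG r (insert u X) (ctr m (S \ X) u) := by
  have huX : u ∉ X := (mem_sdiff.1 hu).2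
  have hne : ∀ x ∈ X, x ≠ u := fun x hx hxu => huX (hxu ▸ hx)
  refine isRG_of_avoid ?_ ?_ ?_ ?_ u ?_
  · intro x y
    by_cases hx : x = u <;> by_cases hy : y = u
    · rw [hx, hy]
    · subst hx
      rw [ctr_left hy, ctr_right hy]
      exact sum_congr rfl fun z _ => h.symm z y
    · subst hy
      rw [ctr_left hx, ctr_right hx]
      exact sum_congr rfl fun z _ => h.symm x z
    · rw [ctr_of_ne hx hy, ctr_of_ne hy hx, h.symm]
  · intro x
    by_cases hx : x = u
    · rw [hx, ctr_self]
    · rw [ctr_of_ne hx hx, h.loop]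
  · intro x hx
    rw [sum_insert huX]
    rcases mem_insert.1 hx with rfl | hx
    · rw [ctr_self, zero_add]
      rw [sum_congr rfl fun y hy => ctr_left (hne y hy)]
      rw [← ht, cc_comm h.symm]
      unfold cc
      exact sum_comm
    · rw [ctr_right (hne x hx), sum_congr rfl fun y hy => ctr_of_ne (hne x hx) (hne y hy)]
      rw [add_comm, ← h.reg x (hX hx)]
      conv_rhs => rw [← union_sdiff_of_subset hX]
      rw [sum_union disjoint_sdiff]
  · rw [card_insert_of_notMem huX]
    exact ho.add_one
  · intro Y hY hYo huY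
    have hYX : Y ⊆ X := by
      intro y hy
      rcases mem_insert.1 (hY hy) with rfl | h'
      · exact absurd hy huY
      · exact h'
    rw [cc_congr (m' := m) fun x hx y hy => ctr_of_ne (hne x (hYX hx)) (hne y (hYX hy))]
    exact h.odd Y (hYX.trans hX) hYo

/-- a list of length `r` with prescribed multiplicities -/
theorem exists_labelling {r : ℕ} {W : Type*} [DecidableEq W] (A : Finset W) (n : W → ℕ)
    (h : ∑ a ∈ A, n a = r) :
    ∃ f : Fin r → W, ∀ w, (univ.filter fun i => f i = w).card = if w ∈ A then n w else 0 := by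
  classical
  have hT : (A.sigma fun a => range (n a)).card = r := by
    rw [card_sigma]
    simpa using h
  let e := (A.sigma fun a => range (n a)).equivFinOfCardEq hT
  refine ⟨fun i => (e.symm i).1.1, ?_⟩
  intro w
  have h1 : (univ.filter fun i => (e.symm i).1.1 = w).card =
      ((A.sigma fun a => range (n a)).filter fun s => s.1 = w).card := by
    refine card_bij (fun i _ => (e.symm i).1) ?_ ?_ ?_
    · intro i hi
      rw [mem_filter] at *
      exact ⟨(e.symm i).2, hi.2⟩
    · intro i _ j _ hij
      exact e.symm.injective (Subtype.ext hij)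
    · intro s hs
      rw [mem_filter] at hs
      refine ⟨e ⟨s, hs.1⟩, ?_, ?_⟩
      · rw [mem_filter]
        refine ⟨mem_univ _, ?_⟩
        rw [Equiv.symm_apply_apply]
        exact hs.2
      · rw [Equiv.symm_apply_apply]
  rw [h1]
  have h2 : ((A.sigma fun a => range (n a)).filter fun s => s.1 = w) =
      ((A.filter fun a => a = w).sigma fun a => range (n a)) := by
    ext s
    simp only [mem_filter, mem_sigma, mem_range]
    tauto
  rw [h2, card_sigma]
  simp only [card_range]
  rw [filter_eq']
  split_ifs <;> simp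

/-- gluing of colourings along a tight odd cut -/
theorem col_tight {r : ℕ} {m : V → V → ℕ} {S X : Finset V} (h : IsRG r S m) (hX : X ⊆ S)
    (ht : cc m X (S \ X) = r) {u w : V} (hu : u ∈ S \ X) (hw : w ∈ X)
    (h1 : Col r (insert u X) (ctr m (S \ X) u)) (h2 : Col r (insert w (S \ X)) (ctr m X w)) :
    Col r S m := by
  classical
  obtain ⟨p, hp, hpc⟩ := h1
  obtain ⟨q, hq, hqc⟩ := h2
  have huX : u ∉ X := (mem_sdiff.1 hu).2
  have hneu : ∀ x ∈ X, x ≠ u := fun x hx hxu => huX (hxu ▸ hx)
  have hnew : ∀ x ∈ S \ X, x ≠ w := fun x hx hxw => (mem_sdiff.1 hx).2 (hxw ▸ hw)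
  obtain ⟨f, hf⟩ := exists_labelling (r := r) (X ×ˢ (S \ X)) (fun e => m e.1 e.2) (by
    rw [sum_product]; exact ht)
  have hfX : ∀ i, (f i).1 ∈ X ∧ (f i).2 ∈ S \ X := by
    intro i
    by_contra hn
    have h3 := hf (f i)
    rw [if_neg (by rw [mem_product]; exact hn)] at h3
    rw [card_eq_zero] at h3
    have : i ∈ (∅ : Finset (Fin r)) := by rw [← h3]; simp
    simp at this
  -- partners
  have hpu : ∀ i, p i u ∈ X := by
    intro i
    have h3 := (hp i u (mem_insert_self _ _)).1
    rcases mem_insert.1 h3 with h4 | h4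
    · exfalso
      have h5 := hpc u (mem_insert_self _ _) u (mem_insert_self _ _)
      rw [ctr_self, card_eq_zero] at h5
      have : i ∈ (∅ : Finset (Fin r)) := by rw [← h5]; simpa using h4
      simp at this
    · exact h4
  have hqw : ∀ i, q i w ∈ S \ X := by
    intro i
    have h3 := (hq i w (mem_insert_self _ _)).1
    rcases mem_insert.1 h3 with h4 | h4
    · exfalso
      have h5 := hqc w (mem_insert_self _ _) w (mem_insert_self _ _)
      rw [ctr_self, card_eq_zero] at h5
      have : i ∈ (∅ : Finset (Fin r)) := by rw [← h5]; simpa using h4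
      simp at this
    · exact h4
  obtain ⟨σ, hσ⟩ := exists_perm (fun i => (f i).1) (fun i => p i u) (by
    intro x
    by_cases hx : x ∈ X
    · rw [hpc u (mem_insert_self _ _) x (mem_insert_of_mem hx), ctr_left (hneu x hx)]
      rw [card_eq_sum_card_fiberwise (f := fun i => (f i).2) (t := S \ X)
        (fun i _ => (hfX i).2)]
      refine sum_congr rfl fun y hy => ?_
      have h3 := hf (x, y)
      rw [if_pos (mem_product.2 ⟨hx, hy⟩)] at h3
      rw [h.symm y x, ← h3, filter_filter]
      congr 1
      ext i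
      simp only [mem_filter, mem_univ, true_and, Prod.ext_iff]
    · rw [filter_false_of_mem, filter_false_of_mem]
      · intro i _ h3; exact hx (h3 ▸ hpu i)
      · intro i _ h3; exact hx (h3 ▸ (hfX i).1))
  obtain ⟨τ, hτ⟩ := exists_perm (fun i => (f i).2) (fun i => q i w) (by
    intro y
    by_cases hy : y ∈ S \ X
    · rw [hqc w (mem_insert_self _ _) y (mem_insert_of_mem hy), ctr_left (hnew y hy)]
      rw [card_eq_sum_card_fiberwise (f := fun i => (f i).1) (t := X)
        (fun i _ => (hfX i).1)]
      refine sum_congr rfl fun x hx => ?_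
      have h3 := hf (x, y)
      rw [if_pos (mem_product.2 ⟨hx, hy⟩)] at h3
      rw [← h3, filter_filter]
      congr 1
      ext i
      simp only [mem_filter, mem_univ, true_and, Prod.ext_iff]
      tauto
    · rw [filter_false_of_mem, filter_false_of_mem]
      · intro i _ h3; exact hy (h3 ▸ hqw i)
      · intro i _ h3; exact hy (h3 ▸ (hfX i).2))
  -- the glued matchings
  set P : Fin r → V → V := fun i x =>
    if x ∈ X then (if x = (f i).1 then (f i).2 else p (σ i) x)
    else (if x = (f i).2 then (f i).1 else q (τ i) x) with hP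
  have hP1 : ∀ i, ∀ x ∈ X, x ≠ (f i).1 → P i x = p (σ i) x ∧ p (σ i) x ∈ X ∧ p (σ i) x ≠ (f i).1 := by
    intro i x hx hne
    have h3 : P i x = p (σ i) x := by rw [hP]; simp [hx, hne]
    have h4 := hp (σ i) x (mem_insert_of_mem hx)
    have h5 := hp (σ i) u (mem_insert_self _ _)
    refine ⟨h3, ?_, ?_⟩
    · rcases mem_insert.1 h4.1 with h6 | h6
      · exfalso
        apply hne
        rw [← hσ i, ← h6, h4.2]
      · exact h6
    · intro h6
      have h7 : p (σ i) (p (σ i) x) = p (σ i) (p (σ i) u) := by rw [h6, ← hσ i]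
      rw [h4.2, h5.2] at h7
      exact hneu x hx h7
  have hP2 : ∀ i, ∀ x ∈ S \ X, x ≠ (f i).2 → P i x = q (τ i) x ∧ q (τ i) x ∈ S \ X ∧
      q (τ i) x ≠ (f i).2 := by
    intro i x hx hne
    have h3 : P i x = q (τ i) x := by rw [hP]; simp [(mem_sdiff.1 hx).2, hne]
    have h4 := hq (τ i) x (mem_insert_of_mem hx)
    have h5 := hq (τ i) w (mem_insert_self _ _)
    refine ⟨h3, ?_, ?_⟩
    · rcases mem_insert.1 h4.1 with h6 | h6
      · exfalso
        apply hne
        rw [← hτ i, ← h6, h4.2]
      · exact h6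
    · intro h6
      have h7 : q (τ i) (q (τ i) x) = q (τ i) (q (τ i) w) := by rw [h6, ← hτ i]
      rw [h4.2, h5.2] at h7
      exact hnew x hx h7
  have hP3 : ∀ i, P i (f i).1 = (f i).2 := by
    intro i
    rw [hP]
    simp [(hfX i).1]
  have hP4 : ∀ i, P i (f i).2 = (f i).1 := by
    intro i
    rw [hP]
    simp [(mem_sdiff.1 (hfX i).2).2]
  refine ⟨P, ?_, ?_⟩
  · intro i x hx
    by_cases hxX : x ∈ X
    · by_cases hxf : x = (f i).1
      · rw [hxf, hP3, hP4]
        exact ⟨(mem_sdiff.1 (hfX i).2).1, rfl⟩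
      · obtain ⟨h3, h4, h5⟩ := hP1 i x hxX hxf
        rw [h3]
        refine ⟨hX h4, ?_⟩
        rw [(hP1 i _ h4 h5).1]
        exact (hp (σ i) x (mem_insert_of_mem hxX)).2
    · have hxX' : x ∈ S \ X := mem_sdiff.2 ⟨hx, hxX⟩
      by_cases hxf : x = (f i).2
      · rw [hxf, hP4, hP3]
        exact ⟨hX (hfX i).1, rfl⟩
      · obtain ⟨h3, h4, h5⟩ := hP2 i x hxX' hxf
        rw [h3]
        refine ⟨(mem_sdiff.1 h4).1, ?_⟩
        rw [(hP2 i _ h4 h5).1]
        exact (hq (τ i) x (mem_insert_of_mem hxX')).2
  · -- counting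
    have key1 : ∀ x ∈ X, ∀ y ∈ X, (univ.filter fun i => P i x = y).card = m x y := by
      intro x hx y hy
      rw [← ctr_of_ne (m := m) (Z := S \ X) (hneu x hx) (hneu y hy),
        ← hpc x (mem_insert_of_mem hx) y (mem_insert_of_mem hy)]
      refine card_bij (fun i _ => σ i) ?_ ?_ ?_
      · intro i hi
        rw [mem_filter] at *
        refine ⟨mem_univ _, ?_⟩
        by_cases hxf : x = (f i).1
        · exfalso
          rw [hxf, hP3] at hi
          exact (mem_sdiff.1 (hfX i).2).2 (hi.2 ▸ hy)
        · rw [← (hP1 i x hx hxf).1]; exact hi.2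
      · intro i _ j _ hij
        exact σ.injective hij
      · intro j hj
        rw [mem_filter] at hj
        refine ⟨σ.symm j, ?_, Equiv.apply_symm_apply _ _⟩
        rw [mem_filter]
        refine ⟨mem_univ _, ?_⟩
        have hxf : x ≠ (f (σ.symm j)).1 := by
          intro hxf
          have h3 := hσ (σ.symm j)
          rw [Equiv.apply_symm_apply, ← hxf] at h3
          have h4 := (hp j u (mem_insert_self _ _)).2
          rw [h3, hj.2] at h4
          exact hneu y hy h4
        rw [(hP1 _ x hx hxf).1, Equiv.apply_symm_apply]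
        exact hj.2
    have key2 : ∀ x ∈ S \ X, ∀ y ∈ S \ X, (univ.filter fun i => P i x = y).card = m x y := by
      intro x hx y hy
      rw [← ctr_of_ne (m := m) (Z := X) (hnew x hx) (hnew y hy),
        ← hqc x (mem_insert_of_mem hx) y (mem_insert_of_mem hy)]
      refine card_bij (fun i _ => τ i) ?_ ?_ ?_
      · intro i hi
        rw [mem_filter] at *
        refine ⟨mem_univ _, ?_⟩
        by_cases hxf : x = (f i).2
        · exfalso
          rw [hxf, hP4] at hi
          exact (mem_sdiff.1 hy).2 (hi.2 ▸ (hfX i).1)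
        · rw [← (hP2 i x hx hxf).1]; exact hi.2
      · intro i _ j _ hij
        exact τ.injective hij
      · intro j hj
        rw [mem_filter] at hj
        refine ⟨τ.symm j, ?_, Equiv.apply_symm_apply _ _⟩
        rw [mem_filter]
        refine ⟨mem_univ _, ?_⟩
        have hxf : x ≠ (f (τ.symm j)).2 := by
          intro hxf
          have h3 := hτ (τ.symm j)
          rw [Equiv.apply_symm_apply, ← hxf] at h3
          have h4 := (hq j w (mem_insert_self _ _)).2
          rw [h3, hj.2] at h4
          exact hnew y hy h4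
        rw [(hP2 _ x hx hxf).1, Equiv.apply_symm_apply]
        exact hj.2
    have key3 : ∀ x ∈ X, ∀ y ∈ S \ X, (univ.filter fun i => P i x = y).card = m x y := by
      intro x hx y hy
      have h3 := hf (x, y)
      rw [if_pos (mem_product.2 ⟨hx, hy⟩)] at h3
      rw [← h3]
      congr 1
      ext i
      simp only [mem_filter, mem_univ, true_and, Prod.ext_iff]
      constructor
      · intro h4
        by_cases hxf : x = (f i).1
        · refine ⟨hxf.symm, ?_⟩
          rw [hxf, hP3] at h4
          exact h4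
        · exfalso
          obtain ⟨h5, h6, _⟩ := hP1 i x hx hxf
          rw [h5] at h4
          exact (mem_sdiff.1 hy).2 (h4 ▸ h6)
      · rintro ⟨h4, h5⟩
        rw [← h4, hP3, h5]
    have key4 : ∀ x ∈ S \ X, ∀ y ∈ X, (univ.filter fun i => P i x = y).card = m x y := by
      intro x hx y hy
      have h3 := hf (y, x)
      rw [if_pos (mem_product.2 ⟨hy, hx⟩)] at h3
      rw [h.symm x y, ← h3]
      congr 1
      ext i
      simp only [mem_filter, mem_univ, true_and, Prod.ext_iff]
      constructor
      · intro h4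
        by_cases hxf : x = (f i).2
        · refine ⟨?_, hxf.symm⟩
          rw [hxf, hP4] at h4
          exact h4
        · exfalso
          obtain ⟨h5, h6, _⟩ := hP2 i x hx hxf
          rw [h5] at h4
          exact (mem_sdiff.1 h6).2 (h4 ▸ hy)
      · rintro ⟨h4, h5⟩
        rw [← h5, hP4, h4]
    intro x hx y hy
    by_cases hxX : x ∈ X <;> by_cases hyX : y ∈ X
    · exact key1 x hxX y hyX
    · exact key3 x hxX y (mem_sdiff.2 ⟨hy, hyX⟩)
    · exact key4 x (mem_sdiff.2 ⟨hx, hxX⟩) y hyX
    · exact key2 x (mem_sdiff.2 ⟨hx, hxX⟩) y (mem_sdiff.2 ⟨hy, hyX⟩)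

end Pool.Agent.H40.RG
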