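import Pool.Agent.H40.RG.Small
import Pool.Agent.H40.RG.Flow

/-!
# r-graphs which become bipartite after the deletion of two vertices
-/

namespace Pool.Agent.H40.RG

open Finset

variable {V : Type*} [DecidableEq V]

theorem col_congr {r : ℕ} {S : Finset V} {m m' : V → V → ℕ} (h : Col r S m)
    (he : ∀ x ∈ S, ∀ y ∈ S, m x y = m' x y) : Col r S m' := by
  obtain ⟨p, hp, hc⟩ := h
  exact ⟨p, hp, fun x hx y hy => (hc x hx y hy).trans (he x hx y hy)⟩

/-- colourings of edge-disjoint multigraphs with disjoint sets of colours -/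
theorem col_add {a b : ℕ} {S : Finset V} {m1 m2 : V → V → ℕ} (h1 : Col a S m1)
    (h2 : Col b S m2) : Col (a + b) S (fun x y => m1 x y + m2 x y) := by
  obtain ⟨p, hp, hpc⟩ := h1
  obtain ⟨q, hq, hqc⟩ := h2
  refine ⟨Fin.append p q, ?_, ?_⟩
  · intro i
    refine Fin.addCases (fun j => ?_) (fun j => ?_) i
    · rw [Fin.append_left]; exact hp j
    · rw [Fin.append_right]; exact hq j
  · intro x hx y hy
    change _ = m1 x y + m2 x y
    rw [← hpc x hx y hy, ← hqc x hx y hy, card_filter, card_filter, card_filter,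
      Fin.sum_univ_add]
    simp only [Fin.append_left, Fin.append_right]

/-- regular bipartite multigraphs are r-graphs -/
theorem isRG_bip {r : ℕ} {X Y : Finset V} (hd : Disjoint X Y) {m : V → V → ℕ}
    (symm : ∀ x y, m x y = m y x) (loop : ∀ x, m x x = 0)
    (reg : ∀ x ∈ X ∪ Y, ∑ y ∈ X ∪ Y, m x y = r)
    (hX : ∀ x ∈ X, ∀ y ∈ X, m x y = 0) (hY : ∀ x ∈ Y, ∀ y ∈ Y, m x y = 0) :
    IsRG r (X ∪ Y) m := by
  refine ⟨symm, loop, reg, ?_⟩
  intro Z hZ ho
  have hP : Z = (Z ∩ X) ∪ (Z ∩ Y) := by
    rw [← inter_union_distrib_left, inter_eq_left.2 hZ]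
  have hPR : Disjoint (Z ∩ X) (Z ∩ Y) := disjoint_of_subset_left inter_subset_right
    (disjoint_of_subset_right inter_subset_right hd)
  have hc : Z.card = (Z ∩ X).card + (Z ∩ Y).card := by
    conv_lhs => rw [hP]
    exact card_union_of_disjoint hPR
  have e1 : cc m Z Z = 2 * cc m (Z ∩ X) (Z ∩ Y) := by
    conv_lhs => rw [hP]
    rw [cc_union_left hPR, cc_union_right hPR, cc_union_right hPR,
      cc_comm symm (X := Z ∩ Y) (Y := Z ∩ X)]
    have h1 : cc m (Z ∩ X) (Z ∩ X) = 0 := sum_eq_zero fun x hx => sum_eq_zero fun y hy =>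
      hX x (mem_inter.1 hx).2 y (mem_inter.1 hy).2
    have h2 : cc m (Z ∩ Y) (Z ∩ Y) = 0 := sum_eq_zero fun x hx => sum_eq_zero fun y hy =>
      hY x (mem_inter.1 hx).2 y (mem_inter.1 hy).2
    omega
  have b1 : cc m (Z ∩ X) (Z ∩ Y) ≤ r * (Z ∩ X).card := by
    have h1 := cut_eq reg (X := Z ∩ X) (inter_subset_right.trans subset_union_left)
    have h2 : cc m (Z ∩ X) (Z ∩ Y) ≤ cc m (Z ∩ X) ((X ∪ Y) \ (Z ∩ X)) := by
      apply cc_mono (subset_refl _)
      intro y hy
      rw [mem_sdiff]
      exact ⟨mem_union_right _ (mem_inter.1 hy).2, fun h => (disjoint_left.1 hPR) h hy⟩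
    omega
  have b2 : cc m (Z ∩ X) (Z ∩ Y) ≤ r * (Z ∩ Y).card := by
    rw [cc_comm symm]
    have h1 := cut_eq reg (X := Z ∩ Y) (inter_subset_right.trans subset_union_right)
    have h2 : cc m (Z ∩ Y) (Z ∩ X) ≤ cc m (Z ∩ Y) ((X ∪ Y) \ (Z ∩ Y)) := by
      apply cc_mono (subset_refl _)
      intro y hy
      rw [mem_sdiff]
      exact ⟨mem_union_left _ (mem_inter.1 hy).2, fun h => (disjoint_left.1 hPR) hy h⟩
    omega
  rw [e1, hc]
  rw [hc] at ho
  rcases lt_trichotomy (Z ∩ X).card (Z ∩ Y).card with h | h | h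
  · have h1 : r * ((Z ∩ X).card + 1) ≤ r * (Z ∩ Y).card := Nat.mul_le_mul_left r h
    rw [mul_add, mul_one] at h1
    rw [mul_add]
    omega
  · rw [h] at ho
    exact absurd ho (by rw [Nat.not_odd_iff_even]; exact ⟨_, rfl⟩)
  · have h1 : r * ((Z ∩ Y).card + 1) ≤ r * (Z ∩ X).card := Nat.mul_le_mul_left r h
    rw [mul_add, mul_one] at h1
    rw [mul_add]
    omega

/-- König: regular bipartite multigraphs -/
theorem col_bip {X Y : Finset V} (hd : Disjoint X Y) : ∀ (r : ℕ) (m : V → V → ℕ),
    (∀ x y, m x y = m y x) → (∀ x, m x x = 0) →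
    (∀ x ∈ X ∪ Y, ∑ y ∈ X ∪ Y, m x y = r) →
    (∀ x ∈ X, ∀ y ∈ X, m x y = 0) → (∀ x ∈ Y, ∀ y ∈ Y, m x y = 0) → Col r (X ∪ Y) m := by
  intro r
  induction r with
  | zero =>
    intro m symm loop reg hX hY
    exact col_zero (isRG_bip hd symm loop reg hX hY)
  | succ r ih =>
    intro m symm loop reg hX hY
    have h := isRG_bip hd symm loop reg hX hY
    obtain ⟨p, hp⟩ := exists_pm h (Nat.succ_pos r)
    have hp' : ∀ x ∈ X ∪ Y, m x (p x) ≠ 0 := fun x hx => (hp x hx).2.2
    refine col_rem hp (ih _ ?_ ?_ ?_ ?_ ?_)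
    · intro x y
      unfold rem
      by_cases hxy : x ∈ X ∪ Y ∧ y ∈ X ∪ Y ∧ p x = y
      · have hyx : y ∈ X ∪ Y ∧ x ∈ X ∪ Y ∧ p y = x := by
          refine ⟨hxy.2.1, hxy.1, ?_⟩
          rw [← hxy.2.2]
          exact (hp x hxy.1).2.1
        rw [if_pos hxy, if_pos hyx, symm x y]
      · have hyx : ¬ (y ∈ X ∪ Y ∧ x ∈ X ∪ Y ∧ p y = x) := by
          intro hyx
          apply hxy
          refine ⟨hyx.2.1, hyx.1, ?_⟩
          rw [← hyx.2.2]
          exact (hp y hyx.1).2.1
        rw [if_neg hxy, if_neg hyx, symm x y]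
    · intro x
      unfold rem
      rw [loop]
      simp
    · intro x hx
      have h1 := reg x hx
      rw [sum_congr rfl fun y hy => rem_add hp' hx hy, sum_add_distrib, sum_ite_eq,
        if_pos (hp x hx).1] at h1
      omega
    · intro x hx y hy
      unfold rem
      rw [hX x hx y hy]
      simp
    · intro x hx y hy
      unfold rem
      rw [hY x hx y hy]
      simp

/-- the flow lemma on finsets -/
theorem exists_flow_finset (X Y : Finset V) (c : V → V → ℕ) (f g : V → ℕ)
    (hsum : ∑ x ∈ X, f x = ∑ y ∈ Y, g y)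
    (h : ∀ P ⊆ X, ∀ R ⊆ Y, ∑ x ∈ P, f x ≤ ∑ y ∈ R, g y + cc c P (Y \ R)) :
    ∃ F : V → V → ℕ, (∀ x y, F x y ≤ c x y) ∧ (∀ x ∈ X, ∑ y ∈ Y, F x y = f x) ∧
      (∀ y ∈ Y, ∑ x ∈ X, F x y = g y) ∧ ∀ x y, x ∉ X ∨ y ∉ Y → F x y = 0 := by
  obtain ⟨F, h1, h2, h3⟩ := exists_flow (α := X) (β := Y) (fun x y => c x y) (fun x => f x)
    (fun y => g y) (by
      rw [← sum_coe_sort X f, ← sum_coe_sort Y g] at hsum
      exact hsum) (by
      intro P R
      have e := h (P.map (Function.Embedding.subtype _)) (by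
        intro x hx
        obtain ⟨y, _, rfl⟩ := mem_map.1 hx
        exact y.2) (R.map (Function.Embedding.subtype _)) (by
        intro x hx
        obtain ⟨y, _, rfl⟩ := mem_map.1 hx
        exact y.2)
      have e2 : Y \ R.map (Function.Embedding.subtype _)
          = (Rᶜ : Finset Y).map (Function.Embedding.subtype _) := by
        ext y
        simp only [mem_sdiff, mem_map, Function.Embedding.subtype_apply, Subtype.exists,
          exists_and_right, exists_eq_right, mem_compl, not_exists]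
        constructor
        · rintro ⟨hy, hn⟩
          exact ⟨hy, hn hy⟩
        · rintro ⟨hy, hn⟩
          exact ⟨hy, fun _ => hn⟩
      rw [e2] at e
      unfold cc at e
      simp only [sum_map, Function.Embedding.subtype_apply] at e
      exact e)
  refine ⟨fun x y => if hx : x ∈ X then if hy : y ∈ Y then F ⟨x, hx⟩ ⟨y, hy⟩ else 0 else 0,
    ?_, ?_, ?_, ?_⟩
  · intro x y
    beta_reduce
    split_ifs with hx hy
    · exact h1 ⟨x, hx⟩ ⟨y, hy⟩
    · exact Nat.zero_le _
    · exact Nat.zero_le _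
  · intro x hx
    rw [← h2 ⟨x, hx⟩, ← sum_coe_sort Y]
    refine sum_congr rfl fun y _ => ?_
    beta_reduce
    rw [dif_pos hx, dif_pos y.2]
  · intro y hy
    rw [← h3 ⟨y, hy⟩, ← sum_coe_sort X]
    refine sum_congr rfl fun x _ => ?_
    beta_reduce
    rw [dif_pos x.2, dif_pos hy]
  · rintro x y (hx | hy)
    · beta_reduce
      rw [dif_neg hx]
    · beta_reduce
      split_ifs
      · rfl
      · rfl

section two

variable {r : ℕ} {X Y : Finset V} {u v : V} {m : V → V → ℕ}

theorem sum_two (hd : Disjoint X Y) (hu : u ∉ X ∪ Y) (hv : v ∉ X ∪ Y) (huv : u ≠ v)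
    (f : V → ℕ) : ∑ z ∈ insert u (insert v (X ∪ Y)), f z
      = f u + f v + ∑ x ∈ X, f x + ∑ y ∈ Y, f y := by
  rw [sum_insert (by
    rw [mem_insert]
    rintro (h | h)
    · exact huv h
    · exact hu h), sum_insert hv, sum_union hd]
  ring

/-- the unbalanced case -/
theorem col_two_gt (hd : Disjoint X Y) (hu : u ∉ X ∪ Y) (hv : v ∉ X ∪ Y) (huv : u ≠ v)
    (h : IsRG r (insert u (insert v (X ∪ Y))) m)
    (hX : ∀ x ∈ X, ∀ y ∈ X, m x y = 0) (hY : ∀ x ∈ Y, ∀ y ∈ Y, m x y = 0)
    (hlt : Y.card < X.card) : Col r (insert u (insert v (X ∪ Y))) m := by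
  rcases Nat.eq_zero_or_pos r with rfl | hr
  · exact col_zero h
  have hev := h.even_card hr
  have hs : (insert u (insert v (X ∪ Y))).card = X.card + Y.card + 2 := by
    rw [card_insert_of_notMem (by
      rw [mem_insert]
      rintro (h | h)
      · exact huv h
      · exact hu h), card_insert_of_notMem hv, card_union_of_disjoint hd]
  have hxy : Y.card + 2 ≤ X.card := by
    rw [hs] at hev
    obtain ⟨k, hk⟩ := hev
    omega
  have ru := h.reg u (mem_insert_self _ _)
  have rv := h.reg v (mem_insert_of_mem (mem_insert_self _ _))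
  rw [sum_two hd hu hv huv] at ru rv
  have hlu := h.loop u
  have hlv := h.loop v
  have hsy := h.symm u v
  have sX : ∑ x ∈ X, m u x + ∑ x ∈ X, m v x + cc m X Y = r * X.card := by
    have h1 : ∑ x ∈ X, ∑ z ∈ insert u (insert v (X ∪ Y)), m x z = r * X.card := by
      rw [sum_congr rfl fun x hx => h.reg x (mem_insert_of_mem (mem_insert_of_mem
        (mem_union_left _ hx))), sum_const, smul_eq_mul, mul_comm]
    rw [← h1]
    unfold cc
    rw [← sum_add_distrib, ← sum_add_distrib]
    refine sum_congr rfl fun x hx => ?_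
    rw [sum_two hd hu hv huv, sum_eq_zero fun y hy => hX x hx y hy, h.symm x u, h.symm x v]
    ring
  have sY : ∑ y ∈ Y, m u y + ∑ y ∈ Y, m v y + cc m X Y = r * Y.card := by
    have h1 : ∑ x ∈ Y, ∑ z ∈ insert u (insert v (X ∪ Y)), m x z = r * Y.card := by
      rw [sum_congr rfl fun x hx => h.reg x (mem_insert_of_mem (mem_insert_of_mem
        (mem_union_right _ hx))), sum_const, smul_eq_mul, mul_comm]
    rw [← h1, cc_comm h.symm]
    unfold cc
    rw [← sum_add_distrib, ← sum_add_distrib]
    refine sum_congr rfl fun x hx => ?_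
    rw [sum_two hd hu hv huv, sum_eq_zero (s := Y) fun y hy => hY x hx y hy, h.symm x u,
      h.symm x v]
    ring
  have hmul : r * Y.card + 2 * r ≤ r * X.card := by
    have := Nat.mul_le_mul_left r hxy
    rw [mul_add] at this
    omega
  have e1 : m u v = 0 := by omega
  have e2 : ∑ y ∈ Y, m u y = 0 := by omega
  have e3 : ∑ y ∈ Y, m v y = 0 := by omega
  rw [sum_eq_zero_iff] at e2 e3
  have hd' : Disjoint X (insert u (insert v Y)) := by
    rw [disjoint_left]
    intro x hx hx'
    rw [mem_insert, mem_insert] at hx'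
    rcases hx' with rfl | rfl | hx'
    · exact hu (mem_union_left _ hx)
    · exact hv (mem_union_left _ hx)
    · exact disjoint_left.1 hd hx hx'
  have hS : insert u (insert v (X ∪ Y)) = X ∪ insert u (insert v Y) := by
    ext z
    simp only [mem_insert, mem_union]
    tauto
  have hreg := h.reg
  rw [hS] at hreg ⊢
  refine col_bip hd' r m h.symm h.loop hreg hX ?_
  intro x hx y hy
  rw [mem_insert, mem_insert] at hx hy
  rcases hx with rfl | rfl | hx <;> rcases hy with rfl | rfl | hy
  · exact hlu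
  · exact e1
  · exact e2 y hy
  · rw [h.symm]; exact e1
  · exact hlv
  · exact e3 y hy
  · rw [h.symm]; exact e2 x hx
  · rw [h.symm]; exact e3 x hx
  · exact hY x hx y hy

/-- the balanced case -/
theorem col_two_eq (hd : Disjoint X Y) (hu : u ∉ X ∪ Y) (hv : v ∉ X ∪ Y) (huv : u ≠ v)
    (h : IsRG r (insert u (insert v (X ∪ Y))) m)
    (hX : ∀ x ∈ X, ∀ y ∈ X, m x y = 0) (hY : ∀ x ∈ Y, ∀ y ∈ Y, m x y = 0)
    (heq : X.card = Y.card) : Col r (insert u (insert v (X ∪ Y))) m := by
  have ru := h.reg u (mem_insert_self _ _)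
  have rv := h.reg v (mem_insert_of_mem (mem_insert_self _ _))
  rw [sum_two hd hu hv huv] at ru rv
  have hlu := h.loop u
  have hlv := h.loop v
  have hsy := h.symm u v
  -- partial degree sums
  have sP : ∀ P ⊆ X, ∑ x ∈ P, m u x + ∑ x ∈ P, m v x + cc m P Y = r * P.card := by
    intro P hP
    have h1 : ∑ x ∈ P, ∑ z ∈ insert u (insert v (X ∪ Y)), m x z = r * P.card := by
      rw [sum_congr rfl fun x hx => h.reg x (mem_insert_of_mem (mem_insert_of_mem
        (mem_union_left _ (hP hx)))), sum_const, smul_eq_mul, mul_comm]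
    rw [← h1]
    unfold cc
    rw [← sum_add_distrib, ← sum_add_distrib]
    refine sum_congr rfl fun x hx => ?_
    rw [sum_two hd hu hv huv, sum_eq_zero fun y hy => hX x (hP hx) y hy, h.symm x u, h.symm x v]
    ring
  have sR : ∀ R ⊆ Y, ∑ y ∈ R, m u y + ∑ y ∈ R, m v y + cc m R X = r * R.card := by
    intro R hR
    have h1 : ∑ x ∈ R, ∑ z ∈ insert u (insert v (X ∪ Y)), m x z = r * R.card := by
      rw [sum_congr rfl fun x hx => h.reg x (mem_insert_of_mem (mem_insert_of_mem
        (mem_union_right _ (hR hx)))), sum_const, smul_eq_mul, mul_comm]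
    rw [← h1]
    unfold cc
    rw [← sum_add_distrib, ← sum_add_distrib]
    refine sum_congr rfl fun x hx => ?_
    rw [sum_two hd hu hv huv, sum_eq_zero (s := Y) fun y hy => hY x (hR hx) y hy, h.symm x u,
      h.symm x v]
    ring
  obtain ⟨a, ha⟩ : ∃ a, a = ∑ x ∈ X, m u x := ⟨_, rfl⟩
  obtain ⟨b, hb⟩ : ∃ b, b = ∑ y ∈ Y, m u y := ⟨_, rfl⟩
  have s1 := sP X (subset_refl _)
  have s2 := sR Y (subset_refl _)
  rw [cc_comm h.symm (X := Y), ← heq] at s2
  have ha' : ∑ y ∈ Y, m v y = a := by omega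
  have hb' : ∑ x ∈ X, m v x = b := by omega
  have hab : a + b + m u v = r := by omega
  have hfa : ∀ x ∈ X, m u x ≤ a := fun x hx => ha ▸ single_le_sum (f := fun x => m u x)
    (fun _ _ => Nat.zero_le _) hx
  have hga : ∀ y ∈ Y, m v y ≤ a := fun y hy => ha' ▸ single_le_sum (f := fun y => m v y)
    (fun _ _ => Nat.zero_le _) hy
  have fP : ∀ P ⊆ X, ∑ x ∈ P, (a - m u x) + ∑ x ∈ P, m u x = a * P.card := by
    intro P hP
    rw [← sum_add_distrib, sum_congr rfl fun x hx => Nat.sub_add_cancel (hfa x (hP hx)),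
      sum_const, smul_eq_mul, mul_comm]
  have gR : ∀ R ⊆ Y, ∑ y ∈ R, (a - m v y) + ∑ y ∈ R, m v y = a * R.card := by
    intro R hR
    rw [← sum_add_distrib, sum_congr rfl fun x hx => Nat.sub_add_cancel (hga x (hR hx)),
      sum_const, smul_eq_mul, mul_comm]
  obtain ⟨F, F1, F2, F3, F4⟩ := exists_flow_finset X Y m (fun x => a - m u x)
    (fun y => a - m v y) (by
      have h1 := fP X (subset_refl _)
      have h2 := gR Y (subset_refl _)
      rw [heq] at h1
      omega) (by
      intro P hP R hR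
      have hA := fP P hP
      have hB := gR R hR
      have hP1 := sP P hP
      have hR1 := sR R hR
      have hYR : Y = R ∪ (Y \ R) := (union_sdiff_of_subset hR).symm
      have hE : cc m P Y = cc m P R + cc m P (Y \ R) := by
        conv_lhs => rw [hYR]
        exact cc_union_right disjoint_sdiff
      have hXP : X = P ∪ (X \ P) := (union_sdiff_of_subset hP).symm
      have hE' : cc m R X = cc m P R + cc m R (X \ P) := by
        conv_lhs => rw [hXP]
        rw [cc_union_right disjoint_sdiff, cc_comm h.symm (X := R) (Y := P)]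
      have hBa : ∑ y ∈ R, m v y ≤ a := ha' ▸ sum_le_sum_of_subset hR
      have hPb : ∑ x ∈ P, m v x ≤ b := hb' ▸ sum_le_sum_of_subset hP
      rcases lt_trichotomy P.card R.card with hc | hc | hc
      · have h1 : a * (P.card + 1) ≤ a * R.card := Nat.mul_le_mul_left a hc
        rw [mul_add, mul_one] at h1
        omega
      · -- the odd set
        have hPRd : Disjoint P R := disjoint_of_subset_left hP (disjoint_of_subset_right hR hd)
        have hvP : v ∉ P ∪ R := fun hh => hv (union_subset_union hP hR hh)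
        have ho := h.odd (insert v (P ∪ R)) (by
          apply (insert_subset_insert v (union_subset_union hP hR)).trans
          exact subset_insert _ _) (by
          rw [card_insert_of_notMem hvP, card_union_of_disjoint hPRd, hc]
          exact ⟨R.card, by ring⟩)
        rw [card_insert_of_notMem hvP, card_union_of_disjoint hPRd] at ho
        have e1 : cc m (insert v (P ∪ R)) (insert v (P ∪ R))
            = 2 * (cc m P R + ∑ x ∈ P, m v x + ∑ y ∈ R, m v y) := by
          have hdv : Disjoint ({v} : Finset V) (P ∪ R) := by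
            rw [disjoint_singleton_left]; exact hvP
          rw [insert_eq, cc_union_left hdv, cc_union_right hdv, cc_union_right hdv,
            cc_comm h.symm (X := P ∪ R) (Y := {v}), cc_singleton_left, sum_singleton, hlv,
            cc_singleton_left, sum_union hPRd, cc_union_left hPRd, cc_union_right hPRd,
            cc_union_right hPRd, cc_comm h.symm (X := R) (Y := P)]
          have h1 : cc m P P = 0 := sum_eq_zero fun x hx => sum_eq_zero fun y hy =>
            hX x (hP hx) y (hP hy)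
          have h2 : cc m R R = 0 := sum_eq_zero fun x hx => sum_eq_zero fun y hy =>
            hY x (hR hx) y (hR hy)
          rw [h1, h2]
          ring
        rw [e1, ← hc] at ho
        rw [← hc] at hB
        have h3 : r * (P.card + P.card + 1) = 2 * (r * P.card) + r := by ring
        rw [h3] at ho
        omega
      · obtain ⟨k, hk⟩ : ∃ k, P.card = R.card + k + 1 := ⟨P.card - R.card - 1, by omega⟩
        rw [hk] at hA hP1
        have h1 : a * (R.card + k + 1) = a * R.card + a * k + a := by ring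
        have h2 : r * (R.card + k + 1) = r * R.card + r * k + r := by ring
        have h3 : a * k ≤ r * k := Nat.mul_le_mul_right k (by omega)
        rw [h1] at hA
        rw [h2] at hP1
        omega)
  -- the two bipartite parts
  let T : V → V → ℕ := fun x y => if (x = u ∧ y ∈ X) ∨ (x = v ∧ y ∈ Y) then m x y else 0
  let m1 : V → V → ℕ := fun x y => F x y + F y x + T x y + T y x
  have huX : u ∉ X := fun hh => hu (mem_union_left _ hh)
  have huY : u ∉ Y := fun hh => hu (mem_union_right _ hh)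
  have hvX : v ∉ X := fun hh => hv (mem_union_left _ hh)
  have hvY : v ∉ Y := fun hh => hv (mem_union_right _ hh)
  have T0 : ∀ x y, x ≠ u → x ≠ v → T x y = 0 := by
    intro x y hxu hxv
    change (if (x = u ∧ y ∈ X) ∨ (x = v ∧ y ∈ Y) then m x y else 0) = 0
    rw [if_neg]
    rintro (hh | hh)
    · exact hxu hh.1
    · exact hxv hh.1
  have Tu : ∀ y ∈ X, T u y = m u y := by
    intro y hy
    change (if (u = u ∧ y ∈ X) ∨ (u = v ∧ y ∈ Y) then m u y else 0) = m u y
    rw [if_pos (Or.inl ⟨rfl, hy⟩)]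
  have Tu0 : ∀ y, y ∉ X → T u y = 0 := by
    intro y hy
    change (if (u = u ∧ y ∈ X) ∨ (u = v ∧ y ∈ Y) then m u y else 0) = 0
    rw [if_neg]
    rintro (hh | hh)
    · exact hy hh.2
    · exact huv hh.1
  have Tv : ∀ y ∈ Y, T v y = m v y := by
    intro y hy
    change (if (v = u ∧ y ∈ X) ∨ (v = v ∧ y ∈ Y) then m v y else 0) = m v y
    rw [if_pos (Or.inr ⟨rfl, hy⟩)]
  have Tv0 : ∀ y, y ∉ Y → T v y = 0 := by
    intro y hy
    change (if (v = u ∧ y ∈ X) ∨ (v = v ∧ y ∈ Y) then m v y else 0) = 0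
    rw [if_neg]
    rintro (hh | hh)
    · exact huv hh.1.symm
    · exact hy hh.2
  have hXne : ∀ x ∈ X, x ≠ u ∧ x ≠ v ∧ x ∉ Y := fun x hx =>
    ⟨fun e => huX (e ▸ hx), fun e => hvX (e ▸ hx), fun hy => disjoint_left.1 hd hx hy⟩
  have hYne : ∀ x ∈ Y, x ≠ u ∧ x ≠ v ∧ x ∉ X := fun x hx =>
    ⟨fun e => huY (e ▸ hx), fun e => hvY (e ▸ hx), fun hy => disjoint_left.1 hd hy hx⟩
  have m1symm : ∀ x y, m1 x y = m1 y x := by
    intro x y
    change F x y + F y x + T x y + T y x = F y x + F x y + T y x + T x y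
    ring
  -- values
  have vXY : ∀ x ∈ X, ∀ y ∈ Y, m1 x y = F x y := by
    intro x hx y hy
    change F x y + F y x + T x y + T y x = F x y
    rw [F4 y x (Or.inl (hYne y hy).2.2), T0 x y (hXne x hx).1 (hXne x hx).2.1,
      T0 y x (hYne y hy).1 (hYne y hy).2.1]
    ring
  have vXX : ∀ x ∈ X, ∀ y ∈ X, m1 x y = 0 := by
    intro x hx y hy
    change F x y + F y x + T x y + T y x = 0
    rw [F4 y x (Or.inr (hXne x hx).2.2), F4 x y (Or.inr (hXne y hy).2.2),
      T0 x y (hXne x hx).1 (hXne x hx).2.1, T0 y x (hXne y hy).1 (hXne y hy).2.1]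
  have vYY : ∀ x ∈ Y, ∀ y ∈ Y, m1 x y = 0 := by
    intro x hx y hy
    change F x y + F y x + T x y + T y x = 0
    rw [F4 y x (Or.inl (hYne y hy).2.2), F4 x y (Or.inl (hYne x hx).2.2),
      T0 x y (hYne x hx).1 (hYne x hx).2.1, T0 y x (hYne y hy).1 (hYne y hy).2.1]
  have vuX : ∀ x ∈ X, m1 u x = m u x := by
    intro x hx
    change F u x + F x u + T u x + T x u = m u x
    rw [F4 u x (Or.inl huX), F4 x u (Or.inr huY), Tu x hx, T0 x u (hXne x hx).1 (hXne x hx).2.1]
    ring
  have vuY : ∀ x ∈ Y, m1 u x = 0 := by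
    intro x hx
    change F u x + F x u + T u x + T x u = 0
    rw [F4 u x (Or.inl huX), F4 x u (Or.inr huY), Tu0 x (hYne x hx).2.2,
      T0 x u (hYne x hx).1 (hYne x hx).2.1]
  have vvX : ∀ x ∈ X, m1 v x = 0 := by
    intro x hx
    change F v x + F x v + T v x + T x v = 0
    rw [F4 v x (Or.inl hvX), F4 x v (Or.inr hvY), Tv0 x (hXne x hx).2.2,
      T0 x v (hXne x hx).1 (hXne x hx).2.1]
  have vvY : ∀ x ∈ Y, m1 v x = m v x := by
    intro x hx
    change F v x + F x v + T v x + T x v = m v x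
    rw [F4 v x (Or.inl hvX), F4 x v (Or.inr hvY), Tv x hx, T0 x v (hYne x hx).1 (hYne x hx).2.1]
    ring
  have vuv : m1 u v = 0 := by
    change F u v + F v u + T u v + T v u = 0
    rw [F4 u v (Or.inl huX), F4 v u (Or.inl hvX), Tu0 v hvX, Tv0 u huY]
  have vuu : m1 u u = 0 := by
    change F u u + F u u + T u u + T u u = 0
    rw [F4 u u (Or.inl huX), Tu0 u huX]
  have vvv : m1 v v = 0 := by
    change F v v + F v v + T v v + T v v = 0
    rw [F4 v v (Or.inl hvX), Tv0 v hvY]
  have loop1 : ∀ x, m1 x x = 0 := by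
    intro x
    by_cases hxu : x = u
    · rw [hxu]; exact vuu
    · by_cases hxv : x = v
      · rw [hxv]; exact vvv
      · change F x x + F x x + T x x + T x x = 0
        rw [T0 x x hxu hxv]
        by_cases hx : x ∈ X
        · rw [F4 x x (Or.inr (hXne x hx).2.2)]
        · rw [F4 x x (Or.inl hx)]
  have reg1 : ∀ x ∈ insert u (insert v (X ∪ Y)),
      ∑ y ∈ insert u (insert v (X ∪ Y)), m1 x y = a := by
    intro x hx
    rw [mem_insert, mem_insert, mem_union] at hx
    rw [sum_two hd hu hv huv]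
    rcases hx with rfl | rfl | hx | hx
    · rw [vuu, vuv, sum_congr rfl vuX, sum_eq_zero (s := Y) vuY, ← ha]
      ring
    · rw [vvv, m1symm, vuv, sum_eq_zero (s := X) vvX, sum_congr rfl vvY, ha']
      ring
    · rw [m1symm x u, vuX x hx, m1symm x v, vvX x hx, sum_eq_zero (s := X) (vXX x hx),
        sum_congr rfl (vXY x hx), F2 x hx]
      have := hfa x hx
      omega
    · rw [m1symm x u, vuY x hx, m1symm x v, vvY x hx, sum_eq_zero (s := Y) (vYY x hx)]
      rw [sum_congr rfl fun z hz => (m1symm x z).trans (vXY z hz x hx), F3 x hx]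
      have := hga x hx
      omega
  have le1 : ∀ x ∈ insert u (insert v (X ∪ Y)), ∀ y ∈ insert u (insert v (X ∪ Y)),
      m1 x y ≤ m x y := by
    intro x hx y hy
    rw [mem_insert, mem_insert, mem_union] at hx hy
    rcases hx with rfl | rfl | hx | hx <;> rcases hy with rfl | rfl | hy | hy
    · rw [vuu]; exact Nat.zero_le _
    · rw [vuv]; exact Nat.zero_le _
    · rw [vuX y hy]
    · rw [vuY y hy]; exact Nat.zero_le _
    · rw [m1symm, vuv]; exact Nat.zero_le _
    · rw [vvv]; exact Nat.zero_le _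
    · rw [vvX y hy]; exact Nat.zero_le _
    · rw [vvY y hy]
    · rw [m1symm, vuX x hx, h.symm]
    · rw [m1symm, vvX x hx]; exact Nat.zero_le _
    · rw [vXX x hx y hy]; exact Nat.zero_le _
    · rw [vXY x hx y hy]; exact F1 x y
    · rw [m1symm, vuY x hx]; exact Nat.zero_le _
    · rw [m1symm, vvY x hx, h.symm]
    · rw [m1symm, vXY y hy x hx, h.symm]; exact F1 y x
    · rw [vYY x hx y hy]; exact Nat.zero_le _
  let m2 : V → V → ℕ := fun x y => m x y - m1 x y
  have hS1 : insert u (insert v (X ∪ Y)) = (insert v X) ∪ (insert u Y) := by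
    ext z
    simp only [mem_insert, mem_union]
    tauto
  have hS2 : insert u (insert v (X ∪ Y)) = (insert u X) ∪ (insert v Y) := by
    ext z
    simp only [mem_insert, mem_union]
    tauto
  have hd1 : Disjoint (insert v X) (insert u Y) := by
    rw [disjoint_left]
    intro x hx hx'
    rw [mem_insert] at hx hx'
    rcases hx with rfl | hx <;> rcases hx' with rfl | hx'
    · exact huv rfl
    · exact hvY hx'
    · exact huX hx
    · exact disjoint_left.1 hd hx hx'
  have hd2 : Disjoint (insert u X) (insert v Y) := by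
    rw [disjoint_left]
    intro x hx hx'
    rw [mem_insert] at hx hx'
    rcases hx with rfl | hx <;> rcases hx' with rfl | hx'
    · exact huv rfl
    · exact huY hx'
    · exact hvX hx
    · exact disjoint_left.1 hd hx hx'
  have c1 : Col a (insert u (insert v (X ∪ Y))) m1 := by
    have hreg := reg1
    rw [hS1] at hreg ⊢
    refine col_bip hd1 a m1 m1symm loop1 hreg ?_ ?_
    · intro x hx y hy
      rw [mem_insert] at hx hy
      rcases hx with rfl | hx <;> rcases hy with rfl | hy
      · exact vvv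
      · exact vvX y hy
      · rw [m1symm]; exact vvX x hx
      · exact vXX x hx y hy
    · intro x hx y hy
      rw [mem_insert] at hx hy
      rcases hx with rfl | hx <;> rcases hy with rfl | hy
      · exact vuu
      · exact vuY y hy
      · rw [m1symm]; exact vuY x hx
      · exact vYY x hx y hy
  have c2 : Col (r - a) (insert u (insert v (X ∪ Y))) m2 := by
    have hreg : ∀ x ∈ insert u (insert v (X ∪ Y)),
        ∑ y ∈ insert u (insert v (X ∪ Y)), m2 x y = r - a := by
      intro x hx
      have h1 := h.reg x hx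
      have h2 := reg1 x hx
      have h3 : ∑ y ∈ insert u (insert v (X ∪ Y)), m2 x y
          + ∑ y ∈ insert u (insert v (X ∪ Y)), m1 x y
          = ∑ y ∈ insert u (insert v (X ∪ Y)), m x y := by
        rw [← sum_add_distrib]
        exact sum_congr rfl fun y hy => Nat.sub_add_cancel (le1 x hx y hy)
      omega
    rw [hS2] at hreg ⊢
    refine col_bip hd2 (r - a) m2 ?_ ?_ hreg ?_ ?_
    · intro x y
      change m x y - m1 x y = m y x - m1 y x
      rw [h.symm, m1symm]
    · intro x
      change m x x - m1 x x = 0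
      rw [h.loop, Nat.zero_sub]
    · intro x hx y hy
      change m x y - m1 x y = 0
      rw [mem_insert] at hx hy
      rcases hx with rfl | hx <;> rcases hy with rfl | hy
      · rw [hlu, Nat.zero_sub]
      · rw [vuX y hy, Nat.sub_self]
      · rw [m1symm, vuX x hx, h.symm, Nat.sub_self]
      · rw [hX x hx y hy, Nat.zero_sub]
    · intro x hx y hy
      change m x y - m1 x y = 0
      rw [mem_insert] at hx hy
      rcases hx with rfl | hx <;> rcases hy with rfl | hy
      · rw [hlv, Nat.zero_sub]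
      · rw [vvY y hy, Nat.sub_self]
      · rw [m1symm, vvY x hx, h.symm, Nat.sub_self]
      · rw [hY x hx y hy, Nat.zero_sub]
  have c3 := col_add c1 c2
  have har : a + (r - a) = r := by omega
  rw [har] at c3
  refine col_congr c3 ?_
  intro x hx y hy
  change m1 x y + (m x y - m1 x y) = m x y
  have := le1 x hx y hy
  omega

/-- **Theorem.** An `r`-graph which becomes bipartite after the deletion of two vertices is
`r`-edge-colourable. -/
theorem col_two (hd : Disjoint X Y) (hu : u ∉ X ∪ Y) (hv : v ∉ X ∪ Y) (huv : u ≠ v)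
    (h : IsRG r (insert u (insert v (X ∪ Y))) m)
    (hX : ∀ x ∈ X, ∀ y ∈ X, m x y = 0) (hY : ∀ x ∈ Y, ∀ y ∈ Y, m x y = 0) :
    Col r (insert u (insert v (X ∪ Y))) m := by
  rcases lt_trichotomy X.card Y.card with hc | hc | hc
  · rw [union_comm] at hu hv h ⊢
    exact col_two_gt hd.symm hu hv huv h hY hX hc
  · exact col_two_eq hd hu hv huv h hX hY hc
  · exact col_two_gt hd hu hv huv h hX hY hc

end two

end Pool.Agent.H40.RG
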